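import Pool.Agent.MP_ca1109_lc.Xh.BBa
import Pool.Agent.MP_ca1109_lc.Xp.SPb

/-!
# Small bias fools functions of the heavy monomials times products of weights: the two cases
-/

namespace Pool.Agent.MP_ca1109_lc.Xh

open Finset Pool.Agent.H66 Pool.Agent.MP_ca1109_lc.Mpg Pool.Agent.MP_ca1109_lc.Agp
open Pool.Agent.MP_ca1109_lc.Xp Pool.Agent.MP_ca1109_lc.Xg
open Pool.Agent.MP_ca1109_lc.Dnf (Cube ch one E mix Term)

variable {n : ℕ}

open Classical in
/-- The black box for families with any finite index set. -/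
theorem hbbb_gen (r : ℕ) (K V : ℝ) {ε : ℝ} (hε : 0 < ε) : ∃ C n₀ : ℕ, ∀ n ≥ n₀, ∀ {ι : Type}
    [Fintype ι] (T : ι → Term n) (z : ι → ℂ) (J : Finset ι) (ψ : Finset ι → ℂ),
      (∀ j, (T j).S.Nonempty) → (∀ v, (univ.filter fun j => v ∈ (T j).S).card ≤ r) →
      (∀ j, ‖z j‖ = 1) → (∀ A, ‖ψ A‖ ≤ 1) →
      ∑ j, (1 / 2 : ℝ) ^ (T j).S.card * ‖1 - z j‖ ^ 2 ≤ V →
      ∑ j ∈ J, (1 / 2 : ℝ) ^ (T j).S.card ≤ K →
      ∀ {Ω : Type} [Fintype Ω] [Nonempty Ω] (Y : Ω → Cube n) (δ : ℝ), 0 ≤ δ → δ * (n : ℝ) ^ C ≤ 1 →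
        Bias δ Y →
        ‖(av fun ω => ψ (J.filter fun j => (T j).Sat (Y ω)) *
            ∏ j, if (T j).Sat (Y ω) then z j else 1) -
          av fun x => ψ (J.filter fun j => (T j).Sat x) * ∏ j, if (T j).Sat x then z j else 1‖ ≤ ε := by
  obtain ⟨C, n₀, hC⟩ := hbb r K V hε
  refine ⟨C, n₀, ?_⟩
  intro n hn ι _ T z J ψ h0 hread hz hψ hV hK Ω _ _ Y δ hδ hδn hY
  set e : Fin (Fintype.card ι) ≃ ι := (Fintype.equivFin ι).symm with he
  have hr : Dnf.Read r (fun j => T (e j)) := by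
    intro v
    refine le_trans (le_of_eq ?_) (hread v)
    rw [← card_map e.toEmbedding]
    congr 1
    ext j
    simp only [mem_map, mem_filter, mem_univ, true_and, Equiv.coe_toEmbedding]
    constructor
    · rintro ⟨i, hi, rfl⟩
      exact hi
    · intro hj
      exact ⟨e.symm j, by rw [Equiv.apply_symm_apply]; exact hj, Equiv.apply_symm_apply _ _⟩
  have hkey : ∀ x : Cube n, ψ (J.filter fun j => (T j).Sat x) *
      (∏ j, if (T j).Sat x then z j else 1) =
      ψ ((trt (fun j => T (e j)) (J.map e.symm.toEmbedding) x).map e.toEmbedding) *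
        htv (fun j => T (e j)) (fun j => z (e j)) x := by
    intro x
    congr 1
    · congr 1
      ext j
      unfold trt
      simp only [mem_map, mem_filter, Equiv.coe_toEmbedding]
      constructor
      · rintro ⟨hj, hs⟩
        exact ⟨e.symm j, ⟨⟨j, hj, rfl⟩, by rw [Equiv.apply_symm_apply]; exact hs⟩,
          Equiv.apply_symm_apply _ _⟩
      · rintro ⟨i, ⟨⟨j', hj', rfl⟩, hs⟩, rfl⟩
        rw [Equiv.apply_symm_apply] at hs ⊢
        exact ⟨hj', hs⟩
    · unfold htv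
      exact (Equiv.prod_comp e fun j => if (T j).Sat x then z j else 1).symm
  have h1 := hC n hn (Fintype.card ι) (fun j => T (e j)) (fun j => z (e j))
    (J.map e.symm.toEmbedding) (fun A => ψ (A.map e.toEmbedding)) (fun j => h0 _) hr
    (fun j => hz _) (fun A => hψ _)
    (by
      rw [Equiv.sum_comp e fun j => (1 / 2 : ℝ) ^ (T j).S.card * ‖1 - z j‖ ^ 2]
      exact hV)
    (by
      rw [sum_map]
      simp only [Equiv.coe_toEmbedding, Equiv.apply_symm_apply]
      exact hK) Y δ hδ hδn hY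
  rw [show (fun ω => ψ (J.filter fun j => (T j).Sat (Y ω)) *
        ∏ j, if (T j).Sat (Y ω) then z j else 1) = fun ω =>
      ψ ((trt (fun j => T (e j)) (J.map e.symm.toEmbedding) (Y ω)).map e.toEmbedding) *
        htv (fun j => T (e j)) (fun j => z (e j)) (Y ω) from funext fun ω => hkey _,
    show (fun x => ψ (J.filter fun j => (T j).Sat x) * ∏ j, if (T j).Sat x then z j else 1) = fun x =>
      ψ ((trt (fun j => T (e j)) (J.map e.symm.toEmbedding) x).map e.toEmbedding) *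
        htv (fun j => T (e j)) (fun j => z (e j)) x from funext hkey]
  exact h1

theorem hbbb_conj {z : ℂ} : ‖1 - (starRingEnd ℂ) z‖ = ‖1 - z‖ := by
  rw [show (1 : ℂ) - (starRingEnd ℂ) z = (starRingEnd ℂ) (1 - z) by rw [map_sub, map_one],
    RCLike.norm_conj]

theorem hbbb_sum_H {M H : Finset (Finset (Fin n))} (hH : H ⊆ M) (f : Finset (Fin n) → ℝ) :
    ∑ m : {m // m ∈ M}, (if m.1 ∈ H then f m.1 else 0) = ∑ m ∈ H, f m := by
  rw [Finset.sum_coe_sort M fun m => if m ∈ H then f m else 0, ← sum_filter]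
  congr 1
  ext m
  rw [mem_filter]
  exact ⟨fun h => h.2, fun h => ⟨hH h, h⟩⟩

/-- Case 1. -/
theorem hbb_one (r : ℕ) (K V : ℝ) {ε : ℝ} (hε : 0 < ε) : ∃ C n₀ : ℕ, ∀ n ≥ n₀,
    ∀ (M H : Finset (Finset (Fin n))) (ψ : Finset (Finset (Fin n)) → ℂ) (ζ : Finset (Fin n) → ℂ),
      (∀ m ∈ M, m ≠ ∅) → Rd r M → H ⊆ M → Xp.lam H ≤ K → (∀ A, ‖ψ A‖ ≤ 1) →
      (∀ m ∈ M, ‖ζ m‖ = 1) → ∑ m ∈ M, gap ζ m * (1 / 2 : ℝ) ^ m.card ≤ V →
      ∀ {Ω : Type} [Fintype Ω] [Nonempty Ω] (Y : Ω → Cube n) (δ : ℝ), 0 ≤ δ → δ * (n : ℝ) ^ C ≤ 1 →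
        Bias δ Y → ‖(av fun ω => pt ψ H ζ M (Y ω)) - av (pt ψ H ζ M)‖ ≤ ε := by
  classical
  obtain ⟨C, n₀, hC⟩ := hbbb_gen r K (4 * V) hε
  refine ⟨C, n₀, ?_⟩
  intro n hn M H ψ ζ h0 hM hH hK hψ hζ hV Ω _ _ Y δ hδ hδn hY
  set T : {m // m ∈ M} → Term n := fun j => ⟨j.1, fun _ => true⟩ with hT
  set J : Finset {m // m ∈ M} := univ.filter fun j => j.1 ∈ H with hJ
  have hkey : ∀ x : Cube n, pt ψ H ζ M x =
      ψ ((J.filter fun j => (T j).Sat x).image fun j => j.1) *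
        ∏ j : {m // m ∈ M}, if (T j).Sat x then ζ j.1 else 1 := by
    intro x
    unfold pt
    congr 1
    · congr 1
      ext m
      unfold tru
      simp only [hJ, mem_image, mem_filter, mem_univ, true_and]
      constructor
      · rintro ⟨hm, hs⟩
        exact ⟨⟨m, hH hm⟩, ⟨hm, hs⟩, rfl⟩
      · rintro ⟨j, ⟨hj, hs⟩, rfl⟩
        exact ⟨hj, hs⟩
    · unfold pr
      rw [← Finset.prod_coe_sort M]
      rfl
  have h1 := hC n hn T (fun j => ζ j.1) J (fun A => ψ (A.image fun j => j.1))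
    (fun j => nonempty_iff_ne_empty.2 (h0 j.1 j.2))
    (by
      intro v
      refine le_trans (le_of_eq ?_) (hM v)
      rw [← card_map (Function.Embedding.subtype _)]
      congr 1
      ext m
      simp only [hT, mem_map, mem_filter, mem_univ, true_and, Function.Embedding.subtype_apply]
      constructor
      · rintro ⟨j, hj, rfl⟩
        exact ⟨j.2, hj⟩
      · rintro ⟨hm, hv⟩
        exact ⟨⟨m, hm⟩, hv, rfl⟩)
    (fun j => hζ _ j.2) (fun A => hψ _)
    (by
      rw [Finset.sum_coe_sort M fun m => (1 / 2 : ℝ) ^ m.card * ‖1 - ζ m‖ ^ 2]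
      calc ∑ m ∈ M, (1 / 2 : ℝ) ^ m.card * ‖1 - ζ m‖ ^ 2
          = 4 * ∑ m ∈ M, gap ζ m * (1 / 2 : ℝ) ^ m.card := by
            rw [mul_sum]
            exact sum_congr rfl fun m _ => by unfold gap; ring
        _ ≤ 4 * V := by linarith)
    (by
      rw [hJ, sum_filter]
      exact (hbbb_sum_H hH fun m => (1 / 2 : ℝ) ^ m.card).le.trans hK) Y δ hδ hδn hY
  rw [show (fun ω => pt ψ H ζ M (Y ω)) = fun ω =>
      ψ ((J.filter fun j => (T j).Sat (Y ω)).image fun j => j.1) *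
        ∏ j : {m // m ∈ M}, if (T j).Sat (Y ω) then ζ j.1 else 1 from funext fun ω => hkey _,
    show pt ψ H ζ M = fun x => ψ ((J.filter fun j => (T j).Sat x).image fun j => j.1) *
        ∏ j : {m // m ∈ M}, if (T j).Sat x then ζ j.1 else 1 from funext hkey]
  exact h1

theorem hbbb_mq (m η : Finset (Fin n)) (y v : Cube n) :
    Tr m (mq y η v) ↔ (⟨m, fun i => !(decide (i ∈ η) && v i)⟩ : Term n).Sat y := by
  unfold Tr Term.Sat mq
  refine forall_congr' fun i => forall_congr' fun _ => ?_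
  simp only
  cases y i <;> cases (decide (i ∈ η) && v i) <;> decide

theorem hbbb_disj {m η : Finset (Fin n)} (h : Disjoint m η) (y v : Cube n) :
    Tr m (mq y η v) ↔ Tr m y := by
  unfold Tr mq
  refine forall_congr' fun i => forall_congr' fun hi => ?_
  have : i ∉ η := disjoint_left.1 h hi
  simp [this]

/-- Case 2: the pairs; `s` is the shift from the other levels. -/
theorem hbb_two (r : ℕ) (K V : ℝ) {ε : ℝ} (hε : 0 < ε) : ∃ C n₀ : ℕ, ∀ n ≥ n₀,
    ∀ (M H : Finset (Finset (Fin n))) (ψ : Finset (Finset (Fin n)) → ℂ) (ζ : Finset (Fin n) → ℂ),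
      (∀ m ∈ M, m ≠ ∅) → Rd r M → H ⊆ M → Xp.lam H ≤ K → (∀ A, ‖ψ A‖ ≤ 1) →
      (∀ m ∈ M, ‖ζ m‖ = 1) → ∀ (η : Finset (Fin n)) (s v v' : Cube n), hw (gap ζ) M η ≤ V →
      ∀ {Ω : Type} [Fintype Ω] [Nonempty Ω] (Y : Ω → Cube n) (δ : ℝ), 0 ≤ δ → δ * (n : ℝ) ^ C ≤ 1 →
        Bias δ Y →
        ‖(av fun ω => pt ψ H ζ M (mq (xo (Y ω) s) η v) *
            (starRingEnd ℂ) (pt ψ H ζ M (mq (xo (Y ω) s) η v'))) -
          av fun y : Cube n => pt ψ H ζ M (mq y η v) *
            (starRingEnd ℂ) (pt ψ H ζ M (mq y η v'))‖ ≤ ε := by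
  classical
  obtain ⟨C, n₀, hC⟩ := hbbb_gen (2 * r) (2 * K) (8 * V) hε
  refine ⟨C, n₀, ?_⟩
  intro n hn M H ψ ζ h0 hM hH hK hψ hζ η s v v' hV Ω _ _ Y δ hδ hδn hY
  set T : {m // m ∈ M} × Bool → Term n := fun j =>
    ⟨j.1.1, fun i => !(decide (i ∈ η) && (if j.2 then v i else v' i))⟩ with hT
  set z : {m // m ∈ M} × Bool → ℂ := fun j => if Disjoint j.1.1 η then 1 else
    if j.2 then ζ j.1.1 else (starRingEnd ℂ) (ζ j.1.1) with hz
  set J : Finset ({m // m ∈ M} × Bool) := univ.filter fun j => j.1.1 ∈ H with hJ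
  set im : Bool → Finset ({m // m ∈ M} × Bool) → Finset (Finset (Fin n)) := fun b A =>
    (A.filter fun j => j.2 = b).image fun j => j.1.1 with him
  have e1 : ∀ (m : {m // m ∈ M}) (y : Cube n), (T (m, true)).Sat y ↔ Tr m.1 (mq y η v) := by
    intro m y
    rw [hT]
    simp only [if_true]
    exact (hbbb_mq m.1 η y v).symm
  have e2 : ∀ (m : {m // m ∈ M}) (y : Cube n), (T (m, false)).Sat y ↔ Tr m.1 (mq y η v') := by
    intro m y
    rw [hT]
    simp only [Bool.false_eq_true, if_false]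
    exact (hbbb_mq m.1 η y v').symm
  have htr : ∀ y : Cube n, tru H (mq y η v) = im true (J.filter fun j => (T j).Sat y) := by
    intro y
    ext m
    unfold tru
    simp only [him, hJ, mem_image, mem_filter, mem_univ, true_and]
    constructor
    · rintro ⟨hm, hs⟩
      exact ⟨(⟨m, hH hm⟩, true), ⟨⟨hm, (e1 ⟨m, hH hm⟩ y).2 hs⟩, rfl⟩, rfl⟩
    · rintro ⟨⟨j, b⟩, ⟨⟨hj, hs⟩, hb⟩, rfl⟩
      simp only at hb hj
      subst hb
      exact ⟨hj, (e1 j y).1 hs⟩
  have htr' : ∀ y : Cube n, tru H (mq y η v') = im false (J.filter fun j => (T j).Sat y) := by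
    intro y
    ext m
    unfold tru
    simp only [him, hJ, mem_image, mem_filter, mem_univ, true_and]
    constructor
    · rintro ⟨hm, hs⟩
      exact ⟨(⟨m, hH hm⟩, false), ⟨⟨hm, (e2 ⟨m, hH hm⟩ y).2 hs⟩, rfl⟩, rfl⟩
    · rintro ⟨⟨j, b⟩, ⟨⟨hj, hs⟩, hb⟩, rfl⟩
      simp only at hb hj
      subst hb
      exact ⟨hj, (e2 j y).1 hs⟩
  have hpr : ∀ y : Cube n, pr ζ M (mq y η v) * (starRingEnd ℂ) (pr ζ M (mq y η v')) =
      ∏ j, if (T j).Sat y then z j else 1 := by
    intro y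
    have h1 : pr ζ M (mq y η v) * (starRingEnd ℂ) (pr ζ M (mq y η v')) =
        ∏ m ∈ M, ((if Tr m (mq y η v) then ζ m else 1) *
          (if Tr m (mq y η v') then (starRingEnd ℂ) (ζ m) else 1)) := by
      unfold pr
      rw [map_prod, ← prod_mul_distrib]
      refine prod_congr rfl fun m _ => ?_
      congr 1
      split_ifs
      · rfl
      · exact map_one _
    rw [h1, ← Finset.prod_coe_sort M, Fintype.prod_prod_type]
    refine prod_congr rfl fun m _ => ?_
    rw [Fintype.prod_bool]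
    simp only [e1, e2, hz, if_true, Bool.false_eq_true, if_false]
    by_cases hd : Disjoint m.1 η
    · simp only [hbbb_disj hd, if_pos hd]
      split_ifs
      · rw [Complex.mul_conj, Complex.normSq_eq_norm_sq, hζ m.1 m.2]
        simp
      · simp
    · simp only [if_neg hd]
  have hkey : ∀ y : Cube n, pt ψ H ζ M (mq y η v) * (starRingEnd ℂ) (pt ψ H ζ M (mq y η v')) =
      (ψ (im true (J.filter fun j => (T j).Sat y)) *
        (starRingEnd ℂ) (ψ (im false (J.filter fun j => (T j).Sat y)))) *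
        ∏ j, if (T j).Sat y then z j else 1 := by
    intro y
    unfold pt
    rw [← htr y, ← htr' y, ← hpr y, map_mul]
    ring
  have hread : ∀ u, (univ.filter fun j => u ∈ (T j).S).card ≤ 2 * r := by
    intro u
    have h1 : (univ.filter fun j => u ∈ (T j).S).card ≤
        ((M.filter fun m => u ∈ m) ×ˢ (univ : Finset Bool)).card := by
      refine card_le_card_of_injOn (fun j => (j.1.1, j.2)) ?_ ?_
      · intro j hj
        have hj' := (mem_filter.1 (mem_coe.1 hj)).2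
        rw [mem_coe, mem_product, mem_filter]
        exact ⟨⟨j.1.2, hj'⟩, mem_univ _⟩
      · rintro ⟨j, b⟩ _ ⟨j', b'⟩ _ h
        simp only [Prod.mk.injEq] at h
        exact Prod.ext (Subtype.ext h.1) h.2
    refine h1.trans ?_
    rw [card_product, card_univ, Fintype.card_bool]
    have := hM u
    omega
  have hzn : ∀ j, ‖z j‖ = 1 := by
    intro j
    have h1 := hζ j.1.1 j.1.2
    rw [hz]
    simp only
    split_ifs
    · exact norm_one
    · exact h1
    · rw [RCLike.norm_conj]; exact h1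
  have hmass : ∑ j, (1 / 2 : ℝ) ^ (T j).S.card * ‖1 - z j‖ ^ 2 ≤ 8 * V := by
    rw [Fintype.sum_prod_type]
    have h1 : ∀ m : {m // m ∈ M}, ∑ b : Bool, (1 / 2 : ℝ) ^ (T (m, b)).S.card * ‖1 - z (m, b)‖ ^ 2 =
        8 * (gap ζ m.1 * ((1 / 2 : ℝ) ^ m.1.card * one (¬ Disjoint m.1 η))) := by
      intro m
      rw [Fintype.sum_bool]
      simp only [hz, hT, if_true, Bool.false_eq_true, if_false]
      by_cases hd : Disjoint m.1 η
      · rw [if_pos hd, if_pos hd, Dnf.one_false (not_not.2 hd)]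
        simp
      · rw [if_neg hd, if_neg hd, Dnf.one_true hd, hbbb_conj]
        unfold gap
        ring
    rw [sum_congr rfl fun m _ => h1 m, ← mul_sum]
    refine mul_le_mul_of_nonneg_left (le_trans (le_of_eq ?_) hV) (by norm_num)
    unfold hw
    exact Finset.sum_coe_sort M fun m => gap ζ m * ((1 / 2 : ℝ) ^ m.card * one (¬ Disjoint m η))
  have hmassJ : ∑ j ∈ J, (1 / 2 : ℝ) ^ (T j).S.card ≤ 2 * K := by
    rw [hJ, sum_filter, Fintype.sum_prod_type]
    have h1 : ∀ m : {m // m ∈ M}, (∑ b : Bool, if (m, b).1.1 ∈ H then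
        (1 / 2 : ℝ) ^ (T (m, b)).S.card else 0) =
        2 * (if m.1 ∈ H then (1 / 2 : ℝ) ^ m.1.card else 0) := by
      intro m
      rw [Fintype.sum_bool]
      simp only [hT]
      split_ifs <;> ring
    rw [sum_congr rfl fun m _ => h1 m, ← mul_sum, hbbb_sum_H hH fun m => (1 / 2 : ℝ) ^ m.card]
    exact mul_le_mul_of_nonneg_left hK (by norm_num)
  have h1 := hC n hn T z J (fun A => ψ (im true A) * (starRingEnd ℂ) (ψ (im false A)))
    (fun j => nonempty_iff_ne_empty.2 (h0 j.1.1 j.1.2)) hread hzn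
    (fun A => by
      rw [norm_mul, RCLike.norm_conj]
      exact mul_le_one₀ (hψ _) (norm_nonneg _) (hψ _))
    hmass hmassJ (fun ω => xo (Y ω) s) δ hδ hδn (hY.xo s)
  rw [show (fun ω => pt ψ H ζ M (mq (xo (Y ω) s) η v) *
      (starRingEnd ℂ) (pt ψ H ζ M (mq (xo (Y ω) s) η v'))) = fun ω =>
      (ψ (im true (J.filter fun j => (T j).Sat (xo (Y ω) s))) *
        (starRingEnd ℂ) (ψ (im false (J.filter fun j => (T j).Sat (xo (Y ω) s))))) *
        ∏ j, if (T j).Sat (xo (Y ω) s) then z j else 1 from funext fun ω => hkey _,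
    show (fun y : Cube n => pt ψ H ζ M (mq y η v) * (starRingEnd ℂ) (pt ψ H ζ M (mq y η v'))) =
      fun y => (ψ (im true (J.filter fun j => (T j).Sat y)) *
        (starRingEnd ℂ) (ψ (im false (J.filter fun j => (T j).Sat y)))) *
        ∏ j, if (T j).Sat y then z j else 1 from funext hkey]
  exact h1

end Pool.Agent.MP_ca1109_lc.Xh
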