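import Pool.Agent.MP_ca1109_lc.Xh.Defs
import Pool.Agent.MP_ca1109_lc.Xp.SPb
import Pool.Agent.MP_ca1109_lc.Yt.YA

/-!
# Concentration of the light part, from the phases
-/

namespace Pool.Agent.MP_ca1109_lc.Xh

open Finset Pool.Agent.MP_ca1109_lc.Mpg Pool.Agent.MP_ca1109_lc.Agp
open Pool.Agent.MP_ca1109_lc.Xp Pool.Agent.MP_ca1109_lc.Xg
open Pool.Agent.MP_ca1109_lc.Dnf (Cube ch one E mix)

variable {n : ℕ}

/-- The product of the phases. -/
theorem cn_pr (M : Finset (Finset (Fin n))) (u : Finset (Fin n) → ℝ) (t : ℝ) (x : Cube n) :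
    pr (eu t u) M x = Complex.exp (Complex.I * ((t * rst M u x : ℝ) : ℂ)) := by
  classical
  unfold pr eu rst
  rw [Finset.mul_sum, Complex.ofReal_sum, Finset.mul_sum, Complex.exp_sum]
  refine Finset.prod_congr rfl fun m _ => ?_
  by_cases h : Tr m x
  · rw [if_pos h, show mon m x = 1 from Dnf.one_true h]
    push_cast
    ring_nf
  · rw [if_neg h, show mon m x = 0 from Dnf.one_false h]
    simp

/-- The Fejér kernel. -/
noncomputable def cnK (L : ℕ) (θ : ℝ) : ℝ :=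
  ‖(∑ l ∈ range L, Complex.exp (Complex.I * ((l * θ : ℝ) : ℂ))) / L‖ ^ 2

theorem cn_sq (L : ℕ) (θ : ℝ) : ((cnK L θ : ℝ) : ℂ) =
    (∑ l ∈ range L, ∑ l' ∈ range L, Complex.exp (Complex.I * ((((l : ℝ) - l') * θ : ℝ) : ℂ))) /
      (L : ℂ) ^ 2 := by
  unfold cnK
  push_cast
  rw [← Complex.mul_conj', map_div₀, map_sum, map_natCast, div_mul_div_comm, Finset.sum_mul_sum,
    ← sq]
  congr 1
  refine Finset.sum_congr rfl fun l _ => Finset.sum_congr rfl fun l' _ => ?_
  rw [← Complex.exp_conj, ← Complex.exp_add]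
  congr 1
  simp only [map_mul, Complex.conj_I, Complex.conj_ofReal, map_natCast]
  ring

theorem cn_re (L : ℕ) (θ : ℝ) : cnK L θ =
    (∑ l ∈ range L, ∑ l' ∈ range L, Real.cos (((l : ℝ) - l') * θ)) / (L : ℝ) ^ 2 := by
  have h := congrArg Complex.re (cn_sq L θ)
  rw [Complex.ofReal_re] at h
  have h2 : ((L : ℂ) ^ 2) = (((L : ℝ) ^ 2 : ℝ) : ℂ) := by push_cast; rfl
  rw [h, h2, Complex.div_ofReal_re, Complex.re_sum]
  congr 1
  refine Finset.sum_congr rfl fun l _ => ?_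
  rw [Complex.re_sum]
  refine Finset.sum_congr rfl fun l' _ => ?_
  rw [mul_comm Complex.I, Complex.exp_ofReal_mul_I_re]

/-- The kernel is close to one near zero. -/
theorem cn_near {L : ℕ} (hL : 0 < L) (θ : ℝ) : 1 - cnK L θ ≤ (L * θ) ^ 2 / 2 := by
  have hL' : (0 : ℝ) < L := by exact_mod_cast hL
  rw [cn_re, sub_le_iff_le_add, ← sub_le_iff_le_add', le_div_iff₀ (by positivity)]
  have h1 : ∀ l ∈ range L, ∀ l' ∈ range L, 1 - (L * θ) ^ 2 / 2 ≤ Real.cos (((l : ℝ) - l') * θ) := by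
    intro l hl l' hl'
    have h2 := Real.one_sub_sq_div_two_le_cos (x := ((l : ℝ) - l') * θ)
    have hl1 : (l : ℝ) ≤ L := by exact_mod_cast (Finset.mem_range.1 hl).le
    have hl2 : (l' : ℝ) ≤ L := by exact_mod_cast (Finset.mem_range.1 hl').le
    have hl3 : (0 : ℝ) ≤ l := Nat.cast_nonneg _
    have hl4 : (0 : ℝ) ≤ l' := Nat.cast_nonneg _
    have h3 : ((l : ℝ) - l') ^ 2 ≤ (L : ℝ) ^ 2 := by
      rw [sq_le_sq, abs_of_pos hL', abs_le]
      constructor <;> linarith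
    have h4 : (((l : ℝ) - l') * θ) ^ 2 ≤ (L * θ) ^ 2 := by
      rw [mul_pow, mul_pow]
      exact mul_le_mul_of_nonneg_right h3 (sq_nonneg θ)
    linarith
  have h5 : ∑ l ∈ range L, ∑ l' ∈ range L, (1 - (L * θ) ^ 2 / 2) ≤
      ∑ l ∈ range L, ∑ l' ∈ range L, Real.cos (((l : ℝ) - l') * θ) :=
    Finset.sum_le_sum fun l hl => Finset.sum_le_sum fun l' hl' => h1 l hl l' hl'
  refine le_trans (le_of_eq ?_) h5
  simp only [Finset.sum_const, Finset.card_range, nsmul_eq_mul]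
  ring

/-- The kernel is small away from zero. -/
theorem cn_far {L : ℕ} {θ : ℝ} (hθ : |θ| ≤ 1) (hL : 6 ≤ L * |θ|) : cnK L θ ≤ 1 / 2 := by
  have hpi := Real.pi_gt_three
  have hpi4 := Real.pi_lt_d2
  have hθ0 : 0 < |θ| := by
    by_contra h
    have : |θ| = 0 := le_antisymm (not_lt.1 h) (abs_nonneg _)
    rw [this, mul_zero] at hL
    linarith
  have hL' : (0 : ℝ) < L := by
    by_contra h
    have h1 : (L : ℝ) = 0 := le_antisymm (not_lt.1 h) (Nat.cast_nonneg _)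
    rw [h1, zero_mul] at hL
    linarith
  set z := Complex.exp (Complex.I * (θ : ℂ)) with hz
  have hnz : ‖z‖ = 1 := by
    rw [hz, mul_comm]
    exact Complex.norm_exp_ofReal_mul_I θ
  have h1 : 2 / Real.pi * |θ| ≤ ‖z - 1‖ := by
    have h2 : ‖z - 1‖ = ‖2 * Real.sin (θ / 2)‖ := Complex.norm_exp_I_mul_ofReal_sub_one θ
    rw [h2, norm_mul, Real.norm_eq_abs, Real.norm_eq_abs, abs_of_pos (by norm_num : (0 : ℝ) < 2)]
    have h3 : |Real.sin (θ / 2)| = Real.sin (|θ| / 2) := by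
      rcases abs_cases θ with ⟨h, h'⟩ | ⟨h, h'⟩
      · rw [h, abs_of_nonneg]
        exact Real.sin_nonneg_of_nonneg_of_le_pi (by linarith) (by rw [h] at hθ; linarith)
      · rw [h, neg_div, Real.sin_neg, abs_of_nonpos]
        exact Real.sin_nonpos_of_nonpos_of_neg_pi_le (by linarith) (by rw [h] at hθ; linarith)
    rw [h3]
    have h4 := Real.mul_le_sin (x := |θ| / 2) (by positivity) (by linarith)
    have h5 : 2 / Real.pi * (|θ| / 2) = 2 / Real.pi * |θ| / 2 := by ring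
    rw [h5] at h4
    linarith
  have hz1 : z - 1 ≠ 0 := by
    intro h
    rw [h, norm_zero] at h1
    have : 0 < 2 / Real.pi * |θ| := by positivity
    linarith
  have h2 : ∑ l ∈ range L, Complex.exp (Complex.I * ((l * θ : ℝ) : ℂ)) = (z ^ L - 1) / (z - 1) := by
    rw [← geom_sum_eq (sub_ne_zero.1 hz1)]
    refine Finset.sum_congr rfl fun l _ => ?_
    rw [hz, ← Complex.exp_nat_mul]
    congr 1
    push_cast
    ring
  have h3 : ‖(∑ l ∈ range L, Complex.exp (Complex.I * ((l * θ : ℝ) : ℂ))) / L‖ ≤ 3 / 5 := by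
    rw [h2, norm_div, norm_div, Complex.norm_natCast, div_div]
    have h4 : ‖z ^ L - 1‖ ≤ 2 := by
      calc ‖z ^ L - 1‖ ≤ ‖z ^ L‖ + ‖(1 : ℂ)‖ := norm_sub_le _ _
        _ = 2 := by rw [norm_pow, hnz, one_pow, norm_one]; norm_num
    have h5 : 12 / Real.pi ≤ ‖z - 1‖ * L := by
      calc 12 / Real.pi = 2 / Real.pi * 6 := by ring
        _ ≤ 2 / Real.pi * (L * |θ|) := mul_le_mul_of_nonneg_left hL (by positivity)
        _ = 2 / Real.pi * |θ| * L := by ring
        _ ≤ ‖z - 1‖ * L := mul_le_mul_of_nonneg_right h1 hL'.le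
    have h6 : 10 / 3 ≤ ‖z - 1‖ * L := by
      refine le_trans ?_ h5
      rw [le_div_iff₀ (by positivity)]
      linarith
    rw [div_le_iff₀ (by linarith)]
    linarith
  unfold cnK
  calc ‖(∑ l ∈ range L, Complex.exp (Complex.I * ((l * θ : ℝ) : ℂ))) / L‖ ^ 2 ≤ (3 / 5 : ℝ) ^ 2 :=
        pow_le_pow_left₀ (norm_nonneg _) h3 2
    _ ≤ 1 / 2 := by norm_num

/-- The average of the kernel. -/
theorem cn_avg {Ω : Type} [Fintype Ω] [Nonempty Ω] (Y : Ω → Cube n) (M : Finset (Finset (Fin n)))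
    (u : Finset (Fin n) → ℝ) {ε₀ : ℝ} {L : ℕ} (hL : 0 < L) {τ : ℝ} (hτ : 0 ≤ τ) (a : ℝ)
    (h : ∀ t : ℝ, |t| ≤ L * τ → ‖(av fun ω => pr (eu t u) M (Y ω)) - av (pr (eu t u) M)‖ ≤ ε₀) :
    (avg fun x : Cube n => cnK L (τ * (rst M u x - a))) - ε₀ ≤
      avg fun ω => cnK L (τ * (rst M u (Y ω) - a)) := by
  have hL' : (0 : ℝ) < L := by exact_mod_cast hL
  have key : ∀ {A : Type} [Fintype A] (Z : A → Cube n),
      (((avg fun ω => cnK L (τ * (rst M u (Z ω) - a))) : ℝ) : ℂ) =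
        (∑ l ∈ range L, ∑ l' ∈ range L,
          Complex.exp (-(Complex.I * ((((l : ℝ) - l') * τ * a : ℝ) : ℂ))) *
            av fun ω => pr (eu (((l : ℝ) - l') * τ) u) M (Z ω)) / (L : ℂ) ^ 2 := by
    intro A _ Z
    rw [← spb_avg_ofReal]
    have h1 : (fun ω => ((cnK L (τ * (rst M u (Z ω) - a)) : ℝ) : ℂ)) = fun ω =>
        (1 / (L : ℂ) ^ 2) * ∑ l ∈ range L, ∑ l' ∈ range L,
          Complex.exp (-(Complex.I * ((((l : ℝ) - l') * τ * a : ℝ) : ℂ))) *
            pr (eu (((l : ℝ) - l') * τ) u) M (Z ω) := by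
      funext ω
      rw [cn_sq, one_div, div_eq_inv_mul]
      congr 1
      refine Finset.sum_congr rfl fun l _ => Finset.sum_congr rfl fun l' _ => ?_
      rw [cn_pr, ← Complex.exp_add]
      congr 1
      push_cast
      ring
    rw [h1, spb_av_mul, spb_av_sum]
    rw [one_div, div_eq_inv_mul]
    congr 1
    refine Finset.sum_congr rfl fun l _ => ?_
    rw [spb_av_sum]
    refine Finset.sum_congr rfl fun l' _ => ?_
    rw [spb_av_mul]
  have h1 := key Y
  have h2 := key (fun x : Cube n => x)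
  have hll : ∀ l ∈ range L, ∀ l' ∈ range L, |((l : ℝ) - l') * τ| ≤ L * τ := by
    intro l hl l' hl'
    rw [abs_mul, abs_of_nonneg hτ]
    refine mul_le_mul_of_nonneg_right ?_ hτ
    have hl1 : (l : ℝ) ≤ L := by exact_mod_cast (Finset.mem_range.1 hl).le
    have hl2 : (l' : ℝ) ≤ L := by exact_mod_cast (Finset.mem_range.1 hl').le
    have hl3 : (0 : ℝ) ≤ l := Nat.cast_nonneg _
    have hl4 : (0 : ℝ) ≤ l' := Nat.cast_nonneg _
    rw [abs_le]
    constructor <;> linarith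
  have h3 : ‖((((avg fun ω => cnK L (τ * (rst M u (Y ω) - a))) : ℝ) : ℂ) -
      (((avg fun x : Cube n => cnK L (τ * (rst M u x - a))) : ℝ) : ℂ))‖ ≤ ε₀ := by
    rw [h1, h2, ← sub_div, norm_div, norm_pow, Complex.norm_natCast, div_le_iff₀ (by positivity),
      ← Finset.sum_sub_distrib]
    refine (norm_sum_le _ _).trans ?_
    have h4 : ∀ l ∈ range L, ‖(∑ l' ∈ range L,
          Complex.exp (-(Complex.I * ((((l : ℝ) - l') * τ * a : ℝ) : ℂ))) *
            av fun ω => pr (eu (((l : ℝ) - l') * τ) u) M (Y ω)) -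
        ∑ l' ∈ range L,
          Complex.exp (-(Complex.I * ((((l : ℝ) - l') * τ * a : ℝ) : ℂ))) *
            av fun x : Cube n => pr (eu (((l : ℝ) - l') * τ) u) M x‖ ≤ L * ε₀ := by
      intro l hl
      rw [← Finset.sum_sub_distrib]
      refine (norm_sum_le _ _).trans ?_
      calc ∑ l' ∈ range L, ‖Complex.exp (-(Complex.I * ((((l : ℝ) - l') * τ * a : ℝ) : ℂ))) *
            (av fun ω => pr (eu (((l : ℝ) - l') * τ) u) M (Y ω)) -
            Complex.exp (-(Complex.I * ((((l : ℝ) - l') * τ * a : ℝ) : ℂ))) *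
            av fun x : Cube n => pr (eu (((l : ℝ) - l') * τ) u) M x‖
          ≤ ∑ _l' ∈ range L, ε₀ := by
            refine Finset.sum_le_sum fun l' hl' => ?_
            rw [← mul_sub, norm_mul]
            have h5 : ‖Complex.exp (-(Complex.I * ((((l : ℝ) - l') * τ * a : ℝ) : ℂ)))‖ = 1 := by
              have : -(Complex.I * ((((l : ℝ) - l') * τ * a : ℝ) : ℂ)) =
                  ((-(((l : ℝ) - l') * τ * a) : ℝ) : ℂ) * Complex.I := by
                push_cast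
                ring
              rw [this]
              exact Complex.norm_exp_ofReal_mul_I _
            rw [h5, one_mul]
            exact h _ (hll l hl l' hl')
        _ = L * ε₀ := by rw [Finset.sum_const, Finset.card_range, nsmul_eq_mul]
    calc ∑ l ∈ range L, _ ≤ ∑ _l ∈ range L, (L : ℝ) * ε₀ := Finset.sum_le_sum h4
      _ = ε₀ * (L : ℝ) ^ 2 := by
          rw [Finset.sum_const, Finset.card_range, nsmul_eq_mul]
          ring
  rw [← Complex.ofReal_sub, Complex.norm_real, Real.norm_eq_abs] at h3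
  have := (abs_le.1 h3).1
  linarith

/-- The second moment of the light part. -/
theorem cn_var {r : ℕ} {K : ℝ} {M : Finset (Finset (Fin n))} {u : Finset (Fin n) → ℝ} {D : ℝ}
    (hM : Rd r M) (hD : 0 < D) (hv : vd M u D ≤ K) (hu : ∀ m ∈ M, |u m| ≤ D) :
    (avg fun x : Cube n => (rst M u x - avg (rst M u)) ^ 2) ≤
      4 * ((r : ℝ) + 1) ^ 2 * Real.exp K * D ^ 2 := by
  have hM' : Rd (r + 1) M := fun i => (hM i).trans (Nat.le_succ r)
  have hr0 : (0 : ℝ) < (r : ℝ) + 1 := by positivity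
  have hE : avg (rst M u) = ∑ m ∈ M, u m * (1 / 2) ^ m.card := by
    rw [spb_avg_E]
    have : rst M u = fun x : Cube n => ∑ m ∈ M, u m * mon m x := rfl
    rw [this, Dnf.E_sum]
    refine Finset.sum_congr rfl fun m _ => ?_
    rw [Dnf.E_smul]
    congr 1
    exact Yt.E_mon m
  have hX : ∀ x : Cube n, rst M u x - avg (rst M u) =
      ∑ m ∈ M, u m * (mon m x - (1 / 2) ^ m.card) := by
    intro x
    rw [hE]
    unfold rst
    rw [← Finset.sum_sub_distrib]
    exact Finset.sum_congr rfl fun m _ => by ring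
  have ht0 : 0 < 1 / (((r + 1 : ℕ) : ℝ) * D) := by positivity
  have ht : 1 / (((r + 1 : ℕ) : ℝ) * D) * (((r + 1 : ℕ) : ℝ) * D) ≤ 1 := by
    rw [one_div, inv_mul_cancel₀ (by positivity)]
  have h := Yt.moment (Nat.succ_pos r) hM' hu ht0 ht 2
  have h1 : (avg fun x : Cube n => (rst M u x - avg (rst M u)) ^ 2) =
      E fun x => |∑ m ∈ M, u m * (mon m x - (1 / 2) ^ m.card)| ^ 2 := by
    rw [spb_avg_E]
    congr 1
    funext x
    rw [hX, sq_abs]
  rw [h1]
  refine h.trans ?_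
  have hvd : ∑ m ∈ M, u m ^ 2 * (1 / 2 : ℝ) ^ m.card ≤ K * D ^ 2 := by
    have h2 : ∑ m ∈ M, u m ^ 2 * (1 / 2 : ℝ) ^ m.card = vd M u D * D ^ 2 := by
      unfold vd
      rw [Finset.sum_mul]
      refine Finset.sum_congr rfl fun m hm => ?_
      have h3 : (u m / D) ^ 2 ≤ 1 := by
        rw [div_pow, div_le_one (by positivity), ← sq_abs (u m)]
        exact pow_le_pow_left₀ (abs_nonneg _) (hu m hm) 2
      rw [min_eq_right h3]
      field_simp
    rw [h2]
    exact mul_le_mul_of_nonneg_right hv (by positivity)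
  have hV0 : 0 ≤ ∑ m ∈ M, u m ^ 2 * (1 / 2 : ℝ) ^ m.card :=
    Finset.sum_nonneg fun m _ => by positivity
  have h4 : Real.exp (((r + 1 : ℕ) : ℝ) * (1 / (((r + 1 : ℕ) : ℝ) * D)) ^ 2 *
      ∑ m ∈ M, u m ^ 2 * (1 / 2 : ℝ) ^ m.card) ≤ Real.exp K := by
    refine Real.exp_le_exp.2 ?_
    push_cast
    have h5 : ((r : ℝ) + 1) * (1 / (((r : ℝ) + 1) * D)) ^ 2 = 1 / (((r : ℝ) + 1) * D ^ 2) := by
      field_simp
    rw [h5, div_mul_eq_mul_div, one_mul, div_le_iff₀ (by positivity)]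
    have hK : 0 ≤ K * D ^ 2 := hV0.trans hvd
    have hr1 : (0 : ℝ) ≤ r := Nat.cast_nonneg _
    calc ∑ m ∈ M, u m ^ 2 * (1 / 2 : ℝ) ^ m.card ≤ K * D ^ 2 := hvd
      _ ≤ K * D ^ 2 + r * (K * D ^ 2) := by
          have := mul_nonneg hr1 hK
          linarith
      _ = K * (((r : ℝ) + 1) * D ^ 2) := by ring
  calc 2 * ((2 : ℕ).factorial : ℝ) / (1 / (((r + 1 : ℕ) : ℝ) * D)) ^ 2 *
        Real.exp (((r + 1 : ℕ) : ℝ) * (1 / (((r + 1 : ℕ) : ℝ) * D)) ^ 2 *
          ∑ m ∈ M, u m ^ 2 * (1 / 2 : ℝ) ^ m.card)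
      ≤ 2 * ((2 : ℕ).factorial : ℝ) / (1 / (((r + 1 : ℕ) : ℝ) * D)) ^ 2 * Real.exp K :=
        mul_le_mul_of_nonneg_left h4 (by positivity)
    _ = 4 * ((r : ℝ) + 1) ^ 2 * Real.exp K * D ^ 2 := by
        rw [Nat.factorial_two]
        push_cast
        field_simp
        ring

/-- Concentration of the light part, from the phases `|t| ≤ 1 / D`. -/
theorem conc' (r : ℕ) (K : ℝ) {ε : ℝ} (hε : 0 < ε) : ∃ R : ℝ, 0 < R ∧ ∀ (n : ℕ)
    (M : Finset (Finset (Fin n))) (u : Finset (Fin n) → ℝ) (D : ℝ), Rd r M → (∀ m ∈ M, m ≠ ∅) →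
      0 < D → vd M u D ≤ K → (∀ m ∈ M, |u m| ≤ D) →
      ∀ {Ω : Type} [Fintype Ω] [Nonempty Ω] (Y : Ω → Cube n) (ε₀ : ℝ),
        (∀ t : ℝ, |t| * D ≤ 1 → ‖(av fun ω => pr (eu t u) M (Y ω)) - av (pr (eu t u) M)‖ ≤ ε₀) →
        (avg fun ω => one (R * D ≤ |rst M u (Y ω) - avg (rst M u)|)) ≤ ε + 4 * ε₀ := by
  set B : ℝ := 196 * ((r : ℝ) + 1) ^ 2 * Real.exp K with hB
  have hB0 : 0 < B := by positivity
  refine ⟨Real.sqrt (B / ε) + 7, by positivity, ?_⟩
  set R : ℝ := Real.sqrt (B / ε) + 7 with hR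
  have hR0 : 0 < R := by positivity
  have hR7 : 7 ≤ R := by
    have := Real.sqrt_nonneg (B / ε)
    linarith
  have hR2 : B / ε ≤ R ^ 2 := by
    calc B / ε = Real.sqrt (B / ε) ^ 2 := (Real.sq_sqrt (by positivity)).symm
      _ ≤ R ^ 2 := pow_le_pow_left₀ (Real.sqrt_nonneg _) (by rw [hR]; linarith) 2
  intro n M u D hM _ hD hv hu Ω _ _ Y ε₀ h
  have hε₀ : 0 ≤ ε₀ := (norm_nonneg _).trans (h 0 (by rw [abs_zero, zero_mul]; exact zero_le_one))
  set a : ℝ := avg (rst M u) with ha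
  -- a bound for the statistic
  have haE : a = ∑ m ∈ M, u m * (1 / 2) ^ m.card := by
    rw [ha, spb_avg_E]
    have : rst M u = fun x : Cube n => ∑ m ∈ M, u m * mon m x := rfl
    rw [this, Dnf.E_sum]
    refine Finset.sum_congr rfl fun m _ => ?_
    rw [Dnf.E_smul]
    congr 1
    exact Yt.E_mon m
  have hbd : ∀ x : Cube n, |rst M u x - a| ≤ D * M.card := by
    intro x
    rw [haE]
    unfold rst
    rw [← Finset.sum_sub_distrib]
    calc |∑ m ∈ M, (u m * mon m x - u m * (1 / 2) ^ m.card)|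
        ≤ ∑ m ∈ M, |u m * mon m x - u m * (1 / 2) ^ m.card| := Finset.abs_sum_le_sum_abs _ _
      _ ≤ ∑ _m ∈ M, D := by
          refine Finset.sum_le_sum fun m hm => ?_
          rw [← mul_sub, abs_mul]
          have h1 : |mon m x - (1 / 2 : ℝ) ^ m.card| ≤ 1 := by
            have hp0 : (0 : ℝ) ≤ (1 / 2 : ℝ) ^ m.card := by positivity
            have hp1 : (1 / 2 : ℝ) ^ m.card ≤ 1 := pow_le_one₀ (by norm_num) (by norm_num)
            rcases Yt.mon_eq m x with h | h <;> rw [h, abs_le] <;> constructor <;> linarith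
          calc |u m| * |mon m x - (1 / 2 : ℝ) ^ m.card| ≤ D * 1 :=
                mul_le_mul (hu m hm) h1 (abs_nonneg _) hD.le
            _ = D := mul_one D
      _ = D * M.card := by rw [Finset.sum_const, nsmul_eq_mul, mul_comm]
  set τ : ℝ := 1 / (D * (M.card + R)) with hτ
  have hMR : 0 < (M.card : ℝ) + R := by positivity
  have hτ0 : 0 < τ := by positivity
  have hτx : ∀ x : Cube n, |τ * (rst M u x - a)| ≤ 1 := by
    intro x
    rw [abs_mul, abs_of_pos hτ0, hτ, div_mul_eq_mul_div, one_mul, div_le_one (by positivity)]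
    refine (hbd x).trans (mul_le_mul_of_nonneg_left ?_ hD.le)
    linarith
  have hτR : τ * (R * D) ≤ 1 := by
    rw [hτ, div_mul_eq_mul_div, one_mul, div_le_one (by positivity)]
    nlinarith [Nat.cast_nonneg (α := ℝ) M.card]
  have hτR0 : 0 < τ * (R * D) := by positivity
  set L : ℕ := ⌈6 / (τ * (R * D))⌉₊ with hL
  have hL1 : 6 ≤ L * (τ * (R * D)) := by
    have := Nat.le_ceil (6 / (τ * (R * D)))
    rwa [div_le_iff₀ hτR0] at this
  have hL2 : L * (τ * (R * D)) ≤ 7 := by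
    have h1 := Nat.ceil_lt_add_one (a := 6 / (τ * (R * D))) (by positivity)
    have h2 : (L : ℝ) * (τ * (R * D)) ≤ (6 / (τ * (R * D)) + 1) * (τ * (R * D)) :=
      mul_le_mul_of_nonneg_right h1.le hτR0.le
    have h3 : (6 / (τ * (R * D)) + 1) * (τ * (R * D)) = 6 + τ * (R * D) := by
      field_simp
    linarith
  have hLpos : 0 < L := by
    rw [hL]
    exact Nat.ceil_pos.2 (by positivity)
  -- pointwise
  have h1 : ∀ ω, one (R * D ≤ |rst M u (Y ω) - a|) ≤
      2 * (1 - cnK L (τ * (rst M u (Y ω) - a))) := by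
    intro ω
    by_cases hx : R * D ≤ |rst M u (Y ω) - a|
    · rw [Dnf.one_true hx]
      have h2 := cn_far (L := L) (hτx (Y ω)) (by
        rw [abs_mul, abs_of_pos hτ0]
        refine hL1.trans ?_
        have : τ * (R * D) ≤ τ * |rst M u (Y ω) - a| := mul_le_mul_of_nonneg_left hx hτ0.le
        exact mul_le_mul_of_nonneg_left this (Nat.cast_nonneg _))
      linarith
    · rw [Dnf.one_false hx]
      have h2 : cnK L (τ * (rst M u (Y ω) - a)) ≤ 1 := by
        unfold cnK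
        have hLp : (0 : ℝ) < L := by exact_mod_cast hLpos
        refine pow_le_one₀ (norm_nonneg _) ?_
        rw [norm_div, Complex.norm_natCast, div_le_one hLp]
        refine (norm_sum_le _ _).trans ?_
        have h3 : ∀ l ∈ range L,
            ‖Complex.exp (Complex.I * ((l * (τ * (rst M u (Y ω) - a)) : ℝ) : ℂ))‖ = 1 := by
          intro l _
          rw [mul_comm]
          exact Complex.norm_exp_ofReal_mul_I _
        rw [Finset.sum_congr rfl h3, Finset.sum_const, Finset.card_range, nsmul_eq_mul, mul_one]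
      linarith
  have h2 : (avg fun ω => one (R * D ≤ |rst M u (Y ω) - a|)) ≤
      avg fun ω => 2 * (1 - cnK L (τ * (rst M u (Y ω) - a))) := by
    unfold avg
    exact div_le_div_of_nonneg_right (Finset.sum_le_sum fun ω _ => h1 ω) (Nat.cast_nonneg _)
  have hav : ∀ {A : Type} [Fintype A] [Nonempty A] (f : A → ℝ),
      (avg fun ω => 2 * (1 - f ω)) = 2 * (1 - avg f) := by
    intro A _ _ f
    unfold avg
    have hc : (0 : ℝ) < Fintype.card A := by exact_mod_cast Fintype.card_pos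
    rw [← Finset.mul_sum, Finset.sum_sub_distrib, Finset.sum_const, Finset.card_univ,
      nsmul_eq_mul, mul_one]
    field_simp
  rw [hav] at h2
  have hLτ : (L : ℝ) * τ * D ≤ 1 := by
    have h3 : (L : ℝ) * τ * D * R ≤ 7 := by
      calc (L : ℝ) * τ * D * R = L * (τ * (R * D)) := by ring
        _ ≤ 7 := hL2
    by_contra hc
    have h4 := not_le.1 hc
    have h5 : 1 * R < (L : ℝ) * τ * D * R := mul_lt_mul_of_pos_right h4 hR0
    linarith
  have h3 := cn_avg Y M u hLpos hτ0.le a fun t ht => h t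
    ((mul_le_mul_of_nonneg_right ht hD.le).trans hLτ)
  have h4 : 2 * (1 - avg fun x : Cube n => cnK L (τ * (rst M u x - a))) ≤ ε := by
    rw [← hav]
    have h5 : ∀ x : Cube n, 2 * (1 - cnK L (τ * (rst M u x - a))) ≤
        (L * τ) ^ 2 * (rst M u x - a) ^ 2 := by
      intro x
      have := cn_near hLpos (τ * (rst M u x - a))
      have h6 : (L * (τ * (rst M u x - a))) ^ 2 = (L * τ) ^ 2 * (rst M u x - a) ^ 2 := by ring
      rw [h6] at this
      linarith
    have h6 : (avg fun x : Cube n => 2 * (1 - cnK L (τ * (rst M u x - a)))) ≤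
        (L * τ) ^ 2 * avg fun x : Cube n => (rst M u x - a) ^ 2 := by
      unfold avg
      rw [← mul_div_assoc, Finset.mul_sum]
      exact div_le_div_of_nonneg_right (Finset.sum_le_sum fun x _ => h5 x) (Nat.cast_nonneg _)
    refine h6.trans ?_
    have h7 := cn_var hM hD hv hu
    rw [← ha] at h7
    have h8 : ((L : ℝ) * τ) ^ 2 * (R * D) ^ 2 ≤ 49 := by
      have h9 : 0 ≤ (L : ℝ) * (τ * (R * D)) := by positivity
      calc ((L : ℝ) * τ) ^ 2 * (R * D) ^ 2 = (L * (τ * (R * D))) ^ 2 := by ring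
        _ ≤ 7 ^ 2 := pow_le_pow_left₀ h9 hL2 2
        _ = 49 := by norm_num
    calc ((L : ℝ) * τ) ^ 2 * avg (fun x : Cube n => (rst M u x - a) ^ 2)
        ≤ ((L : ℝ) * τ) ^ 2 * (4 * ((r : ℝ) + 1) ^ 2 * Real.exp K * D ^ 2) :=
          mul_le_mul_of_nonneg_left h7 (by positivity)
      _ = (((L : ℝ) * τ) ^ 2 * (R * D) ^ 2) * (4 * ((r : ℝ) + 1) ^ 2 * Real.exp K / R ^ 2) := by
          field_simp
      _ ≤ 49 * (4 * ((r : ℝ) + 1) ^ 2 * Real.exp K / R ^ 2) :=
          mul_le_mul_of_nonneg_right h8 (by positivity)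
      _ = B / R ^ 2 := by rw [hB]; ring
      _ ≤ ε := by
          rw [div_le_iff₀ (by positivity)]
          rwa [div_le_iff₀ hε, mul_comm] at hR2
  linarith

/-- Concentration of the light part. -/
theorem conc (r : ℕ) (K : ℝ) {ε : ℝ} (hε : 0 < ε) : ∃ R : ℝ, 0 < R ∧ ∀ (n : ℕ)
    (M : Finset (Finset (Fin n))) (u : Finset (Fin n) → ℝ) (D : ℝ), Rd r M → (∀ m ∈ M, m ≠ ∅) →
      0 < D → vd M u D ≤ K → (∀ m ∈ M, |u m| ≤ D) →
      ∀ {Ω : Type} [Fintype Ω] [Nonempty Ω] (Y : Ω → Cube n) (ε₀ : ℝ),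
        (∀ t : ℝ, ‖(av fun ω => pr (eu t u) M (Y ω)) - av (pr (eu t u) M)‖ ≤ ε₀) →
        (avg fun ω => one (R * D ≤ |rst M u (Y ω) - avg (rst M u)|)) ≤ ε + 4 * ε₀ := by
  obtain ⟨R, hR, h⟩ := conc' r K hε
  exact ⟨R, hR, fun n M u D hM h0 hD hv hu Ω _ _ Y ε₀ hc =>
    h n M u D hM h0 hD hv hu Y ε₀ fun t _ => hc t⟩

end Pool.Agent.MP_ca1109_lc.Xh
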