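import Pool.Agent.MP_ca1109_lc.Mpg.Defs
import Pool.Agent.MP_ca1109_lc.MonoProb
import Pool.Agent.MP_ca1109_lc.Dnf.B1

/-!
# Anticoncentration from small characteristic functions, arbitrary real weights

The interval has length `2 D`; the frequencies are `(l - l') / (L D)`, `l, l' < L`, with `L` huge.
For a weight `p m min (1, (w m / D)²)` most pairs of frequencies are good, so for most pairs the
total of `p m |1 - exp (i t w m)|²` is large (Markov).
-/

namespace Pool.Agent.MP_ca1109_lc.Xh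

open Finset Pool.Agent.MP_ca1109_lc.Mpg
open Pool.Agent.MP_ca1109_lc.Dnf (one one_le one_nonneg one_true one_false)

/-! ## The kernel -/

theorem xan_cos {y : ℝ} (hy : |y| ≤ 1) : 1 / 2 ≤ Real.cos y := by
  rw [← Real.cos_abs y]
  have h1 : |y| ≤ Real.pi / 3 := hy.trans (by have := Real.pi_gt_three; linarith)
  have h2 := Real.cos_le_cos_of_nonneg_of_le_pi (abs_nonneg y)
    (by have := Real.pi_gt_three; linarith) h1
  rwa [Real.cos_pi_div_three] at h2

theorem xan_kernel {Ω : Type*} [Fintype Ω] [Nonempty Ω] (S : Ω → ℝ) (θ : ℝ) {J : ℝ} (hJ : 0 < J)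
    {L : ℕ} (hL : 0 < L) :
    (avg fun ω => one (|S ω - θ| ≤ J)) ≤
      4 * ((∑ l ∈ range L, ∑ l' ∈ range L,
        ‖av fun ω => Complex.exp ((((l : ℝ) - l') / (L * J) * S ω : ℝ) * Complex.I)‖) / (L * L)) := by
  have hL' : (0 : ℝ) < L := by exact_mod_cast hL
  have hcard : (0 : ℝ) < Fintype.card Ω := by exact_mod_cast Fintype.card_pos
  set τ : ℝ := 1 / (L * J) with hτ
  have hτ0 : 0 < τ := by positivity
  set z : Ω → ℕ → ℂ := fun ω l => Complex.exp ((τ * l * (S ω - θ) : ℝ) * Complex.I) with hz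
  set K : Ω → ℝ := fun ω => ‖(∑ l ∈ range L, z ω l) / L‖ ^ 2 with hK
  -- pointwise
  have h1 : ∀ ω, one (|S ω - θ| ≤ J) ≤ 4 * K ω := by
    intro ω
    have hK0 : 0 ≤ K ω := by positivity
    by_cases hS : |S ω - θ| ≤ J
    · rw [one_true hS]
      have h2 : ∀ l ∈ range L, 1 / 2 ≤ (z ω l).re := by
        intro l hl
        rw [Finset.mem_range] at hl
        simp only [hz]
        rw [Complex.exp_ofReal_mul_I_re]
        refine xan_cos ?_
        have h3 : |τ * l * (S ω - θ)| = τ * l * |S ω - θ| := by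
          rw [abs_mul, abs_of_nonneg (by positivity)]
        rw [h3]
        have hl' : (l : ℝ) ≤ L := by exact_mod_cast hl.le
        calc τ * l * |S ω - θ| ≤ τ * L * J := by gcongr
          _ = 1 := by rw [hτ]; field_simp
      have h4 : (L : ℝ) * (1 / 2) ≤ (∑ l ∈ range L, z ω l).re := by
        rw [Complex.re_sum]
        calc (L : ℝ) * (1 / 2) = ∑ _l ∈ range L, (1 / 2 : ℝ) := by simp
          _ ≤ _ := Finset.sum_le_sum h2
      have h5 : (1 / 2 : ℝ) ≤ ‖(∑ l ∈ range L, z ω l) / L‖ := by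
        rw [norm_div, Complex.norm_natCast, le_div_iff₀ hL']
        calc (1 / 2 : ℝ) * L = L * (1 / 2) := by ring
          _ ≤ (∑ l ∈ range L, z ω l).re := h4
          _ ≤ |(∑ l ∈ range L, z ω l).re| := le_abs_self _
          _ ≤ _ := Complex.abs_re_le_norm _
      simp only [hK]
      nlinarith [norm_nonneg ((∑ l ∈ range L, z ω l) / (L : ℂ))]
    · rw [one_false hS]
      positivity
  -- the average of the kernel
  have e1 : ∀ ω, ((K ω : ℝ) : ℂ) = (∑ l ∈ range L, ∑ l' ∈ range L,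
      Complex.exp ((τ * ((l : ℝ) - l') * (S ω - θ) : ℝ) * Complex.I)) / (L * L) := by
    intro ω
    have e0 : ((K ω : ℝ) : ℂ) = ((∑ l ∈ range L, z ω l) / L) *
        (starRingEnd ℂ) ((∑ l ∈ range L, z ω l) / L) := by
      rw [Complex.mul_conj, Complex.normSq_eq_norm_sq]
    rw [e0, map_div₀, map_natCast, map_sum, div_mul_div_comm, Finset.sum_mul_sum]
    congr 1
    refine Finset.sum_congr rfl fun l _ => Finset.sum_congr rfl fun l' _ => ?_
    simp only [hz]
    rw [← Complex.exp_conj, map_mul, Complex.conj_ofReal, Complex.conj_I, ← Complex.exp_add]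
    congr 1
    push_cast
    ring
  have e2 : ((avg K : ℝ) : ℂ) = (∑ l ∈ range L, ∑ l' ∈ range L,
      av fun ω => Complex.exp ((τ * ((l : ℝ) - l') * (S ω - θ) : ℝ) * Complex.I)) / (L * L) := by
    unfold avg av
    push_cast
    rw [Finset.sum_congr rfl fun ω _ => e1 ω, ← Finset.sum_div, div_right_comm]
    congr 1
    rw [Finset.sum_comm, Finset.sum_div]
    refine Finset.sum_congr rfl fun l _ => ?_
    rw [Finset.sum_comm, Finset.sum_div]
    push_cast
    rfl
  have e3 : ∀ l l' : ℕ,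
      ‖av fun ω => Complex.exp ((τ * ((l : ℝ) - l') * (S ω - θ) : ℝ) * Complex.I)‖ =
        ‖av fun ω => Complex.exp ((((l : ℝ) - l') / (L * J) * S ω : ℝ) * Complex.I)‖ := by
    intro l l'
    have e5 : (av fun ω => Complex.exp ((τ * ((l : ℝ) - l') * (S ω - θ) : ℝ) * Complex.I)) =
        Complex.exp ((-(τ * ((l : ℝ) - l') * θ) : ℝ) * Complex.I) *
          av fun ω => Complex.exp ((((l : ℝ) - l') / (L * J) * S ω : ℝ) * Complex.I) := by
      unfold av
      rw [mul_div_assoc', Finset.mul_sum]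
      congr 1
      refine Finset.sum_congr rfl fun ω _ => ?_
      rw [← Complex.exp_add, hτ]
      push_cast
      ring_nf
    rw [e5, norm_mul, Complex.norm_exp_ofReal_mul_I, one_mul]
  have h2 : avg K ≤ (∑ l ∈ range L, ∑ l' ∈ range L,
        ‖av fun ω => Complex.exp ((((l : ℝ) - l') / (L * J) * S ω : ℝ) * Complex.I)‖) / (L * L) := by
    have hK0 : 0 ≤ avg K := avg_nonneg fun ω => by positivity
    have e6 : avg K = ‖((avg K : ℝ) : ℂ)‖ := by
      rw [Complex.norm_real, Real.norm_eq_abs, abs_of_nonneg hK0]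
    rw [e6, e2, norm_div]
    have e7 : ‖((L : ℂ) * L)‖ = L * L := by rw [norm_mul, Complex.norm_natCast]
    rw [e7]
    refine div_le_div_of_nonneg_right ?_ (by positivity)
    refine (norm_sum_le _ _).trans (sum_le_sum fun l _ => (norm_sum_le _ _).trans
      (sum_le_sum fun l' _ => ?_))
    rw [e3]
  have h3 : (avg fun ω => one (|S ω - θ| ≤ J)) ≤ 4 * avg K := by
    rw [← avg_mul_left]
    exact avg_mono h1
  linarith

/-! ## Counting -/

theorem xan_lower {y : ℝ} (hy : |y| ≤ Real.pi) : |y| / 2 ≤ ‖1 - Complex.exp ((y : ℝ) * Complex.I)‖ := by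
  have h1 : ‖1 - Complex.exp ((y : ℝ) * Complex.I)‖ = 2 * |Real.sin (y / 2)| := by
    have := Complex.norm_exp_I_mul_ofReal_sub_one y
    rw [mul_comm] at this
    rw [norm_sub_rev, this, norm_mul, Real.norm_eq_abs, Real.norm_eq_abs, abs_two]
  rw [h1]
  have h2 : |Real.sin (y / 2)| = Real.sin (|y| / 2) := by
    rcases le_total 0 y with h | h
    · rw [abs_of_nonneg h, abs_of_nonneg]
      exact Real.sin_nonneg_of_nonneg_of_le_pi (by linarith)
        (by rw [abs_of_nonneg h] at hy; linarith [Real.pi_pos])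
    · rw [abs_of_nonpos h, neg_div, Real.sin_neg, abs_of_nonpos]
      rw [abs_of_nonpos h] at hy
      exact Real.sin_nonpos_of_nonpos_of_neg_pi_le (by linarith) (by linarith [Real.pi_pos])
  rw [h2]
  have h3 := Real.mul_le_sin (x := |y| / 2) (by positivity) (by linarith)
  have h4 : (1 / 2 : ℝ) ≤ 2 / Real.pi := by
    rw [div_le_div_iff₀ two_pos Real.pi_pos]
    linarith [Real.pi_lt_four]
  have h5 : (1 / 2 : ℝ) * (|y| / 2) ≤ 2 / Real.pi * (|y| / 2) :=
    mul_le_mul_of_nonneg_right h4 (by positivity)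
  linarith

theorem xan_int (s : Finset ℤ) {R : ℝ} (hR : 0 ≤ R) (h : ∀ a ∈ s, ∀ b ∈ s, (a : ℝ) - b ≤ R) :
    (s.card : ℝ) ≤ R + 1 := by
  rcases s.eq_empty_or_nonempty with rfl | hs
  · simp
    linarith
  · have h1 : s ⊆ Finset.Icc (s.min' hs) (s.max' hs) := fun a ha =>
      Finset.mem_Icc.2 ⟨s.min'_le a ha, s.le_max' a ha⟩
    have h2 := Finset.card_le_card h1
    rw [Int.card_Icc] at h2
    have h3 := h _ (s.max'_mem hs) _ (s.min'_mem hs)
    have h4 : s.min' hs ≤ s.max' hs := s.min'_le _ (s.max'_mem hs)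
    have h5 : (s.card : ℤ) ≤ s.max' hs - s.min' hs + 1 := by omega
    have h6 : (s.card : ℝ) ≤ (s.max' hs : ℝ) - s.min' hs + 1 := by exact_mod_cast h5
    linarith

theorem xan_nat (s : Finset ℕ) {R : ℝ} (hR : 0 ≤ R) (h : ∀ a ∈ s, ∀ b ∈ s, (a : ℝ) - b ≤ R) :
    (s.card : ℝ) ≤ R + 1 := by
  have h1 := xan_int (s.image (Nat.cast : ℕ → ℤ)) hR (by
    intro a ha b hb
    obtain ⟨a', ha', rfl⟩ := Finset.mem_image.1 ha
    obtain ⟨b', hb', rfl⟩ := Finset.mem_image.1 hb
    exact_mod_cast h a' ha' b' hb')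
  rwa [Finset.card_image_of_injective _ Nat.cast_injective] at h1

open Classical in
/-- Light weights. -/
theorem xan_light {L : ℕ} {v η : ℝ} (hv0 : v ≠ 0) (hv : |v| ≤ 1) (hη : 0 < η)
    (hL : 1 ≤ η * L) (l' : ℕ) (hl' : l' < L) :
    (((range L).filter fun l : ℕ =>
      ‖1 - Complex.exp ((((l : ℝ) - l') / L * v : ℝ) * Complex.I)‖ < η * |v|).card : ℝ) ≤
      5 * η * L := by
  have hv1 : 0 < |v| := abs_pos.2 hv0
  have hL0 : (0 : ℝ) < L := by
    rcases Nat.eq_zero_or_pos L with h | h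
    · omega
    · exact_mod_cast h
  have key : ∀ l ∈ (range L).filter (fun l : ℕ =>
      ‖1 - Complex.exp ((((l : ℝ) - l') / L * v : ℝ) * Complex.I)‖ < η * |v|),
      |(l : ℝ) - l'| ≤ 2 * η * L := by
    intro l hl
    rw [mem_filter, mem_range] at hl
    have h1 : |((l : ℝ) - l') / L| ≤ 1 := by
      rw [abs_div, abs_of_pos hL0, div_le_one hL0, abs_le]
      have h2 : (l : ℝ) < L := by exact_mod_cast hl.1
      have h3 : (l' : ℝ) < L := by exact_mod_cast hl'
      have h4 : (0 : ℝ) ≤ l := by positivity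
      have h5 : (0 : ℝ) ≤ l' := by positivity
      constructor <;> linarith
    have h2 : |((l : ℝ) - l') / L * v| ≤ 1 := by
      rw [abs_mul]
      exact mul_le_one₀ h1 (abs_nonneg _) hv
    have h3 := xan_lower (y := ((l : ℝ) - l') / L * v) (h2.trans (by linarith [Real.pi_gt_three]))
    have h4 : |((l : ℝ) - l') / L * v| / 2 < η * |v| := lt_of_le_of_lt h3 hl.2
    rw [abs_mul, abs_div, abs_of_pos hL0] at h4
    have h5 : |(l : ℝ) - l'| / L / 2 < η := by
      have h6 : |(l : ℝ) - l'| / L / 2 * |v| < η * |v| := by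
        calc _ = |(l : ℝ) - l'| / L * |v| / 2 := by ring
          _ < _ := h4
      exact lt_of_mul_lt_mul_right h6 hv1.le
    rw [div_div, div_lt_iff₀ (by positivity)] at h5
    linarith
  refine (xan_nat _ (R := 4 * η * L) (by positivity) fun a ha b hb => ?_).trans (by linarith)
  have h1 := abs_le.1 (key a ha)
  have h2 := abs_le.1 (key b hb)
  linarith [h1.2, h2.1]

open Classical in
/-- Heavy weights. -/
theorem xan_heavy {L : ℕ} {u η : ℝ} (hu1 : 1 ≤ L * |u|) (hu : |u| ≤ η) (hη : 0 < η) (l' : ℕ) :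
    (((range L).filter fun l : ℕ =>
      ‖1 - Complex.exp ((((l : ℝ) - l') * u : ℝ) * Complex.I)‖ < η).card : ℝ) ≤
      15 * η * L := by
  have hL0 : (0 : ℝ) < L := by
    rcases Nat.eq_zero_or_pos L with h | h
    · rw [h] at hu1; norm_num at hu1
    · exact_mod_cast h
  have hu0 : 0 < |u| := by
    rcases (abs_nonneg u).lt_or_eq with h | h
    · exact h
    · rw [← h] at hu1; norm_num at hu1
  have hune : u ≠ 0 := abs_pos.1 hu0
  have hπ := Real.pi_pos
  set s := (range L).filter (fun l : ℕ =>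
      ‖1 - Complex.exp ((((l : ℝ) - l') * u : ℝ) * Complex.I)‖ < η) with hs
  let f : ℕ → ℤ := fun l => round ((((l : ℝ) - l') * u) / (2 * Real.pi))
  have key : ∀ l ∈ s, |((l : ℝ) - l') * u - 2 * Real.pi * f l| ≤ 2 * η := by
    intro l hl
    rw [hs, mem_filter] at hl
    set y : ℝ := ((l : ℝ) - l') * u with hy
    have h1 := abs_sub_round (y / (2 * Real.pi))
    have h2 : |y - 2 * Real.pi * f l| ≤ Real.pi := by
      have h3 : y - 2 * Real.pi * f l = 2 * Real.pi * (y / (2 * Real.pi) - round (y / (2 * Real.pi))) := by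
        have : f l = round (y / (2 * Real.pi)) := rfl
        rw [this]
        field_simp
      rw [h3, abs_mul, abs_of_pos (by positivity : 0 < 2 * Real.pi)]
      calc 2 * Real.pi * |y / (2 * Real.pi) - round (y / (2 * Real.pi))| ≤ 2 * Real.pi * (1 / 2) :=
            mul_le_mul_of_nonneg_left h1 (by positivity)
        _ = Real.pi := by ring
    have h3 := xan_lower h2
    have h4 : Complex.exp ((y - 2 * Real.pi * f l : ℝ) * Complex.I) =
        Complex.exp ((y : ℝ) * Complex.I) := by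
      rw [Complex.exp_eq_exp_iff_exists_int]
      refine ⟨-f l, ?_⟩
      push_cast
      ring
    rw [h4] at h3
    have h5 := hl.2
    linarith
  have hfib : ∀ k ∈ s.image f, (s.filter fun l => f l = k).card ≤ ⌊5 * η / |u|⌋₊ := by
    intro k _
    refine Nat.le_floor ?_
    refine (xan_nat _ (R := 4 * η / |u|) (by positivity) fun a ha b hb => ?_).trans ?_
    · rw [mem_filter] at ha hb
      have h1 := key a ha.1
      have h2 := key b hb.1
      rw [ha.2] at h1
      rw [hb.2] at h2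
      have h3 : |((a : ℝ) - b) * u| ≤ 4 * η := by
        have h4 : ((a : ℝ) - b) * u = (((a : ℝ) - l') * u - 2 * Real.pi * k) -
            (((b : ℝ) - l') * u - 2 * Real.pi * k) := by ring
        rw [h4]
        exact (abs_sub _ _).trans (by linarith)
      rw [abs_mul] at h3
      rw [le_div_iff₀ hu0]
      exact (mul_le_mul_of_nonneg_right (le_abs_self _) hu0.le).trans h3
    · have h1 : 1 ≤ η / |u| := by rw [le_div_iff₀ hu0]; linarith
      have h2 : 4 * η / |u| + η / |u| = 5 * η / |u| := by ring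
      linarith
  have himg : ((s.image f).card : ℝ) ≤ 3 * (L * |u|) := by
    refine (xan_int _ (R := L * |u| / (2 * Real.pi) + 1) (by positivity) fun a ha b hb => ?_).trans ?_
    · obtain ⟨la, hla, rfl⟩ := Finset.mem_image.1 ha
      obtain ⟨lb, hlb, rfl⟩ := Finset.mem_image.1 hb
      have hla' : (la : ℝ) < L := by exact_mod_cast mem_range.1 (mem_filter.1 hla).1
      have hlb' : (lb : ℝ) < L := by exact_mod_cast mem_range.1 (mem_filter.1 hlb).1
      have h1 := abs_le.1 (abs_sub_round ((((la : ℝ) - l') * u) / (2 * Real.pi)))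
      have h2 := abs_le.1 (abs_sub_round ((((lb : ℝ) - l') * u) / (2 * Real.pi)))
      have h3 : (((la : ℝ) - l') * u) / (2 * Real.pi) - (((lb : ℝ) - l') * u) / (2 * Real.pi) =
          ((la : ℝ) - lb) * u / (2 * Real.pi) := by ring
      have h4 : ((la : ℝ) - lb) * u ≤ L * |u| := by
        refine (le_abs_self _).trans ?_
        rw [abs_mul]
        refine mul_le_mul_of_nonneg_right ?_ hu0.le
        rw [abs_le]
        have h5 : (0 : ℝ) ≤ la := by positivity
        have h6 : (0 : ℝ) ≤ lb := by positivity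
        constructor <;> linarith
      have h5 : ((la : ℝ) - lb) * u / (2 * Real.pi) ≤ L * |u| / (2 * Real.pi) :=
        div_le_div_of_nonneg_right h4 (by positivity)
      have h6 : ((f la : ℤ) : ℝ) = round ((((la : ℝ) - l') * u) / (2 * Real.pi)) := rfl
      have h7 : ((f lb : ℤ) : ℝ) = round ((((lb : ℝ) - l') * u) / (2 * Real.pi)) := rfl
      rw [h6, h7]
      linarith [h1.1, h2.2]
    · have h1 : L * |u| / (2 * Real.pi) ≤ L * |u| := by
        refine div_le_self (by positivity) ?_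
        linarith [Real.pi_gt_three]
      linarith
  have h1 := Finset.card_le_mul_card_image s _ hfib
  have h2 : (s.card : ℝ) ≤ (⌊5 * η / |u|⌋₊ : ℝ) * ((s.image f).card : ℝ) := by exact_mod_cast h1
  refine h2.trans ?_
  calc (⌊5 * η / |u|⌋₊ : ℝ) * ((s.image f).card : ℝ) ≤ (5 * η / |u|) * (3 * (L * |u|)) :=
        mul_le_mul (Nat.floor_le (by positivity)) himg (by positivity) (by positivity)
    _ = 15 * η * L := by field_simp; ring


open Classical in
/-- The bad pairs of frequencies for one weight. -/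
theorem xan_pairs {L : ℕ} {w D η : ℝ} (hD : 0 < D) (hη : 0 < η) (hL : 1 ≤ η * L)
    (hw : |w| ≤ η * (L * D)) (hw0 : w ≠ 0) :
    (((range L ×ˢ range L).filter fun q : ℕ × ℕ =>
      ‖1 - Complex.exp ((((q.1 : ℝ) - q.2) / (L * D) * w : ℝ) * Complex.I)‖ ^ 2 <
        η ^ 2 * min 1 ((w / D) ^ 2)).card : ℝ) ≤ 15 * η * (L * L) := by
  have hL0 : (0 : ℝ) < L := by
    rcases Nat.eq_zero_or_pos L with h | h
    · rw [h] at hL; norm_num at hL
    · exact_mod_cast h
  have h1 : ∀ l' ∈ range L, (((range L).filter fun l : ℕ =>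
      ‖1 - Complex.exp ((((l : ℝ) - l') / (L * D) * w : ℝ) * Complex.I)‖ ^ 2 <
        η ^ 2 * min 1 ((w / D) ^ 2)).card : ℝ) ≤ 15 * η * L := by
    intro l' hl'
    rcases le_or_gt |w| D with h | h
    · have hv : |w / D| ≤ 1 := by rw [abs_div, abs_of_pos hD, div_le_one hD]; exact h
      have h2 := xan_light (v := w / D) (div_ne_zero hw0 hD.ne') hv hη hL l' (mem_range.1 hl')
      refine (Nat.cast_le.2 (card_le_card ?_)).trans (h2.trans ?_)
      · intro l hl
        rw [mem_filter] at hl ⊢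
        refine ⟨hl.1, ?_⟩
        have h3 : (w / D) ^ 2 ≤ 1 := by
          rw [← sq_abs]; exact pow_le_one₀ (abs_nonneg _) hv
        have h4 := hl.2
        rw [min_eq_right h3] at h4
        have h5 : η ^ 2 * (w / D) ^ 2 = (η * |w / D|) ^ 2 := by rw [mul_pow, sq_abs]
        rw [h5] at h4
        have h6 := lt_of_pow_lt_pow_left₀ 2 (by positivity) h4
        have h7 : ((l : ℝ) - l') / L * (w / D) = ((l : ℝ) - l') / (L * D) * w := by
          field_simp
        rw [h7]
        exact h6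
      · have : (0 : ℝ) ≤ η * L := by positivity
        nlinarith
    · have hu1 : 1 ≤ L * |w / (L * D)| := by
        rw [abs_div, abs_of_pos (by positivity : 0 < L * D)]
        rw [mul_div_assoc', le_div_iff₀ (by positivity)]
        nlinarith
      have hu : |w / (L * D)| ≤ η := by
        rw [abs_div, abs_of_pos (by positivity : 0 < L * D), div_le_iff₀ (by positivity)]
        exact hw
      have h2 := xan_heavy hu1 hu hη l'
      refine (Nat.cast_le.2 (card_le_card ?_)).trans h2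
      intro l hl
      rw [mem_filter] at hl ⊢
      refine ⟨hl.1, ?_⟩
      have h4 := hl.2
      have h5 : η ^ 2 * min 1 ((w / D) ^ 2) ≤ η ^ 2 :=
        mul_le_of_le_one_right (by positivity) (min_le_left _ _)
      have h6 := lt_of_pow_lt_pow_left₀ 2 hη.le (h4.trans_le h5)
      have h7 : ((l : ℝ) - l') * (w / (L * D)) = ((l : ℝ) - l') / (L * D) * w := by ring
      rw [h7]
      exact h6
  have h2 : ((range L ×ˢ range L).filter fun q : ℕ × ℕ =>
      ‖1 - Complex.exp ((((q.1 : ℝ) - q.2) / (L * D) * w : ℝ) * Complex.I)‖ ^ 2 <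
        η ^ 2 * min 1 ((w / D) ^ 2)).card = ∑ l' ∈ range L, ((range L).filter fun l : ℕ =>
      ‖1 - Complex.exp ((((l : ℝ) - l') / (L * D) * w : ℝ) * Complex.I)‖ ^ 2 <
        η ^ 2 * min 1 ((w / D) ^ 2)).card := by
    simp only [card_filter]
    rw [sum_product_right]
  rw [h2, Nat.cast_sum]
  calc _ ≤ ∑ _l' ∈ range L, 15 * η * (L : ℝ) := sum_le_sum h1
    _ = 15 * η * (L * L) := by rw [sum_const, card_range, nsmul_eq_mul]; ring

/-- **Anticoncentration** of `S`, at scale `D`, for arbitrary real weights `w m`. -/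
theorem anticonc {ι Ω : Type*} [Fintype Ω] [Nonempty Ω] (M : Finset ι) (p w : ι → ℝ)
    (hp : ∀ m ∈ M, 0 ≤ p m) {D η V₀ ε : ℝ} (hD : 0 < D) (hη : 0 < η) (_hη1 : η ≤ 1) (hε : 0 ≤ ε)
    (hW : 0 < ∑ m ∈ M, p m * min 1 ((w m / D) ^ 2))
    (hV : V₀ ≤ η ^ 2 / 2 * ∑ m ∈ M, p m * min 1 ((w m / D) ^ 2)) (S : Ω → ℝ) (θ : ℝ)
    (h : ∀ t : ℝ, V₀ ≤ ∑ m ∈ M, p m * ‖1 - Complex.exp ((t * w m : ℝ) * Complex.I)‖ ^ 2 →
      ‖av fun ω => Complex.exp ((t * S ω : ℝ) * Complex.I)‖ ≤ ε) :
    (avg fun ω => one (|S ω - θ| ≤ D)) ≤ 128 * η + 4 * ε := by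
  classical
  set W : ℝ := ∑ m ∈ M, p m * min 1 ((w m / D) ^ 2) with hWd
  set B : ℝ := ∑ m ∈ M, |w m| with hB
  have hB0 : 0 ≤ B := sum_nonneg fun _ _ => abs_nonneg _
  obtain ⟨L, hLn⟩ := exists_nat_ge (1 / η + B / (η * D))
  have hL1 : 1 / η ≤ L := by
    have : 0 ≤ B / (η * D) := by positivity
    linarith
  have hL2 : B / (η * D) ≤ L := by
    have : 0 ≤ 1 / η := by positivity
    linarith
  have hL0 : (0 : ℝ) < L := lt_of_lt_of_le (by positivity) hL1
  have hLpos : 0 < L := by exact_mod_cast hL0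
  have hLη : 1 ≤ η * L := by
    rw [div_le_iff₀ hη] at hL1
    linarith
  have hw : ∀ m ∈ M, |w m| ≤ η * (L * D) := by
    intro m hm
    have h1 : |w m| ≤ B := single_le_sum (f := fun m => |w m|) (fun _ _ => abs_nonneg _) hm
    rw [div_le_iff₀ (by positivity)] at hL2
    linarith
  refine (xan_kernel S θ hD hLpos).trans ?_
  let N : ℕ × ℕ → ℝ := fun q =>
    ‖av fun ω => Complex.exp ((((q.1 : ℝ) - q.2) / (L * D) * S ω : ℝ) * Complex.I)‖
  let bad : ι → ℕ × ℕ → Prop := fun m q =>
    ‖1 - Complex.exp ((((q.1 : ℝ) - q.2) / (L * D) * w m : ℝ) * Complex.I)‖ ^ 2 <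
      η ^ 2 * min 1 ((w m / D) ^ 2)
  let b : ℕ × ℕ → ℝ := fun q => ∑ m ∈ M, if bad m q then p m * min 1 ((w m / D) ^ 2) else 0
  have hu0 : ∀ m ∈ M, 0 ≤ p m * min 1 ((w m / D) ^ 2) := fun m hm =>
    mul_nonneg (hp m hm) (le_min zero_le_one (sq_nonneg _))
  have hb0 : ∀ q, 0 ≤ b q := fun q => sum_nonneg fun m hm => by
    split_ifs
    · exact hu0 m hm
    · exact le_rfl
  -- the bad mass
  have hbsum : ∑ q ∈ range L ×ˢ range L, b q ≤ 15 * η * (L * L) * W := by
    simp only [b]
    rw [sum_comm, hWd, mul_sum]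
    refine sum_le_sum fun m hm => ?_
    rw [← sum_filter, sum_const, nsmul_eq_mul]
    by_cases hwm : w m = 0
    · have h0 : p m * min 1 ((w m / D) ^ 2) = 0 := by rw [hwm]; simp
      rw [h0, mul_zero, mul_zero]
    · exact mul_le_mul_of_nonneg_right (xan_pairs hD hη hLη (hw m hm) hwm) (hu0 m hm)
  -- a bound for each pair
  have hN : ∀ q, N q ≤ ε + 2 / W * b q := by
    intro q
    have hN1 : N q ≤ 1 := by
      have hc : (0 : ℝ) < Fintype.card Ω := by exact_mod_cast Fintype.card_pos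
      simp only [N, av]
      rw [norm_div, Complex.norm_natCast, div_le_one hc]
      refine (norm_sum_le _ _).trans ?_
      simp only [Complex.norm_exp_ofReal_mul_I, sum_const, card_univ, nsmul_eq_mul, mul_one,
        le_refl]
    rcases le_or_gt (b q) (W / 2) with hq | hq
    · have h1 : V₀ ≤ ∑ m ∈ M, p m *
          ‖1 - Complex.exp ((((q.1 : ℝ) - q.2) / (L * D) * w m : ℝ) * Complex.I)‖ ^ 2 := by
        have h2 : η ^ 2 * (W - b q) ≤ ∑ m ∈ M, p m *
            ‖1 - Complex.exp ((((q.1 : ℝ) - q.2) / (L * D) * w m : ℝ) * Complex.I)‖ ^ 2 := by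
          rw [hWd, ← sum_sub_distrib, mul_sum]
          refine sum_le_sum fun m hm => ?_
          by_cases hbm : bad m q
          · rw [if_pos hbm, sub_self, mul_zero]
            exact mul_nonneg (hp m hm) (sq_nonneg _)
          · rw [if_neg hbm, sub_zero]
            have h3 : η ^ 2 * min 1 ((w m / D) ^ 2) ≤
                ‖1 - Complex.exp ((((q.1 : ℝ) - q.2) / (L * D) * w m : ℝ) * Complex.I)‖ ^ 2 :=
              not_lt.1 hbm
            calc η ^ 2 * (p m * min 1 ((w m / D) ^ 2)) =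
                p m * (η ^ 2 * min 1 ((w m / D) ^ 2)) := by ring
              _ ≤ _ := mul_le_mul_of_nonneg_left h3 (hp m hm)
        have h3 : η ^ 2 / 2 * W ≤ η ^ 2 * (W - b q) := by
          have h4 : W / 2 ≤ W - b q := by linarith
          calc η ^ 2 / 2 * W = η ^ 2 * (W / 2) := by ring
            _ ≤ _ := mul_le_mul_of_nonneg_left h4 (sq_nonneg _)
        linarith
      have h2 := h _ h1
      have h3 : 0 ≤ 2 / W * b q := mul_nonneg (by positivity) (hb0 q)
      have h4 : N q ≤ ε := h2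
      linarith
    · have h1 : 1 ≤ 2 / W * b q := by
        rw [div_mul_eq_mul_div, le_div_iff₀ hW]
        linarith
      linarith
  have hsum : (∑ l ∈ range L, ∑ l' ∈ range L,
        ‖av fun ω => Complex.exp ((((l : ℝ) - l') / (L * D) * S ω : ℝ) * Complex.I)‖) ≤
      (L * L) * (ε + 30 * η) := by
    have h1 : (∑ l ∈ range L, ∑ l' ∈ range L,
        ‖av fun ω => Complex.exp ((((l : ℝ) - l') / (L * D) * S ω : ℝ) * Complex.I)‖) =
        ∑ q ∈ range L ×ˢ range L, N q := by
      rw [sum_product]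
    rw [h1]
    refine (sum_le_sum fun q _ => hN q).trans ?_
    rw [sum_add_distrib, ← mul_sum, sum_const, card_product, card_range, nsmul_eq_mul]
    push_cast
    have h2 : 2 / W * ∑ q ∈ range L ×ˢ range L, b q ≤ 2 / W * (15 * η * (L * L) * W) :=
      mul_le_mul_of_nonneg_left hbsum (by positivity)
    have h3 : 2 / W * (15 * η * (L * L) * W) = (L * L) * (30 * η) := by field_simp; ring
    linarith
  have h4 : (∑ l ∈ range L, ∑ l' ∈ range L,
        ‖av fun ω => Complex.exp ((((l : ℝ) - l') / (L * D) * S ω : ℝ) * Complex.I)‖) / (L * L) ≤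
      ε + 30 * η := by
    rw [div_le_iff₀ (by positivity)]
    linarith
  linarith

end Pool.Agent.MP_ca1109_lc.Xh
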