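import Mathlib

/-! # Row RA: ramps as trigonometric polynomials -/

namespace Pool.Agent.MP_ca1109_lc.Xh

open Finset

/-- On `[-R, R]` every ramp is a combination of few characters with period `P`. -/
theorem ramp (R : ℝ) (hR : 0 < R) {ε : ℝ} (hε : 0 < ε) : ∃ (N : ℕ) (P : ℝ) (φ : Fin N → ℂ)
    (b : Fin N → ℤ), 0 < P ∧ (∀ v c : ℝ, |c| ≤ R + 1 →
      ‖∑ j, φ j * Complex.exp (Complex.I * (2 * Real.pi * b j * (c + v) / P))‖ ≤ 1 + ε) ∧
      ∀ v c : ℝ, |v| ≤ R → |c| ≤ R + 1 →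
        ‖∑ j, φ j * Complex.exp (Complex.I * (2 * Real.pi * b j * (c + v) / P)) -
          ((max 0 (min 1 (c + v)) : ℝ) : ℂ)‖ ≤ ε := by
  set P : ℝ := 8 * (R + 1) with hP
  have hP0 : 0 < P := by positivity
  have : Fact (0 < P) := ⟨hP0⟩
  -- the continuous periodic function
  let f : C(AddCircle P, ℂ) :=
    ⟨fun x => ((max 0 (min 1 (P / 4 - ‖x - ((P / 4 : ℝ) : AddCircle P)‖)) : ℝ) : ℂ), by fun_prop⟩
  have hf1 : ∀ x, ‖f x‖ ≤ 1 := by
    intro x
    change ‖((max 0 (min 1 (P / 4 - ‖x - ((P / 4 : ℝ) : AddCircle P)‖)) : ℝ) : ℂ)‖ ≤ 1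
    rw [Complex.norm_real, Real.norm_eq_abs, abs_of_nonneg (le_max_left _ _)]
    exact max_le zero_le_one (min_le_left _ _)
  have hf2 : ∀ y : ℝ, |y| ≤ 2 * R + 1 →
      f (y : AddCircle P) = ((max 0 (min 1 y) : ℝ) : ℂ) := by
    intro y hy
    rw [abs_le] at hy
    change ((max 0 (min 1 (P / 4 - ‖(y : AddCircle P) - ((P / 4 : ℝ) : AddCircle P)‖)) : ℝ) : ℂ) = _
    have h1 : (y : AddCircle P) - ((P / 4 : ℝ) : AddCircle P) = ((y - P / 4 : ℝ) : AddCircle P) :=
      (AddCircle.coe_sub P y (P / 4)).symm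
    have h2 : |y - P / 4| = P / 4 - y := by
      rw [abs_of_nonpos (by rw [hP]; linarith [hy.2])]
      ring
    have h3 : ‖((y - P / 4 : ℝ) : AddCircle P)‖ = |y - P / 4| := by
      rw [AddCircle.norm_coe_eq_abs_iff P hP0.ne', h2, abs_of_pos hP0, hP]
      linarith [hy.1]
    rw [h1, h3, h2, sub_sub_cancel]
  -- approximation
  have hcl : f ∈ (Submodule.span ℂ (Set.range (@fourier P))).topologicalClosure := by
    rw [span_fourier_closure_eq_top]
    trivial
  obtain ⟨g, hg, hfg⟩ := Metric.mem_closure_iff.1 (show f ∈ closure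
    ((Submodule.span ℂ (Set.range (@fourier P)) : Submodule ℂ C(AddCircle P, ℂ)) :
      Set C(AddCircle P, ℂ)) from hcl) ε hε
  obtain ⟨c, hc⟩ := Finsupp.mem_span_range_iff_exists_finsupp.1 hg
  let e := c.support.equivFin.symm
  refine ⟨c.support.card, P, fun j => c (e j), fun j => (e j : ℤ), hP0, ?_⟩
  have hsum : ∀ y : ℝ, (∑ j, c (e j) * Complex.exp (Complex.I * (2 * Real.pi * ((e j : ℤ) : ℂ) * y / P))) =
      g (y : AddCircle P) := by
    intro y
    rw [← hc, Finsupp.sum, ContinuousMap.sum_apply]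
    rw [Equiv.sum_comp e (fun i : c.support => c i *
      Complex.exp (Complex.I * (2 * Real.pi * (((i : ℤ)) : ℂ) * y / P)))]
    rw [← Finset.sum_coe_sort c.support]
    refine Finset.sum_congr rfl fun i _ => ?_
    rw [ContinuousMap.smul_apply, fourier_coe_apply, smul_eq_mul]
    congr 2
    ring
  have hclose : ∀ y : ℝ, ‖g (y : AddCircle P) - f (y : AddCircle P)‖ ≤ ε := by
    intro y
    rw [← dist_eq_norm, dist_comm]
    exact (ContinuousMap.dist_apply_le_dist _).trans hfg.le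
  have hcast : ∀ v c' : ℝ, (∑ j, c (e j) *
      Complex.exp (Complex.I * (2 * Real.pi * ((e j : ℤ) : ℂ) * (c' + v) / P))) =
      g ((c' + v : ℝ) : AddCircle P) := by
    intro v c'
    rw [← hsum]
    push_cast
    rfl
  refine ⟨fun v c' _ => ?_, fun v c' hv hc' => ?_⟩
  · rw [hcast]
    calc ‖g ((c' + v : ℝ) : AddCircle P)‖
        = ‖f ((c' + v : ℝ) : AddCircle P) +
            (g ((c' + v : ℝ) : AddCircle P) - f ((c' + v : ℝ) : AddCircle P))‖ := by
          rw [add_sub_cancel]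
      _ ≤ _ := norm_add_le _ _
      _ ≤ 1 + ε := add_le_add (hf1 _) (hclose _)
  · rw [hcast, ← hf2 (c' + v) ((abs_add_le _ _).trans (by linarith))]
    exact hclose _

end Pool.Agent.MP_ca1109_lc.Xh
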