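import Pool.Agent.MP_ca1109_lc.Xh.Defs

/-!
# Combinations of functions of heavy monomials and phases of bounded mass

* `HS r K V M H ψ ζ`: the data `ψ, H, ζ, M` of one product; `H` has mass at most `K`, the phases
  `ζ` have mass at most `V`.
* `Foolb r K V ε₀ Y`: the string `Y ω` fools all these products with error at most `ε₀`.
* `HCb r K V B f`: `f` is a combination of such products, with coefficients of total size `B`.
-/

namespace Pool.Agent.MP_ca1109_lc.Xh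

open Finset Pool.Agent.MP_ca1109_lc.Mpg Pool.Agent.MP_ca1109_lc.Agp
open Pool.Agent.MP_ca1109_lc.Xp Pool.Agent.MP_ca1109_lc.Xg
open Pool.Agent.MP_ca1109_lc.Dnf (Cube ch one E mix)

variable {n : ℕ}

/-- The data of a function of heavy monomials times phases of bounded mass. -/
structure HS (r : ℕ) (K V : ℝ) (M H : Finset (Finset (Fin n))) (ψ : Finset (Finset (Fin n)) → ℂ)
    (ζ : Finset (Fin n) → ℂ) : Prop where
  ne : ∀ m ∈ M, m ≠ ∅
  rd : Rd r M
  sub : H ⊆ M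
  lam : Xp.lam H ≤ K
  psi : ∀ A, ‖ψ A‖ ≤ 1
  zeta : ∀ m ∈ M, ‖ζ m‖ = 1
  mass : ∑ m ∈ M, gap ζ m * (1 / 2 : ℝ) ^ m.card ≤ V

/-- The string `Y ω` fools the functions of heavy monomials times phases of bounded mass. -/
def Foolb (r : ℕ) (K V ε₀ : ℝ) {Ω : Type} [Fintype Ω] (Y : Ω → Cube n) : Prop :=
  ∀ (M H : Finset (Finset (Fin n))) (ψ : Finset (Finset (Fin n)) → ℂ) (ζ : Finset (Fin n) → ℂ),
    HS r K V M H ψ ζ → ‖(av fun ω => pt ψ H ζ M (Y ω)) - av (pt ψ H ζ M)‖ ≤ ε₀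

/-- A combination of such functions. -/
def HCb (r : ℕ) (K V B : ℝ) (f : Cube n → ℂ) : Prop :=
  ∃ (ι : Type) (_ : Fintype ι) (c : ι → ℂ) (M H : ι → Finset (Finset (Fin n)))
    (ψ : ι → Finset (Finset (Fin n)) → ℂ) (ζ : ι → Finset (Fin n) → ℂ),
    (∀ j, HS r K V (M j) (H j) (ψ j) (ζ j)) ∧ ∑ j, ‖c j‖ ≤ B ∧
      ∀ x, f x = ∑ j, c j * pt (ψ j) (H j) (ζ j) (M j) x

theorem HS.mono {r r' : ℕ} {K K' V V' : ℝ} {M H : Finset (Finset (Fin n))}
    {ψ : Finset (Finset (Fin n)) → ℂ} {ζ : Finset (Fin n) → ℂ} (h : HS r K V M H ψ ζ) (hr : r ≤ r')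
    (hK : K ≤ K') (hV : V ≤ V') : HS r' K' V' M H ψ ζ :=
  ⟨h.ne, fun i => (h.rd i).trans hr, h.sub, h.lam.trans hK, h.psi, h.zeta, h.mass.trans hV⟩

theorem HCb.mono {r r' : ℕ} {K K' V V' B B' : ℝ} {f : Cube n → ℂ} (h : HCb r K V B f) (hr : r ≤ r')
    (hK : K ≤ K') (hV : V ≤ V') (hB : B ≤ B') : HCb r' K' V' B' f := by
  obtain ⟨ι, hι, c, M, H, ψ, ζ, h1, h2, h3⟩ := h
  exact ⟨ι, hι, c, M, H, ψ, ζ, fun j => (h1 j).mono hr hK hV, h2.trans hB, h3⟩

theorem HCb.of_eq {r : ℕ} {K V B : ℝ} {f g : Cube n → ℂ} (h : HCb r K V B f)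
    (hfg : ∀ x, g x = f x) : HCb r K V B g := by
  have : g = f := funext hfg
  rwa [this]

theorem HCb.nonneg {r : ℕ} {K V B : ℝ} {f : Cube n → ℂ} (h : HCb r K V B f) : 0 ≤ B := by
  obtain ⟨ι, hι, c, M, H, ψ, ζ, h1, h2, h3⟩ := h
  exact (sum_nonneg fun i _ => norm_nonneg (c i)).trans h2

theorem HCb.single {r : ℕ} {K V : ℝ} {M H : Finset (Finset (Fin n))}
    {ψ : Finset (Finset (Fin n)) → ℂ} {ζ : Finset (Fin n) → ℂ} (h : HS r K V M H ψ ζ) :
    HCb r K V 1 (pt ψ H ζ M) := by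
  refine ⟨Unit, inferInstance, fun _ => 1, fun _ => M, fun _ => H, fun _ => ψ, fun _ => ζ,
    fun _ => h, ?_, fun x => ?_⟩
  · simp
  · simp

theorem HCb.const (r : ℕ) {K V : ℝ} (hK : 0 ≤ K) (hV : 0 ≤ V) (b : ℂ) :
    HCb r K V ‖b‖ (fun _ : Cube n => b) := by
  refine ⟨Unit, inferInstance, fun _ => b, fun _ => ∅, fun _ => ∅, fun _ _ => 1, fun _ _ => 1,
    fun _ => ⟨fun m hm => absurd hm (by simp), fun i => by simp, by simp, ?_, fun _ => by simp,
      fun m hm => by simp, ?_⟩, ?_, fun x => ?_⟩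
  · unfold Xp.lam
    simpa using hK
  · simpa using hV
  · simp
  · simp [pt, pr]

theorem HCb.add {r : ℕ} {K V B B' : ℝ} {f g : Cube n → ℂ} (h : HCb r K V B f)
    (h' : HCb r K V B' g) : HCb r K V (B + B') (fun x => f x + g x) := by
  obtain ⟨ι, hι, c, M, H, ψ, ζ, h1, h2, h3⟩ := h
  obtain ⟨ι', hι', c', M', H', ψ', ζ', h1', h2', h3'⟩ := h'
  refine ⟨ι ⊕ ι', inferInstance, Sum.elim c c', Sum.elim M M', Sum.elim H H', Sum.elim ψ ψ',
    Sum.elim ζ ζ', ?_, ?_, fun x => ?_⟩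
  · rintro (i | i)
    · exact h1 i
    · exact h1' i
  · rw [Fintype.sum_sum_type]
    exact add_le_add h2 h2'
  · show f x + g x = _
    rw [Fintype.sum_sum_type, h3, h3']
    rfl

theorem HCb.smul {r : ℕ} {K V B : ℝ} {f : Cube n → ℂ} (a : ℂ) (h : HCb r K V B f) :
    HCb r K V (‖a‖ * B) (fun x => a * f x) := by
  obtain ⟨ι, hι, c, M, H, ψ, ζ, h1, h2, h3⟩ := h
  refine ⟨ι, hι, fun i => a * c i, M, H, ψ, ζ, h1, ?_, fun x => ?_⟩
  · simp only [norm_mul, ← mul_sum]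
    exact mul_le_mul_of_nonneg_left h2 (norm_nonneg _)
  · show a * f x = _
    rw [h3, mul_sum]
    exact sum_congr rfl fun i _ => by ring

theorem HCb.sub {r : ℕ} {K V B B' : ℝ} {f g : Cube n → ℂ} (h : HCb r K V B f)
    (h' : HCb r K V B' g) : HCb r K V (B + B') (fun x => f x - g x) := by
  have h1 := h.add (h'.smul (-1))
  simp only [norm_neg, norm_one, one_mul] at h1
  exact h1.of_eq fun x => by ring

/-- The product of two products. -/
theorem pr_mul' (z z' : Finset (Fin n) → ℂ) (M M' : Finset (Finset (Fin n))) (x : Cube n) :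
    open Classical in
    pr z M x * pr z' M' x = pr (fun m => (if m ∈ M then z m else 1) * if m ∈ M' then z' m else 1)
      (M ∪ M') x := by
  classical
  unfold pr
  have h : ∀ (N : Finset (Finset (Fin n))) (u : Finset (Fin n) → ℂ), N ⊆ M ∪ M' →
      (∏ m ∈ N, if Tr m x then u m else 1) =
        ∏ m ∈ M ∪ M', if Tr m x then (if m ∈ N then u m else 1) else 1 := by
    intro N u hN
    rw [← Finset.prod_subset hN]
    · exact Finset.prod_congr rfl fun m hm => by rw [if_pos hm]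
    · intro m _ hm
      rw [if_neg hm, ite_self]
  rw [h M z Finset.subset_union_left, h M' z' Finset.subset_union_right, ← Finset.prod_mul_distrib]
  refine Finset.prod_congr rfl fun m _ => ?_
  by_cases hm : Tr m x
  · simp only [if_pos hm]
  · simp only [if_neg hm, mul_one]

open Classical in
theorem tru_union_left (H H' : Finset (Finset (Fin n))) (x : Cube n) :
    tru (H ∪ H') x ∩ H = tru H x := by
  unfold tru
  ext m
  simp only [mem_inter, mem_filter, mem_union]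
  tauto

open Classical in
theorem tru_union_right (H H' : Finset (Finset (Fin n))) (x : Cube n) :
    tru (H ∪ H') x ∩ H' = tru H' x := by
  unfold tru
  ext m
  simp only [mem_inter, mem_filter, mem_union]
  tauto

open Classical in
theorem pt_mul (ψ ψ' : Finset (Finset (Fin n)) → ℂ) (H H' : Finset (Finset (Fin n)))
    (z z' : Finset (Fin n) → ℂ) (M M' : Finset (Finset (Fin n))) (x : Cube n) :
    pt ψ H z M x * pt ψ' H' z' M' x =
      pt (fun A => ψ (A ∩ H) * ψ' (A ∩ H')) (H ∪ H')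
        (fun m => (if m ∈ M then z m else 1) * if m ∈ M' then z' m else 1) (M ∪ M') x := by
  have e1 : pr (fun m => (if m ∈ M then z m else 1) * if m ∈ M' then z' m else 1) (M ∪ M') x =
      pr z M x * pr z' M' x := by
    rw [pr_mul']
  unfold pt
  simp only [tru_union_left, tru_union_right]
  rw [e1]
  ring

theorem gap_mul {a b : ℂ} (ha : ‖a‖ = 1) : ‖1 - a * b‖ ^ 2 ≤ 2 * ‖1 - a‖ ^ 2 + 2 * ‖1 - b‖ ^ 2 := by
  have h1 : 1 - a * b = (1 - a) + a * (1 - b) := by ring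
  have h2 : ‖1 - a * b‖ ≤ ‖1 - a‖ + ‖1 - b‖ := by
    rw [h1]
    refine (norm_add_le _ _).trans ?_
    rw [norm_mul, ha, one_mul]
  nlinarith [norm_nonneg (1 - a), norm_nonneg (1 - b), norm_nonneg (1 - a * b),
    sq_nonneg (‖1 - a‖ - ‖1 - b‖)]

open Classical in
theorem HS.mul {r r' : ℕ} {K K' V V' : ℝ} {M M' H H' : Finset (Finset (Fin n))}
    {ψ ψ' : Finset (Finset (Fin n)) → ℂ} {ζ ζ' : Finset (Fin n) → ℂ} (h : HS r K V M H ψ ζ)
    (h' : HS r' K' V' M' H' ψ' ζ') :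
    HS (r + r') (K + K') (2 * V + 2 * V') (M ∪ M') (H ∪ H') (fun A => ψ (A ∩ H) * ψ' (A ∩ H'))
      (fun m => (if m ∈ M then ζ m else 1) * if m ∈ M' then ζ' m else 1) := by
  have hz : ∀ (N : Finset (Finset (Fin n))) (u : Finset (Fin n) → ℂ), (∀ m ∈ N, ‖u m‖ = 1) →
      ∀ m, ‖if m ∈ N then u m else 1‖ = 1 := by
    intro N u hu m
    split_ifs with hm
    · exact hu m hm
    · exact norm_one
  refine ⟨fun m hm => ?_, fun i => ?_, Finset.union_subset_union h.sub h'.sub, ?_, fun A => ?_,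
    fun m _ => ?_, ?_⟩
  · rcases Finset.mem_union.1 hm with hm | hm
    · exact h.ne m hm
    · exact h'.ne m hm
  · rw [Finset.filter_union]
    exact (Finset.card_union_le _ _).trans (add_le_add (h.rd i) (h'.rd i))
  · unfold Xp.lam
    have h1 := Finset.sum_union_inter (s₁ := H) (s₂ := H') (f := fun m => (1 / 2 : ℝ) ^ m.card)
    have h2 : 0 ≤ ∑ m ∈ H ∩ H', (1 / 2 : ℝ) ^ m.card := sum_nonneg fun m _ => by positivity
    have h3 := h.lam
    have h4 := h'.lam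
    unfold Xp.lam at h3 h4
    linarith
  · rw [norm_mul]
    exact mul_le_one₀ (h.psi _) (norm_nonneg _) (h'.psi _)
  · rw [norm_mul, hz M ζ h.zeta, hz M' ζ' h'.zeta, mul_one]
  · have key : ∀ m ∈ M ∪ M', gap (fun m => (if m ∈ M then ζ m else 1) * if m ∈ M' then ζ' m else 1) m *
        (1 / 2 : ℝ) ^ m.card ≤ 2 * (if m ∈ M then gap ζ m * (1 / 2 : ℝ) ^ m.card else 0) +
          2 * (if m ∈ M' then gap ζ' m * (1 / 2 : ℝ) ^ m.card else 0) := by
      intro m _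
      have h1 := gap_mul (a := if m ∈ M then ζ m else 1) (b := if m ∈ M' then ζ' m else 1)
        (hz M ζ h.zeta m)
      have h2 : ∀ (N : Finset (Finset (Fin n))) (u : Finset (Fin n) → ℂ),
          (if m ∈ N then gap u m * (1 / 2 : ℝ) ^ m.card else 0) =
            ‖1 - (if m ∈ N then u m else 1)‖ ^ 2 / 4 * (1 / 2 : ℝ) ^ m.card := by
        intro N u
        split_ifs
        · rfl
        · simp
      rw [h2, h2]
      unfold gap
      have h3 : (0 : ℝ) ≤ (1 / 2 : ℝ) ^ m.card := by positivity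
      calc ‖1 - (if m ∈ M then ζ m else 1) * (if m ∈ M' then ζ' m else 1)‖ ^ 2 / 4 *
            (1 / 2 : ℝ) ^ m.card ≤ (2 * ‖1 - (if m ∈ M then ζ m else 1)‖ ^ 2 +
              2 * ‖1 - (if m ∈ M' then ζ' m else 1)‖ ^ 2) / 4 * (1 / 2 : ℝ) ^ m.card :=
            mul_le_mul_of_nonneg_right (by linarith) h3
        _ = _ := by ring
    refine (sum_le_sum key).trans ?_
    rw [sum_add_distrib, ← mul_sum, ← mul_sum, ← sum_filter, ← sum_filter]
    have e1 : (M ∪ M').filter (fun m => m ∈ M) = M := by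
      ext m; simp only [mem_filter, mem_union]; tauto
    have e2 : (M ∪ M').filter (fun m => m ∈ M') = M' := by
      ext m; simp only [mem_filter, mem_union]; tauto
    rw [e1, e2]
    linarith [h.mass, h'.mass]

theorem HCb.mul {r r' : ℕ} {K K' V V' B B' : ℝ} {f g : Cube n → ℂ} (h : HCb r K V B f)
    (h' : HCb r' K' V' B' g) :
    HCb (r + r') (K + K') (2 * V + 2 * V') (B * B') (fun x => f x * g x) := by
  classical
  obtain ⟨ι, hι, c, M, H, ψ, ζ, h1, h2, h3⟩ := h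
  obtain ⟨ι', hι', c', M', H', ψ', ζ', h1', h2', h3'⟩ := h'
  refine ⟨ι × ι', inferInstance, fun i => c i.1 * c' i.2, fun i => M i.1 ∪ M' i.2,
    fun i => H i.1 ∪ H' i.2, fun i A => ψ i.1 (A ∩ H i.1) * ψ' i.2 (A ∩ H' i.2),
    fun i m => (if m ∈ M i.1 then ζ i.1 m else 1) * if m ∈ M' i.2 then ζ' i.2 m else 1,
    fun i => (h1 i.1).mul (h1' i.2), ?_, fun x => ?_⟩
  · rw [Fintype.sum_prod_type]
    simp only [norm_mul, ← mul_sum, ← sum_mul]
    exact mul_le_mul h2 h2' (sum_nonneg fun _ _ => norm_nonneg _)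
      ((sum_nonneg fun _ _ => norm_nonneg _).trans h2)
  · show f x * g x = _
    rw [h3, h3', Fintype.sum_prod_type, sum_mul_sum]
    refine sum_congr rfl fun i _ => sum_congr rfl fun j _ => ?_
    have e := pt_mul (ψ i) (ψ' j) (H i) (H' j) (ζ i) (ζ' j) (M i) (M' j) x
    rw [show c i * pt (ψ i) (H i) (ζ i) (M i) x * (c' j * pt (ψ' j) (H' j) (ζ' j) (M' j) x) =
      c i * c' j * (pt (ψ i) (H i) (ζ i) (M i) x * pt (ψ' j) (H' j) (ζ' j) (M' j) x) by ring, e]

/-- The error of a combination. -/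
theorem Foolb.err {r : ℕ} {K V B ε₀ : ℝ} (hε : 0 ≤ ε₀) {Ω : Type} [Fintype Ω] {Y : Ω → Cube n}
    (hY : Foolb r K V ε₀ Y) {f : Cube n → ℂ} (hf : HCb r K V B f) :
    ‖(av fun ω => f (Y ω)) - av f‖ ≤ B * ε₀ := by
  obtain ⟨ι, hι, c, M, H, ψ, ζ, h1, h2, h3⟩ := hf
  have e : ∀ {A : Type} [Fintype A] (Z : A → Cube n),
      av (fun ω => f (Z ω)) = ∑ i, c i * av (fun ω => pt (ψ i) (H i) (ζ i) (M i) (Z ω)) := by
    intro A _ Z
    unfold av
    simp only [h3]
    rw [sum_comm, sum_div]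
    refine sum_congr rfl fun i _ => ?_
    rw [← mul_sum, mul_div_assoc]
  have e2 := e (A := Cube n) id
  simp only [id] at e2
  have e3 : av f = av fun ω => f ω := rfl
  rw [e Y, e3, e2, ← sum_sub_distrib]
  refine (norm_sum_le _ _).trans ?_
  refine (sum_le_sum (g := fun i => ‖c i‖ * ε₀) fun i _ => ?_).trans ?_
  · rw [← mul_sub, norm_mul]
    exact mul_le_mul_of_nonneg_left (hY _ _ _ _ (h1 i)) (norm_nonneg _)
  · rw [← sum_mul]
    exact mul_le_mul_of_nonneg_right h2 hε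

theorem Foolb.mono {r r' : ℕ} {K K' V V' ε₀ ε₁ : ℝ} {Ω : Type} [Fintype Ω] {Y : Ω → Cube n}
    (hY : Foolb r' K' V' ε₀ Y) (hr : r ≤ r') (hK : K ≤ K') (hV : V ≤ V') (hε : ε₀ ≤ ε₁) :
    Foolb r K V ε₁ Y := fun M H ψ ζ h => (hY M H ψ ζ (h.mono hr hK hV)).trans hε

theorem Foolb.unif (r : ℕ) (K V : ℝ) {ε₀ : ℝ} (hε : 0 ≤ ε₀) :
    Foolb r K V ε₀ (id : Cube n → Cube n) := by
  intro M H ψ ζ _
  simpa using hε

end Pool.Agent.MP_ca1109_lc.Xh
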