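import Pool.Agent.MP_ca1109_lc.Xh.Defs

/-!
# The choice of the scale
-/

namespace Pool.Agent.MP_ca1109_lc.Xh

open Finset Pool.Agent.MP_ca1109_lc.Mpg Pool.Agent.MP_ca1109_lc.Agp
open Pool.Agent.MP_ca1109_lc.Xp Pool.Agent.MP_ca1109_lc.Xg
open Pool.Agent.MP_ca1109_lc.Dnf (Cube ch one E mix)

variable {n : ℕ}

theorem hsc_half (M : Finset (Finset (Fin n))) (u : Finset (Fin n) → ℝ) (D : ℝ) :
    vd M u (D / 2) ≤ 4 * vd M u D := by
  unfold vd
  rw [mul_sum]
  refine sum_le_sum fun m _ => ?_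
  have h1 : (u m / (D / 2)) ^ 2 = 4 * (u m / D) ^ 2 := by
    rw [div_div_eq_mul_div]
    ring
  rw [h1]
  have h2 : min 1 (4 * (u m / D) ^ 2) ≤ 4 * min 1 ((u m / D) ^ 2) := by
    rcases le_total 1 ((u m / D) ^ 2) with h | h
    · rw [min_eq_left h]
      exact (min_le_left _ _).trans (by norm_num)
    · rw [min_eq_right h]
      exact min_le_right _ _
  have h3 : (0 : ℝ) ≤ (1 / 2) ^ m.card := by positivity
  nlinarith [mul_le_mul_of_nonneg_left h2 h3]

/-- The choice of the scale. -/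
theorem scale (M : Finset (Finset (Fin n))) (u : Finset (Fin n) → ℝ) {K : ℝ} (hK : 0 < K)
    (h0 : ∀ m ∈ M, u m ≠ 0) (h : K < Xp.lam M) : ∃ D : ℝ, 0 < D ∧ vd M u D ≤ K ∧ K ≤ 4 * vd M u D := by
  classical
  set B : ℝ := ∑ m ∈ M, (1 / 2 : ℝ) ^ m.card * (u m) ^ 2 with hB
  have hB0 : 0 ≤ B := sum_nonneg fun m _ => by positivity
  set D₀ : ℝ := Real.sqrt (B / K) + 1 with hD
  have hD0 : 0 < D₀ := by
    have := Real.sqrt_nonneg (B / K)
    linarith
  have hDB : B ≤ K * D₀ ^ 2 := by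
    have h1 : B / K ≤ D₀ ^ 2 := by
      have h2 := Real.sqrt_nonneg (B / K)
      have h3 := Real.sq_sqrt (div_nonneg hB0 hK.le)
      nlinarith
    rw [div_le_iff₀ hK] at h1
    linarith
  have hf0 : vd M u (D₀ / 2 ^ 0) ≤ K := by
    rw [pow_zero, div_one]
    have h1 : vd M u D₀ ≤ B / D₀ ^ 2 := by
      unfold vd
      rw [hB, sum_div]
      refine sum_le_sum fun m _ => ?_
      rw [mul_div_assoc]
      refine mul_le_mul_of_nonneg_left ?_ (by positivity)
      rw [← div_pow]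
      exact min_le_right _ _
    refine h1.trans ?_
    rw [div_le_iff₀ (by positivity)]
    exact hDB
  have hex : ∃ j : ℕ, K < vd M u (D₀ / 2 ^ j) := by
    obtain ⟨c, hc0, hc⟩ : ∃ c : ℝ, 0 < c ∧ ∀ m ∈ M, c ≤ |u m| := by
      rcases M.eq_empty_or_nonempty with hM | hM
      · exact ⟨1, one_pos, by simp [hM]⟩
      · refine ⟨M.inf' hM fun m => |u m|, ?_, fun m hm => inf'_le _ hm⟩
        rw [lt_inf'_iff]
        exact fun m hm => abs_pos.2 (h0 m hm)
    obtain ⟨j, hj⟩ := exists_pow_lt_of_lt_one (div_pos hc0 hD0) (by norm_num : (1 / 2 : ℝ) < 1)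
    refine ⟨j, h.trans_le ?_⟩
    have hjc : D₀ / 2 ^ j ≤ c := by
      have h1 : D₀ / 2 ^ j = D₀ * (1 / 2) ^ j := by
        rw [div_pow, one_pow]
        ring
      rw [h1]
      have h2 := (lt_div_iff₀ hD0).1 hj
      linarith [mul_comm D₀ ((1 / 2 : ℝ) ^ j)]
    have hpos : 0 < D₀ / 2 ^ j := by positivity
    unfold Xp.lam vd
    refine le_of_eq (sum_congr rfl fun m hm => ?_)
    have h3 : 1 ≤ (u m / (D₀ / 2 ^ j)) ^ 2 := by
      rw [← sq_abs, abs_div, abs_of_pos hpos]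
      have h4 : 1 ≤ |u m| / (D₀ / 2 ^ j) := by
        rw [le_div_iff₀ hpos, one_mul]
        exact hjc.trans (hc m hm)
      nlinarith
    rw [min_eq_left h3, mul_one]
  have hspec := Nat.find_spec hex
  have hmin := fun {k : ℕ} (hk : k < Nat.find hex) => Nat.find_min hex hk
  obtain ⟨k, hk⟩ : ∃ k, Nat.find hex = k + 1 := by
    refine Nat.exists_eq_succ_of_ne_zero fun h1 => ?_
    rw [h1] at hspec
    linarith
  refine ⟨D₀ / 2 ^ k, by positivity, not_lt.1 (hmin (by omega)), ?_⟩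
  rw [hk] at hspec
  have h5 : D₀ / 2 ^ (k + 1) = D₀ / 2 ^ k / 2 := by
    rw [pow_succ, div_div]
  rw [h5] at hspec
  exact hspec.le.trans (hsc_half M u _)

end Pool.Agent.MP_ca1109_lc.Xh
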