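import Pool.Agent.MP_ca1109_lc.Xh.Defs
import Pool.Agent.MP_ca1109_lc.Xg.TH1

/-!
# Combinations of functions of the heavy monomials times products of unimodular weights
-/

namespace Pool.Agent.MP_ca1109_lc.Xh

open Finset Pool.Agent.H66 Pool.Agent.MP_ca1109_lc.Mpg Pool.Agent.MP_ca1109_lc.Agp
open Pool.Agent.MP_ca1109_lc.Xp Pool.Agent.MP_ca1109_lc.Xg
open Pool.Agent.MP_ca1109_lc.Dnf (Cube ch one one_le one_nonneg one_true one_false)

variable {n : ℕ}

/-- The string `X ω` fools, with error at most `ε`, all functions of the true heavy monomials times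
products of unimodular weights of monomials of read `r`, if the heavy monomials have mass at most
`K`. -/
def HFools (r : ℕ) (K ε : ℝ) {Ω : Type*} [Fintype Ω] (X : Ω → Cube n) : Prop :=
  ∀ (M H : Finset (Finset (Fin n))) (ψ : Finset (Finset (Fin n)) → ℂ) (ζ : Finset (Fin n) → ℂ),
    Rd r M → H ⊆ M → Xp.lam H ≤ K → (∀ A, ‖ψ A‖ ≤ 1) → (∀ m ∈ M, ‖ζ m‖ = 1) →
    ‖av (fun ω => pt ψ H ζ M (X ω)) - av (pt ψ H ζ M)‖ ≤ ε

/-- Combinations with coefficients of total size at most `B`. -/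
def HC (M H : Finset (Finset (Fin n))) (B : ℝ) (f : Cube n → ℂ) : Prop :=
  ∃ (ι : Type) (_ : Fintype ι) (c : ι → ℂ) (ψ : ι → Finset (Finset (Fin n)) → ℂ)
    (ζ : ι → Finset (Fin n) → ℂ), (∀ i A, ‖ψ i A‖ ≤ 1) ∧ (∀ i, ∀ m ∈ M, ‖ζ i m‖ = 1) ∧
    (∑ i, ‖c i‖ ≤ B) ∧ ∀ x, f x = ∑ i, c i * pt (ψ i) H (ζ i) M x

theorem xfi_pt_mul (ψ ψ' : Finset (Finset (Fin n)) → ℂ) (ζ ζ' : Finset (Fin n) → ℂ)
    (M H : Finset (Finset (Fin n))) (x : Cube n) :
    pt (fun A => ψ A * ψ' A) H (fun m => ζ m * ζ' m) M x = pt ψ H ζ M x * pt ψ' H ζ' M x := by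
  unfold pt
  rw [Xg.xth_pr_mul]
  ring

section hc

variable {M H : Finset (Finset (Fin n))} {B B' : ℝ} {f g : Cube n → ℂ}

theorem HC.mono (h : HC M H B f) (hB : B ≤ B') : HC M H B' f := by
  obtain ⟨ι, hι, c, ψ, ζ, h0, h1, h2, h3⟩ := h
  exact ⟨ι, hι, c, ψ, ζ, h0, h1, h2.trans hB, h3⟩

theorem HC.of_eq (h : HC M H B f) (hfg : ∀ x, f x = g x) : HC M H B g := by
  obtain ⟨ι, hι, c, ψ, ζ, h0, h1, h2, h3⟩ := h
  exact ⟨ι, hι, c, ψ, ζ, h0, h1, h2, fun x => (hfg x).symm.trans (h3 x)⟩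

theorem HC.const (c : ℂ) : HC M H ‖c‖ (fun _ => c) := by
  refine ⟨Unit, inferInstance, fun _ => c, fun _ _ => 1, fun _ _ => 1,
    fun _ _ => by simp, fun _ _ _ => norm_one, ?_, fun x => ?_⟩
  · simp
  · simp [pt, Xg.xth_pr_one]

theorem HC.pt {ψ : Finset (Finset (Fin n)) → ℂ} {ζ : Finset (Fin n) → ℂ} (hψ : ∀ A, ‖ψ A‖ ≤ 1)
    (hζ : ∀ m ∈ M, ‖ζ m‖ = 1) : HC M H 1 (Xh.pt ψ H ζ M) := by
  refine ⟨Unit, inferInstance, fun _ => 1, fun _ => ψ, fun _ => ζ, fun _ => hψ, fun _ => hζ, ?_,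
    fun x => ?_⟩
  · simp
  · simp

theorem HC.add (h : HC M H B f) (h' : HC M H B' g) : HC M H (B + B') (fun x => f x + g x) := by
  obtain ⟨ι, hι, c, ψ, ζ, h0, h1, h2, h3⟩ := h
  obtain ⟨ι', hι', c', ψ', ζ', h0', h1', h2', h3'⟩ := h'
  refine ⟨ι ⊕ ι', inferInstance, Sum.elim c c', Sum.elim ψ ψ', Sum.elim ζ ζ', ?_, ?_, ?_,
    fun x => ?_⟩
  · rintro (i | i) A
    · exact h0 i A
    · exact h0' i A
  · rintro (i | i) m hm
    · exact h1 i m hm
    · exact h1' i m hm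
  · rw [Fintype.sum_sum_type]
    exact add_le_add h2 h2'
  · show f x + g x = _
    rw [Fintype.sum_sum_type, h3, h3']
    rfl

theorem HC.smul (a : ℂ) (h : HC M H B f) : HC M H (‖a‖ * B) (fun x => a * f x) := by
  obtain ⟨ι, hι, c, ψ, ζ, h0, h1, h2, h3⟩ := h
  refine ⟨ι, hι, fun i => a * c i, ψ, ζ, h0, h1, ?_, fun x => ?_⟩
  · simp only [norm_mul, ← mul_sum]
    exact mul_le_mul_of_nonneg_left h2 (norm_nonneg _)
  · show a * f x = ∑ i, a * c i * Xh.pt (ψ i) H (ζ i) M x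
    rw [h3, mul_sum]
    exact sum_congr rfl fun i _ => by ring

theorem HC.mul (h : HC M H B f) (h' : HC M H B' g) : HC M H (B * B') (fun x => f x * g x) := by
  obtain ⟨ι, hι, c, ψ, ζ, h0, h1, h2, h3⟩ := h
  obtain ⟨ι', hι', c', ψ', ζ', h0', h1', h2', h3'⟩ := h'
  refine ⟨ι × ι', inferInstance, fun i => c i.1 * c' i.2, fun i A => ψ i.1 A * ψ' i.2 A,
    fun i m => ζ i.1 m * ζ' i.2 m, ?_, ?_, ?_, fun x => ?_⟩
  · intro i A
    rw [norm_mul]
    exact mul_le_one₀ (h0 _ _) (norm_nonneg _) (h0' _ _)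
  · intro i m hm
    rw [norm_mul, h1 _ m hm, h1' _ m hm, one_mul]
  · rw [Fintype.sum_prod_type]
    simp only [norm_mul, ← mul_sum, ← sum_mul]
    exact mul_le_mul h2 h2' (sum_nonneg fun _ _ => norm_nonneg _)
      ((sum_nonneg fun _ _ => norm_nonneg _).trans h2)
  · show f x * g x = _
    rw [h3, h3', Fintype.sum_prod_type, sum_mul_sum]
    refine sum_congr rfl fun i _ => sum_congr rfl fun j _ => ?_
    rw [xfi_pt_mul]
    ring

theorem HC.sum {ι : Type*} (s : Finset ι) (b : ι → ℝ) (F : ι → Cube n → ℂ)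
    (h : ∀ i ∈ s, HC M H (b i) (F i)) : HC M H (∑ i ∈ s, b i) (fun x => ∑ i ∈ s, F i x) := by
  classical
  induction s using Finset.induction_on with
  | empty =>
    simp only [sum_empty]
    exact (HC.const (M := M) (H := H) 0).mono (by simp)
  | insert a s ha ih =>
    simp only [sum_insert ha]
    exact (h a (mem_insert_self a s)).add (ih fun i hi => h i (mem_insert_of_mem hi))

theorem HC.prod {ι : Type*} (s : Finset ι) (b : ι → ℝ) (F : ι → Cube n → ℂ)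
    (h : ∀ i ∈ s, HC M H (b i) (F i)) : HC M H (∏ i ∈ s, b i) (fun x => ∏ i ∈ s, F i x) := by
  classical
  induction s using Finset.induction_on with
  | empty =>
    simp only [prod_empty]
    exact (HC.const (M := M) (H := H) 1).mono (by simp)
  | insert a s ha ih =>
    simp only [prod_insert ha]
    exact (h a (mem_insert_self a s)).mul (ih fun i hi => h i (mem_insert_of_mem hi))

theorem HC.of_cmb (h : Xg.Cmb M B f) : HC M H B f := by
  obtain ⟨ι, hι, c, ζ, h1, h2, h3⟩ := h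
  refine ⟨ι, hι, c, fun _ _ => 1, ζ, fun _ _ => by simp, h1, h2, fun x => ?_⟩
  rw [h3]
  exact sum_congr rfl fun i _ => by simp [Xh.pt]

open Classical in
theorem xfi_tru (H H' : Finset (Finset (Fin n))) (h : H ⊆ H') (x : Cube n) :
    tru H' x ∩ H = tru H x := by
  unfold tru
  ext m
  simp only [mem_inter, mem_filter]
  constructor
  · rintro ⟨⟨_, h1⟩, h2⟩
    exact ⟨h2, h1⟩
  · rintro ⟨h1, h2⟩
    exact ⟨⟨h h1, h2⟩, h1⟩

theorem HC.sup {M' H' : Finset (Finset (Fin n))} (hM : M ⊆ M') (hH : H ⊆ H')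
    (hf : HC M H B f) : HC M' H' B f := by
  classical
  obtain ⟨ι, hι, c, ψ, ζ, h0, h1, h2, h3⟩ := hf
  refine ⟨ι, hι, c, fun i A => ψ i (A ∩ H), fun i m => if m ∈ M then ζ i m else 1,
    fun i A => h0 i _, fun i m _ => ?_, h2, fun x => ?_⟩
  · show ‖if m ∈ M then ζ i m else 1‖ = 1
    split_ifs with hm
    · exact h1 i m hm
    · exact norm_one
  · rw [h3]
    refine sum_congr rfl fun i _ => ?_
    congr 1
    unfold Xh.pt
    congr 1
    · show ψ i (tru H x) = ψ i (tru H' x ∩ H)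
      congr 1
      rw [← xfi_tru H H' hH x]
    · unfold Xp.pr
      symm
      refine (prod_subset hM fun m _ hm => ?_).symm.trans ?_
      · show (if Tr m x then (if m ∈ M then ζ i m else 1) else 1) = 1
        rw [if_neg hm, ite_self]
      · refine prod_congr rfl fun m hm => ?_
        show (if Tr m x then (if m ∈ M then ζ i m else 1) else 1) = _
        rw [if_pos hm]

theorem HFools.hc {r : ℕ} {K ε : ℝ} (hε : 0 ≤ ε) {Ω : Type*} [Fintype Ω] {X : Ω → Cube n}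
    (hX : HFools r K ε X) (hM : Rd r M) (hH : H ⊆ M) (hK : Xp.lam H ≤ K) (hf : HC M H B f) :
    ‖av (fun ω => f (X ω)) - av f‖ ≤ B * ε := by
  obtain ⟨ι, hι, c, ψ, ζ, h0, h1, h2, h3⟩ := hf
  have e : av (fun ω => f (X ω)) = ∑ i, c i * av (fun ω => Xh.pt (ψ i) H (ζ i) M (X ω)) := by
    unfold av
    simp only [h3]
    rw [sum_comm, sum_div]
    refine sum_congr rfl fun i _ => ?_
    rw [← mul_sum, mul_div_assoc]
  have e2 : av f = ∑ i, c i * av (Xh.pt (ψ i) H (ζ i) M) := by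
    unfold av
    simp only [h3]
    rw [sum_comm, sum_div]
    refine sum_congr rfl fun i _ => ?_
    rw [← mul_sum, mul_div_assoc]
  rw [e, e2, ← sum_sub_distrib]
  refine (norm_sum_le _ _).trans ?_
  calc ∑ i, ‖c i * av (fun ω => Xh.pt (ψ i) H (ζ i) M (X ω)) - c i * av (Xh.pt (ψ i) H (ζ i) M)‖
      ≤ ∑ i, ‖c i‖ * ε := by
        refine sum_le_sum fun i _ => ?_
        rw [← mul_sub, norm_mul]
        exact mul_le_mul_of_nonneg_left (hX M H (ψ i) (ζ i) hM hH hK (h0 i) (h1 i)) (norm_nonneg _)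
    _ = (∑ i, ‖c i‖) * ε := by rw [sum_mul]
    _ ≤ B * ε := mul_le_mul_of_nonneg_right h2 hε

end hc

/-! ## Boolean functions of approximable tests -/

theorem xfi_prod_norm {ι : Type*} (s : Finset ι) (b : ι → ℂ) (hb : ∀ i ∈ s, ‖b i‖ ≤ 3) :
    ‖∏ i ∈ s, b i‖ ≤ 3 ^ s.card := by
  rw [norm_prod]
  calc ∏ i ∈ s, ‖b i‖ ≤ ∏ _i ∈ s, (3 : ℝ) := prod_le_prod (fun _ _ => norm_nonneg _) hb
    _ = 3 ^ s.card := by rw [prod_const]

theorem xfi_prod_diff {ι : Type*} (s : Finset ι) (a b : ι → ℂ) (ha : ∀ i ∈ s, ‖a i‖ ≤ 3)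
    (hb : ∀ i ∈ s, ‖b i‖ ≤ 3) :
    ‖∏ i ∈ s, a i - ∏ i ∈ s, b i‖ ≤ 3 ^ s.card * ∑ i ∈ s, ‖a i - b i‖ := by
  classical
  induction s using Finset.induction_on with
  | empty => simp
  | insert j s hj ih =>
    rw [prod_insert hj, prod_insert hj, sum_insert hj, card_insert_of_notMem hj]
    have h1 := ih (fun i hi => ha i (mem_insert_of_mem hi)) (fun i hi => hb i (mem_insert_of_mem hi))
    have hp := xfi_prod_norm s b fun i hi => hb i (mem_insert_of_mem hi)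
    have e : a j * ∏ i ∈ s, a i - b j * ∏ i ∈ s, b i =
        a j * (∏ i ∈ s, a i - ∏ i ∈ s, b i) + (a j - b j) * ∏ i ∈ s, b i := by ring
    rw [e]
    refine (norm_add_le _ _).trans ?_
    rw [norm_mul, norm_mul]
    have h2 : ‖a j‖ * ‖∏ i ∈ s, a i - ∏ i ∈ s, b i‖ ≤ 3 * (3 ^ s.card * ∑ i ∈ s, ‖a i - b i‖) :=
      mul_le_mul (ha j (mem_insert_self j s)) h1 (norm_nonneg _) (by norm_num)
    have h3 : ‖a j - b j‖ * ‖∏ i ∈ s, b i‖ ≤ ‖a j - b j‖ * 3 ^ s.card :=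
      mul_le_mul_of_nonneg_left hp (norm_nonneg _)
    have h4 : (3 : ℝ) ^ s.card ≤ 3 ^ (s.card + 1) := pow_le_pow_right₀ (by norm_num) (Nat.le_succ _)
    have h5 : ‖a j - b j‖ * 3 ^ s.card ≤ ‖a j - b j‖ * 3 ^ (s.card + 1) :=
      mul_le_mul_of_nonneg_left h4 (norm_nonneg _)
    calc ‖a j‖ * ‖∏ i ∈ s, a i - ∏ i ∈ s, b i‖ + ‖a j - b j‖ * ‖∏ i ∈ s, b i‖
        ≤ 3 * (3 ^ s.card * ∑ i ∈ s, ‖a i - b i‖) + ‖a j - b j‖ * 3 ^ (s.card + 1) := by linarith
      _ = 3 ^ (s.card + 1) * (‖a j - b j‖ + ∑ i ∈ s, ‖a i - b i‖) := by ring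

/-- The multilinear extension of a Boolean function. -/
noncomputable def Ph {K : ℕ} (F : (Fin K → Bool) → Bool) (h : Fin K → ℂ) : ℂ :=
  ∑ A : Fin K → Bool, ((ind (F A) : ℝ) : ℂ) * ∏ i, (if A i = true then h i else 1 - h i)

theorem Ph_ind {K : ℕ} (F : (Fin K → Bool) → Bool) (b : Fin K → Bool) :
    Ph F (fun i => ((ind (b i) : ℝ) : ℂ)) = ((ind (F b) : ℝ) : ℂ) := by
  rw [← Xg.Phi_ind F b]
  unfold Ph Xg.Phi
  push_cast
  refine sum_congr rfl fun A _ => ?_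
  congr 1
  refine prod_congr rfl fun i _ => ?_
  split_ifs
  · rfl
  · push_cast
    rfl

theorem Ph_diff {K : ℕ} (F : (Fin K → Bool) → Bool) (h h' : Fin K → ℂ) (hb : ∀ i, ‖h i‖ ≤ 2)
    (hb' : ∀ i, ‖h' i‖ ≤ 2) : ‖Ph F h - Ph F h'‖ ≤ 2 ^ K * (3 ^ K * ∑ i, ‖h i - h' i‖) := by
  have h3 : ∀ (g : Fin K → ℂ) (A : Fin K → Bool), (∀ i, ‖g i‖ ≤ 2) →
      ∀ i, ‖(if A i = true then g i else 1 - g i)‖ ≤ 3 := by
    intro g A hg i
    split_ifs
    · linarith [hg i]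
    · refine (norm_sub_le _ _).trans ?_
      rw [norm_one]
      linarith [hg i]
  unfold Ph
  rw [← sum_sub_distrib]
  refine (norm_sum_le _ _).trans ?_
  have key : ∀ A : Fin K → Bool, ‖((ind (F A) : ℝ) : ℂ) * ∏ i, (if A i = true then h i else 1 - h i) -
      ((ind (F A) : ℝ) : ℂ) * ∏ i, (if A i = true then h' i else 1 - h' i)‖ ≤
      3 ^ K * ∑ i, ‖h i - h' i‖ := by
    intro A
    rw [← mul_sub, norm_mul, Complex.norm_real, Real.norm_of_nonneg (ind_nonneg _)]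
    have h1 := xfi_prod_diff univ _ _ (fun i _ => h3 h A hb i) (fun i _ => h3 h' A hb' i)
    rw [card_univ, Fintype.card_fin] at h1
    have h2 : ∑ i, ‖(if A i = true then h i else 1 - h i) - (if A i = true then h' i else 1 - h' i)‖ =
        ∑ i, ‖h i - h' i‖ := by
      refine sum_congr rfl fun i _ => ?_
      split_ifs
      · rfl
      · rw [show 1 - h i - (1 - h' i) = -(h i - h' i) by ring, norm_neg]
    rw [h2] at h1
    calc ind (F A) * ‖_‖ ≤ 1 * ‖∏ i, (if A i = true then h i else 1 - h i) -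
        ∏ i, (if A i = true then h' i else 1 - h' i)‖ :=
          mul_le_mul_of_nonneg_right (ind_le_one _) (norm_nonneg _)
      _ ≤ _ := by rw [one_mul]; exact h1
  refine (sum_le_sum fun A _ => key A).trans_eq ?_
  rw [sum_const, card_univ, Fintype.card_fun, Fintype.card_bool, Fintype.card_fin, nsmul_eq_mul]
  push_cast
  rfl

theorem Ph_hc {K : ℕ} (F : (Fin K → Bool) → Bool) {M H : Finset (Finset (Fin n))} {C : ℝ}
    (G : Fin K → Cube n → ℂ) (hG : ∀ i, HC M H C (G i)) (hC : 0 ≤ C) :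
    HC M H (2 ^ K * (1 + C) ^ K) (fun x => Ph F (fun i => G i x)) := by
  have h1 : ∀ A : Fin K → Bool, HC M H ((1 + C) ^ K)
      (fun x => ((ind (F A) : ℝ) : ℂ) * ∏ i, (if A i = true then G i x else 1 - G i x)) := by
    intro A
    have h2 : ∀ i : Fin K, HC M H (1 + C) (fun x => (if A i = true then G i x else 1 - G i x)) := by
      intro i
      by_cases hA : A i = true
      · simp only [hA, if_true]
        exact (hG i).mono (by linarith)
      · simp only [hA]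
        have := (HC.const (M := M) (H := H) 1).add ((hG i).smul (-1))
        refine (this.of_eq fun x => ?_).mono ?_
        · simp only [Bool.false_eq_true, if_false]
          ring
        · simp
    have h3 := HC.prod (univ : Finset (Fin K)) (fun _ => 1 + C) _ fun i _ => h2 i
    have h4 := h3.smul ((ind (F A) : ℝ) : ℂ)
    refine h4.mono ?_
    rw [prod_const, card_univ, Fintype.card_fin, Complex.norm_real,
      Real.norm_of_nonneg (ind_nonneg _)]
    calc ind (F A) * (1 + C) ^ K ≤ 1 * (1 + C) ^ K :=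
          mul_le_mul_of_nonneg_right (ind_le_one _) (by positivity)
      _ = _ := one_mul _
  have h2 := HC.sum (univ : Finset (Fin K → Bool)) (fun _ => (1 + C) ^ K) _ fun A _ => h1 A
  refine (h2.of_eq fun x => rfl).mono (le_of_eq ?_)
  rw [sum_const, card_univ, Fintype.card_fun, Fintype.card_bool, Fintype.card_fin, nsmul_eq_mul]
  push_cast
  rfl

theorem xfi_norm_av_sub {A : Type*} [Fintype A] (f g : A → ℂ) :
    ‖av f - av g‖ ≤ avg fun a => ‖f a - g a‖ := by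
  have : av f - av g = av (fun a => f a - g a) := by
    unfold av
    rw [sum_sub_distrib, sub_div]
  rw [this]
  exact norm_av_le _

theorem xfi_close {K : ℕ} {ε₁ : ℝ} (F : (Fin K → Bool) → Bool)
    (b : Fin K → Cube n → Bool) (G : Fin K → Cube n → ℂ) (h01 : ∀ i x, ‖G i x‖ ≤ 2)
    {A : Type*} [Fintype A] (Y : A → Cube n)
    (hY : ∀ i, (avg fun ω => ‖((ind (b i (Y ω)) : ℝ) : ℂ) - G i (Y ω)‖) ≤ ε₁) :
    ‖(av fun ω => ((ind (F fun i => b i (Y ω)) : ℝ) : ℂ)) - av fun ω => Ph F fun i => G i (Y ω)‖ ≤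
      2 ^ K * (3 ^ K * (K * ε₁)) := by
  refine (xfi_norm_av_sub _ _).trans ?_
  have h1 : ∀ ω, ‖((ind (F fun i => b i (Y ω)) : ℝ) : ℂ) - Ph F fun i => G i (Y ω)‖ ≤
      2 ^ K * (3 ^ K * ∑ i, ‖((ind (b i (Y ω)) : ℝ) : ℂ) - G i (Y ω)‖) := by
    intro ω
    rw [← Ph_ind]
    refine Ph_diff F _ _ (fun i => ?_) fun i => h01 i _
    rw [Complex.norm_real, Real.norm_of_nonneg (ind_nonneg _)]
    linarith [ind_le_one (b i (Y ω))]
  refine (avg_mono h1).trans ?_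
  rw [avg_mul_left, avg_mul_left, avg_sum]
  refine mul_le_mul_of_nonneg_left (mul_le_mul_of_nonneg_left ?_ (by positivity)) (by positivity)
  refine (sum_le_sum fun i _ => hY i).trans_eq ?_
  rw [sum_const, card_univ, Fintype.card_fin, nsmul_eq_mul]

/-- Boolean functions of approximable tests are fooled. -/
theorem xfi_bool {K r : ℕ} {Λ ε₀ ε₁ C : ℝ} (hε₀ : 0 ≤ ε₀) (hC : 0 ≤ C)
    {M H : Finset (Finset (Fin n))} (hM : Rd r M) (hHM : H ⊆ M) (hΛ : Xp.lam H ≤ Λ)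
    (F : (Fin K → Bool) → Bool)
    (b : Fin K → Cube n → Bool) (G : Fin K → Cube n → ℂ) (h01 : ∀ i x, ‖G i x‖ ≤ 2)
    (hG : ∀ i, HC M H C (G i)) {Ω : Type*} [Fintype Ω] {X : Ω → Cube n}
    (hX : HFools r Λ ε₀ X) (hU : ∀ i, (avg fun x => ‖((ind (b i x) : ℝ) : ℂ) - G i x‖) ≤ ε₁)
    (hXi : ∀ i, (avg fun ω => ‖((ind (b i (X ω)) : ℝ) : ℂ) - G i (X ω)‖) ≤ ε₁) :
    |(avg fun ω => ind (F fun i => b i (X ω))) - avg fun x => ind (F fun i => b i x)| ≤
      2 * (2 ^ K * (3 ^ K * (K * ε₁))) + 2 ^ K * (1 + C) ^ K * ε₀ := by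
  have h1 := xfi_close F b G h01 X hXi
  have h2 := xfi_close F b G h01 (fun x : Cube n => x) hU
  have h3 := hX.hc hε₀ hM hHM hΛ (Ph_hc F G hG hC)
  rw [← Real.norm_eq_abs, ← Complex.norm_real, Complex.ofReal_sub, Xg.xth_ofReal_avg,
    Xg.xth_ofReal_avg]
  have e : (av fun ω => ((ind (F fun i => b i (X ω)) : ℝ) : ℂ)) -
      (av fun x : Cube n => ((ind (F fun i => b i x) : ℝ) : ℂ)) =
      ((av fun ω => ((ind (F fun i => b i (X ω)) : ℝ) : ℂ)) - av fun ω => Ph F fun i => G i (X ω)) +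
      (((av fun ω => Ph F fun i => G i (X ω)) - av fun x => Ph F fun i => G i x) -
      ((av fun x : Cube n => ((ind (F fun i => b i x) : ℝ) : ℂ)) - av fun x => Ph F fun i => G i x)) := by
    ring
  rw [e]
  refine (norm_add_le _ _).trans ?_
  refine (add_le_add h1 ((norm_sub_le _ _).trans (add_le_add h3 h2))).trans_eq ?_
  ring

end Pool.Agent.MP_ca1109_lc.Xh
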