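import Pool.Agent.MP_ca1109_lc.Xh.Defs
import Pool.Agent.MP_ca1109_lc.Xh.AN
import Pool.Agent.MP_ca1109_lc.Xg.SM

/-!
# Anticoncentration of real statistics
-/

namespace Pool.Agent.MP_ca1109_lc.Xh

open Finset Pool.Agent.MP_ca1109_lc.Mpg Pool.Agent.MP_ca1109_lc.Agp
open Pool.Agent.MP_ca1109_lc.Xp Pool.Agent.MP_ca1109_lc.Xg
open Pool.Agent.MP_ca1109_lc.Dnf (Cube ch one E mix)

variable {n : ℕ}

theorem eu_eq (t : ℝ) (u : Finset (Fin n) → ℝ) (m : Finset (Fin n)) :
    eu t u m = Complex.exp ((t * u m : ℝ) * Complex.I) := by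
  unfold eu
  rw [mul_comm]
  push_cast
  rfl

theorem norm_eu (t : ℝ) (u : Finset (Fin n) → ℝ) (m : Finset (Fin n)) : ‖eu t u m‖ = 1 := by
  rw [eu_eq, Complex.norm_exp_ofReal_mul_I]

/-- The characters of the real statistic. -/
theorem pr_eu (M : Finset (Finset (Fin n))) (t : ℝ) (u : Finset (Fin n) → ℝ) (x : Cube n) :
    pr (eu t u) M x = Complex.exp ((t * rst M u x : ℝ) * Complex.I) := by
  classical
  unfold pr rst
  have h1 : ((t * ∑ m ∈ M, u m * mon m x : ℝ) : ℂ) * Complex.I =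
      ∑ m ∈ M, ((t * (u m * mon m x) : ℝ) : ℂ) * Complex.I := by
    push_cast
    rw [mul_sum, sum_mul]
  rw [h1, Complex.exp_sum]
  refine prod_congr rfl fun m _ => ?_
  unfold mon
  split_ifs with h
  · rw [eu_eq, Dnf.one_true h, mul_one]
  · rw [Dnf.one_false h, mul_zero, mul_zero, Complex.ofReal_zero, zero_mul, Complex.exp_zero]

/-- Most phases have large mass, so every distribution which is close to the uniform one for the
phases is spread at scale `D`. -/
theorem anti (r : ℕ) {ε : ℝ} (hε : 0 < ε) : ∃ K : ℝ, ∀ (n : ℕ) (M : Finset (Finset (Fin n)))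
    (u : Finset (Fin n) → ℝ) (D : ℝ), Rd r M → (∀ m ∈ M, m ≠ ∅) → 0 < D → K ≤ vd M u D →
      ∀ {Ω : Type} [Fintype Ω] [Nonempty Ω] (Y : Ω → Cube n) (ε₀ : ℝ),
        (∀ t : ℝ, ‖(av fun ω => pr (eu t u) M (Y ω)) - av (pr (eu t u) M)‖ ≤ ε₀) →
        ∀ θ : ℝ, (avg fun ω => one (|rst M u (Y ω) - θ| ≤ D)) ≤ ε + 4 * ε₀ := by
  obtain ⟨V₀, hV₀⟩ := Xg.small_av r (show 0 < ε / 16 by positivity)
  set η : ℝ := min 1 (ε / 512) with hη
  have hη0 : 0 < η := lt_min one_pos (by positivity)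
  have hη1 : η ≤ 1 := min_le_left _ _
  have hη2 : η ≤ ε / 512 := min_le_right _ _
  refine ⟨max 1 (2 * V₀ / η ^ 2), fun n M u D hM h0 hD hK Ω _ _ Y ε₀ hc θ => ?_⟩
  have hK1 : 1 ≤ vd M u D := (le_max_left _ _).trans hK
  have hK2 : 2 * V₀ / η ^ 2 ≤ vd M u D := (le_max_right _ _).trans hK
  have hε₀ : 0 ≤ ε₀ := (norm_nonneg _).trans (hc 0)
  have h := anticonc M (fun m => (1 / 2 : ℝ) ^ m.card) u (fun m _ => by positivity) (D := D)
    (η := η) (V₀ := V₀) (ε := ε / 16 + ε₀) hD hη0 hη1 (by positivity)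
    (show 0 < vd M u D by linarith) (by
      show V₀ ≤ η ^ 2 / 2 * vd M u D
      rw [div_le_iff₀ (by positivity)] at hK2
      linarith) (fun ω => rst M u (Y ω)) θ (by
      intro t ht
      have h1 : ‖av (pr (eu t u) M)‖ ≤ ε / 16 := by
        refine hV₀ n M (eu t u) hM h0 (fun m _ => norm_eu t u m) (ht.trans (le_of_eq ?_))
        refine sum_congr rfl fun m _ => ?_
        rw [eu_eq, mul_comm]
      have h2 : (fun ω => Complex.exp ((t * rst M u (Y ω) : ℝ) * Complex.I)) =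
          fun ω => pr (eu t u) M (Y ω) := by
        funext ω
        rw [pr_eu]
      rw [h2]
      have h3 := norm_add_le ((av fun ω => pr (eu t u) M (Y ω)) - av (pr (eu t u) M))
        (av (pr (eu t u) M))
      rw [sub_add_cancel] at h3
      linarith [hc t])
  linarith

end Pool.Agent.MP_ca1109_lc.Xh
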