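import Pool.Agent.MP_ca1109_lc.Xh.Defs
import Pool.Agent.MP_ca1109_lc.Xg.BH

/-!
# Small bias fools functions of the heavy terms times products of weights of bounded energy
-/

namespace Pool.Agent.MP_ca1109_lc.Xh

open Finset Pool.Agent.MP_ca1109_lc.Mpg Pool.Agent.MP_ca1109_lc.Agp
open Pool.Agent.MP_ca1109_lc.Xp Pool.Agent.MP_ca1109_lc.Xg
open Pool.Agent.MP_ca1109_lc.Dnf (Cube ch one E mix Term)

variable {n : ℕ}

theorem hbb (r : ℕ) (K V : ℝ) {ε : ℝ} (hε : 0 < ε) : ∃ C n₀ : ℕ, ∀ n ≥ n₀, ∀ (N : ℕ)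
    (T : Fin N → Dnf.Term n) (z : Fin N → ℂ) (J : Finset (Fin N)) (ψ : Finset (Fin N) → ℂ),
      (∀ j, (T j).S.Nonempty) → Dnf.Read r T → (∀ j, ‖z j‖ = 1) → (∀ A, ‖ψ A‖ ≤ 1) →
      ∑ j, (1 / 2 : ℝ) ^ (T j).S.card * ‖1 - z j‖ ^ 2 ≤ V →
      ∑ j ∈ J, (1 / 2 : ℝ) ^ (T j).S.card ≤ K →
      ∀ {Ω : Type} [Fintype Ω] [Nonempty Ω] (Y : Ω → Cube n) (δ : ℝ), 0 ≤ δ → δ * (n : ℝ) ^ C ≤ 1 →
        Bias δ Y → ‖(av fun ω => ψ (trt T J (Y ω)) * htv T z (Y ω)) -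
          av fun x => ψ (trt T J x) * htv T z x‖ ≤ ε := by
  obtain ⟨C, hC⟩ := bbH r K V (half_pos hε)
  obtain ⟨n₁, hn₁⟩ := exists_nat_ge (((C : ℝ) * (2 * (r : ℝ) + 1)) ^ C / (ε / 2))
  refine ⟨C + 1, n₁ + 1, ?_⟩
  intro n hn N T z J ψ h0 hread hz hψ hV hK Ω _ _ Y δ hδ hδn hY
  have h1 := hC (univ : Finset (Fin N)) T z J T ψ hread (fun j _ => hz j) hV
    (fun v => (card_le_card (filter_subset_filter _ (subset_univ J))).trans (hread v)) hK hψ Y δ hδ hY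
  have hJr : J.card ≤ N := by
    have := card_le_card (subset_univ J)
    rwa [card_univ, Fintype.card_fin] at this
  have hNr : N ≤ r * n := by
    have := bb_card (univ : Finset (Fin N)) T hread fun j _ => h0 j
    rwa [card_univ, Fintype.card_fin] at this
  have hn1 : (1 : ℝ) ≤ n := by exact_mod_cast (by omega : 1 ≤ n)
  have hcard : ((univ : Finset (Fin N)).card : ℝ) + J.card + 1 ≤ (2 * (r : ℝ) + 1) * n := by
    have e1 : (N : ℝ) ≤ r * n := by exact_mod_cast hNr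
    have e2 : (J.card : ℝ) ≤ N := by exact_mod_cast hJr
    rw [card_univ, Fintype.card_fin]
    linarith
  have hC0 : (0 : ℝ) ≤ C := Nat.cast_nonneg _
  have h2 : ((C : ℝ) * (((univ : Finset (Fin N)).card : ℝ) + J.card + 1)) ^ C ≤
      ((C : ℝ) * (2 * (r : ℝ) + 1)) ^ C * (n : ℝ) ^ C := by
    rw [← mul_pow]
    refine pow_le_pow_left₀ (by positivity) ?_ C
    rw [mul_assoc]
    exact mul_le_mul_of_nonneg_left hcard hC0
  have h3 : ((C : ℝ) * (2 * (r : ℝ) + 1)) ^ C ≤ ε / 2 * n := by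
    have h4 : (n₁ : ℝ) ≤ n := by exact_mod_cast (by omega : n₁ ≤ n)
    have := hn₁.trans h4
    rw [div_le_iff₀ (half_pos hε)] at this
    linarith
  have h5 : δ * ((C : ℝ) * (((univ : Finset (Fin N)).card : ℝ) + J.card + 1)) ^ C ≤ ε / 2 := by
    calc δ * ((C : ℝ) * (((univ : Finset (Fin N)).card : ℝ) + J.card + 1)) ^ C
        ≤ δ * (((C : ℝ) * (2 * (r : ℝ) + 1)) ^ C * (n : ℝ) ^ C) := mul_le_mul_of_nonneg_left h2 hδ
      _ ≤ δ * ((ε / 2 * n) * (n : ℝ) ^ C) := mul_le_mul_of_nonneg_left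
          (mul_le_mul_of_nonneg_right h3 (by positivity)) hδ
      _ = ε / 2 * (δ * (n : ℝ) ^ (C + 1)) := by ring
      _ ≤ ε / 2 * 1 := mul_le_mul_of_nonneg_left hδn (half_pos hε).le
      _ = ε / 2 := mul_one _
  have h6 : (av fun ω => ψ (trt T J (Y ω)) * htv T z (Y ω)) =
      av fun ω => ψ (hx J T (Y ω)) * tj univ T z (Y ω) := rfl
  have h7 : (av fun x => ψ (trt T J x) * htv T z x) =
      av fun x => ψ (hx J T x) * tj univ T z x := rfl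
  rw [h6, h7]
  linarith

end Pool.Agent.MP_ca1109_lc.Xh
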