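import Pool.Agent.MP_ca1109_lc.Xh.Defs
import Pool.Agent.MP_ca1109_lc.Xg.OS

/-!
# The average over the bits in `η` with heavy monomials
-/

namespace Pool.Agent.MP_ca1109_lc.Xh

open Finset Pool.Agent.MP_ca1109_lc.Mpg Pool.Agent.MP_ca1109_lc.Agp
open Pool.Agent.MP_ca1109_lc.Xp Pool.Agent.MP_ca1109_lc.Xg
open Pool.Agent.MP_ca1109_lc.Dnf (Cube ch one E mix)

variable {n : ℕ}

theorem xoh_norm {M H : Finset (Finset (Fin n))} {ψ : Finset (Finset (Fin n)) → ℂ}
    (hψ : ∀ A, ‖ψ A‖ ≤ 1) {ζ : Finset (Fin n) → ℂ} (hζ : ∀ m ∈ M, ‖ζ m‖ = 1) (x : Cube n) :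
    ‖pt ψ H ζ M x‖ ≤ 1 := by
  unfold pt
  rw [norm_mul, xos_norm_pr hζ, mul_one]
  exact hψ _

/-- The heavy monomials do not see a pivot whose monomial contains none of them. -/
theorem xoh_tru {M H : Finset (Finset (Fin n))} (hH : H ⊆ M) {η m : Finset (Fin n)} {v : Fin n}
    {x : Cube n} (h : xos_Piv M η m v x) (hm : ¬ ∃ m' ∈ H, m' ⊆ m) :
    tru H (xos_upd x v true) = tru H (xos_upd x v false) := by
  classical
  unfold tru
  refine Finset.filter_congr fun m' hm' => ?_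
  by_cases hv : v ∈ m'
  · have hna : ¬ Tr (m' \ η) x := fun ht => hm ⟨m', hm', h.2.2.2.2.2 m' (hH hm') hv ht⟩
    have key : ∀ b, ¬ Tr m' (xos_upd x v b) := by
      intro b hb
      refine hna fun i hi => ?_
      obtain ⟨hi1, hi2⟩ := Finset.mem_sdiff.1 hi
      have hiv : i ≠ v := fun e => hi2 (e ▸ h.1)
      have h2 := hb i hi1
      rwa [xos_upd_ne hiv] at h2
    exact iff_of_false (key true) (key false)
  · refine xos_tr_congr fun i hi => ?_
    have hiv : i ≠ v := fun e => hv (e ▸ hi)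
    rw [xos_upd_ne hiv, xos_upd_ne hiv]

theorem xoh_pt_pivot {M H : Finset (Finset (Fin n))} (hH : H ⊆ M) {ζ : Finset (Fin n) → ℂ}
    {ψ : Finset (Finset (Fin n)) → ℂ} {η m : Finset (Fin n)} {v : Fin n}
    {x : Cube n} (h : xos_Piv M η m v x) (hm : ¬ ∃ m' ∈ H, m' ⊆ m) :
    pt ψ H ζ M (xos_upd x v true) = xos_Z ζ M m v * pt ψ H ζ M (xos_upd x v false) := by
  unfold pt
  rw [xoh_tru hH h hm, xos_pr_pivot h]
  ring

open Classical in
/-- The factor at the bit `v`. -/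
noncomputable def xoh_rho (r : ℕ) (ζ : Finset (Fin n) → ℂ) (M H : Finset (Finset (Fin n)))
    (η : Finset (Fin n)) (v : Fin n) (x : Cube n) : ℝ :=
  ∏ m ∈ M, if xos_Piv M η m v x then Real.exp (-(gh r ζ M H m) / 2) else 1

theorem xoh_gh_nonneg (r : ℕ) (ζ : Finset (Fin n) → ℂ) (M H : Finset (Finset (Fin n)))
    (m : Finset (Fin n)) : 0 ≤ gh r ζ M H m := by
  classical
  unfold gh
  split_ifs
  · exact le_rfl
  · exact xos_gc_nonneg r ζ M m

/-- The average over the bits in `η`. -/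
theorem xoh_main {r : ℕ} {M H : Finset (Finset (Fin n))} (hM : Rd r M) (hH : H ⊆ M)
    {ψ : Finset (Finset (Fin n)) → ℂ} (hψ : ∀ A, ‖ψ A‖ ≤ 1) {ζ : Finset (Fin n) → ℂ}
    (hζ : ∀ m ∈ M, ‖ζ m‖ = 1) (η : Finset (Fin n)) (z : Cube n) :
    ‖(∑ x, pt ψ H ζ M (mix η x z)) / 2 ^ n‖ ≤ E fun x => ∏ v, xoh_rho r ζ M H η v (mix η x z) := by
  classical
  have hlt : ∀ {v : Fin n} {x x' : Cube n},
      (∀ u : Fin n, n - (v : ℕ) < n - (u : ℕ) → x u = x' u) →
      ∀ i, (i ∈ η → i < v) → mix η x z i = mix η x' z i := by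
    intro v x x' hx i hi
    unfold Dnf.mix
    by_cases hη : i ∈ η
    · rw [if_pos hη, if_pos hη]
      refine hx i ?_
      have h9 : (i : ℕ) < v := hi hη
      have := v.2
      omega
    · rw [if_neg hη, if_neg hη]
  refine xos_expose (fun x => pt ψ H ζ M (mix η x z)) (fun v x => xoh_rho r ζ M H η v (mix η x z))
    (fun x => xoh_norm hψ hζ _) (fun v => n - v) ?_ ?_
  · intro v x x' hx
    unfold xoh_rho
    refine Finset.prod_congr rfl fun m _ => if_congr ?_ rfl rfl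
    exact ⟨fun h => xos_piv_congr (hlt hx) h,
      fun h => xos_piv_congr (fun i hi => (hlt hx i hi).symm) h⟩
  · intro v x
    by_cases hc : ∃ m ∈ M, (Good r ζ M m ∧ ¬ ∃ m' ∈ H, m' ⊆ m) ∧ xos_Piv M η m v (mix η x z)
    · obtain ⟨m, hm, ⟨hg, hnH⟩, hp⟩ := hc
      right
      refine ⟨xos_Z ζ M m v, xos_norm_Z hζ m v, ?_, fun x' hx' => ?_⟩
      · have h1 : xoh_rho r ζ M H η v (mix η x z) = Real.exp (-(gh r ζ M H m) / 2) := by
          unfold xoh_rho
          rw [Finset.prod_eq_single m]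
          · rw [if_pos hp]
          · intro m2 _ hne
            rw [if_neg fun h2 => hne (xos_unique h2 hp)]
          · intro h; exact absurd hm h
        rw [h1]
        refine (xos_half (xos_norm_Z hζ m v)).trans (Real.exp_le_exp.2 ?_)
        have h2 := xos_Z_far hM hζ hm hp.2.2.1 hg
        have h3 : (‖1 - ζ m‖ / 2) ^ 2 ≤ ‖1 - xos_Z ζ M m v‖ ^ 2 :=
          pow_le_pow_left₀ (by positivity) h2 2
        have h4 : gh r ζ M H m = ‖1 - ζ m‖ ^ 2 / 4 / 4 := by
          unfold gh gc gap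
          rw [if_neg hnH, if_pos hg]
        rw [h4]
        rw [div_pow] at h3
        linarith
      · have hp' : xos_Piv M η m v (mix η x' z) :=
          xos_piv_congr (fun i hi => (hlt hx' i hi).symm) hp
        simp only [xos_mix_upd hp.1]
        exact xoh_pt_pivot hH hp' hnH
    · left
      unfold xoh_rho
      refine Finset.prod_eq_one fun m hm => ?_
      split_ifs with hp
      · have h0 : gh r ζ M H m = 0 := by
          unfold gh
          split_ifs with hE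
          · rfl
          · unfold gc
            rw [if_neg fun hg => hc ⟨m, hm, ⟨hg, hE⟩, hp⟩]
        rw [h0]
        simp
      · rfl

/-- The factors and the weight of the pivots. -/
theorem xoh_rho_le {r : ℕ} {M H : Finset (Finset (Fin n))}
    {w : Finset (Fin n) → Finset (Fin n) → Fin n}
    (hw : Xg.Kil r M w) {ζ : Finset (Fin n) → ℂ} (η : Finset (Fin n)) (x : Cube n) :
    ∏ v, xoh_rho r ζ M H η v x ≤ Real.exp (-(Xg.cw (gh r ζ M H) M w η x) / 2) := by
  classical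
  have key : ∀ m ∈ M, ∀ i ∈ m, Xg.PE M w m i η → Xg.PX M w m i x → xos_Piv M η m i x := by
    intro m hm i hi hE hX
    refine ⟨hE.1, hm, hi, hX.1, ?_, ?_⟩
    · intro j hj hjη
      by_contra hcon
      have h1 : j ∈ later m i ∪ Xg.kl M w m i :=
        Finset.mem_union_left _ (Finset.mem_filter.2 ⟨hj, not_le.1 hcon⟩)
      exact Finset.disjoint_left.1 hE.2 hjη h1
    · intro m' hm' him' hT
      by_contra hne
      have h1 : w m m' ∈ Xg.kl M w m i :=
        Finset.mem_image_of_mem _ (Finset.mem_filter.2 ⟨hm', hne, him'⟩)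
      have h2 := hw.mem m hm m' hm' hne (Finset.not_disjoint_iff.2 ⟨i, hi, him'⟩)
      have h3 : w m m' ∉ η := fun h => Finset.disjoint_left.1 hE.2 h (Finset.mem_union_right _ h1)
      have h4 := hT _ (Finset.mem_sdiff.2 ⟨(Finset.mem_sdiff.1 h2).1, h3⟩)
      rw [hX.2 _ h1] at h4
      exact Bool.false_ne_true h4
  unfold xoh_rho
  rw [Finset.prod_comm]
  have h1 : Real.exp (-(Xg.cw (gh r ζ M H) M w η x) / 2) =
      ∏ m ∈ M, Real.exp (-(gh r ζ M H m * one (Xg.Pv M w m η x)) / 2) := by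
    rw [← Real.exp_sum]
    congr 1
    unfold Xg.cw
    rw [← Finset.sum_div, ← Finset.sum_neg_distrib]
  rw [h1]
  refine Finset.prod_le_prod (fun m _ => Finset.prod_nonneg fun v _ => ?_) fun m hm => ?_
  · split_ifs
    · exact (Real.exp_pos _).le
    · exact zero_le_one
  · have hle1 : Real.exp (-(gh r ζ M H m) / 2) ≤ 1 := by
      rw [Real.exp_le_one_iff]
      have := xoh_gh_nonneg r ζ M H m
      linarith
    have hf : ∀ v : Fin n, 0 ≤ (if xos_Piv M η m v x then Real.exp (-(gh r ζ M H m) / 2) else 1) ∧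
        (if xos_Piv M η m v x then Real.exp (-(gh r ζ M H m) / 2) else 1) ≤ 1 := by
      intro v
      split_ifs
      · exact ⟨(Real.exp_pos _).le, hle1⟩
      · exact ⟨zero_le_one, le_rfl⟩
    by_cases hP : Xg.Pv M w m η x
    · rw [Dnf.one_true hP, mul_one]
      obtain ⟨i, hi, hE, hX⟩ := hP
      have hp := key m hm i hi hE hX
      rw [← Finset.mul_prod_erase univ _ (Finset.mem_univ i), if_pos hp]
      refine mul_le_of_le_one_right (Real.exp_pos _).le ?_
      exact Finset.prod_le_one (fun v _ => (hf v).1) fun v _ => (hf v).2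
    · rw [Dnf.one_false hP, mul_zero, neg_zero, zero_div, Real.exp_zero]
      exact Finset.prod_le_one (fun v _ => (hf v).1) fun v _ => (hf v).2

theorem honeshot {r : ℕ} {M H : Finset (Finset (Fin n))}
    {w : Finset (Fin n) → Finset (Fin n) → Fin n}
    (hM : Rd r M) (hw : Xg.Kil r M w) (hH : H ⊆ M)
    {ψ : Finset (Finset (Fin n)) → ℂ} (hψ : ∀ A, ‖ψ A‖ ≤ 1) {ζ : Finset (Fin n) → ℂ}
    (hζ : ∀ m ∈ M, ‖ζ m‖ = 1) (η : Finset (Fin n)) (z : Cube n) :
    ‖av fun x : Cube n => pt ψ H ζ M (mix η x z)‖ ≤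
      E fun x => Real.exp (-(Xg.cw (gh r ζ M H) M w η (mix η x z)) / 2) := by
  rw [xos_av]
  exact (xoh_main hM hH hψ hζ η z).trans (Dnf.E_mono fun x => xoh_rho_le hw η _)

theorem hrestr_le {r : ℕ} {M H : Finset (Finset (Fin n))}
    {w : Finset (Fin n) → Finset (Fin n) → Fin n}
    (hM : Rd r M) (hw : Xg.Kil r M w) (h0 : ∀ m ∈ M, m ≠ ∅) (hH : H ⊆ M)
    {ψ : Finset (Finset (Fin n)) → ℂ} (hψ : ∀ A, ‖ψ A‖ ≤ 1) {ζ : Finset (Fin n) → ℂ}
    (hζ : ∀ m ∈ M, ‖ζ m‖ = 1) (η : Finset (Fin n)) :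
    (E fun z => ‖av fun x : Cube n => pt ψ H ζ M (mix η x z)‖ ^ 2) ≤
      E fun x => Real.exp (-(cw (gh r ζ M H) M w η x) / 2) := by
  have h1 : ∀ z, ‖av fun x : Cube n => pt ψ H ζ M (mix η x z)‖ ≤ 1 := by
    intro z
    rw [xos_av, norm_div, norm_pow, Complex.norm_ofNat, div_le_one (by positivity)]
    refine (norm_sum_le _ _).trans ?_
    refine (Finset.sum_le_sum fun x _ => xoh_norm hψ hζ _).trans ?_
    rw [Finset.sum_const, Finset.card_univ]
    simp
  have h2 : ∀ z, ‖av fun x : Cube n => pt ψ H ζ M (mix η x z)‖ ^ 2 ≤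
      E fun x => Real.exp (-(Xg.cw (gh r ζ M H) M w η (mix η x z)) / 2) := by
    intro z
    refine le_trans ?_ (honeshot hM hw hH hψ hζ η z)
    rw [pow_two]
    exact mul_le_of_le_one_left (norm_nonneg _) (h1 z)
  refine (Dnf.E_mono h2).trans (le_of_eq ?_)
  exact (xos_E_comm fun z x => Real.exp (-(Xg.cw (gh r ζ M H) M w η (mix η x z)) / 2)).trans
    (Dnf.E_mix η fun x => Real.exp (-(Xg.cw (gh r ζ M H) M w η x) / 2))

end Pool.Agent.MP_ca1109_lc.Xh
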