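import Pool.Agent.MP_ca1109_lc.Xp.QPS

/-!
# Parseval's identity for one level of the generator, functions bounded by one
-/

namespace Pool.Agent.MP_ca1109_lc.Xh

open Finset Pool.Agent.H66 Pool.Agent.MP_ca1109_lc.Mpg Pool.Agent.MP_ca1109_lc.Agp
open Pool.Agent.MP_ca1109_lc.Xp
open Pool.Agent.MP_ca1109_lc.Dnf (Cube ch one E mix fc)

variable {n : ℕ}

theorem hparseval_step (η : Finset (Fin n)) {c : ℕ} {Ω : Type} [Fintype Ω] [Nonempty Ω]
    (H : Ω → Fin n → Fin c → Bool) {δ : ℝ} (hδ : 0 ≤ δ) (hH : Hs δ H) (F : Cube n → ℂ)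
    (hF : ∀ x, ‖F x‖ ≤ 1) :
    (avg fun ω => avg fun b : Fin c → Bool => avg fun b' : Fin c → Bool =>
      (av fun y : Cube n => F (mq y η (uv b (H ω))) *
        (starRingEnd ℂ) (F (mq y η (uv b' (H ω))))).re) ≤
      (E fun z => ‖av fun x : Cube n => F (mix η x z)‖ ^ 2) + δ := by
  -- real and imaginary parts
  have h1 : ∀ v v' : Cube n, (av fun y : Cube n => F (mq y η v) *
      (starRingEnd ℂ) (F (mq y η v'))).re =
      (E fun y => (F (mq y η v)).re * (F (mq y η v')).re) +
      (E fun y => (F (mq y η v)).im * (F (mq y η v')).im) := by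
    intro v v'
    rw [qps_re, ← Dnf.E_add]
    congr 1
    funext y
    rw [Complex.mul_re, Complex.conj_re, Complex.conj_im]
    ring
  simp_rw [h1]
  simp_rw [avg_add]
  have h2 := fun ω => qps_avg_corr η (H ω) (fun x => (F x).re)
  have h3 := fun ω => qps_avg_corr η (H ω) (fun x => (F x).im)
  simp_rw [h2, h3, avg_sum, avg_mul_left]
  -- the bound for each coefficient
  have h4 : ∀ S : Finset (Fin n), (avg fun ω => one (∀ q : Fin c,
      ((S ∩ η).filter fun i => H ω i q = true).card % 2 = 0)) ≤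
      (if S ∩ η = ∅ then 1 else 0) + δ := by
    intro S
    split_ifs with h
    · have h5 : (avg fun ω => one (∀ q : Fin c,
        ((S ∩ η).filter fun i => H ω i q = true).card % 2 = 0)) ≤ avg fun _ : Ω => (1 : ℝ) :=
        avg_mono fun ω => Dnf.one_le _
      rw [avg_const] at h5
      linarith
    · have := hH (S ∩ η) h
      linarith
  have h5 : ∀ f : Cube n → ℝ, ∑ S, fc f S ^ 2 * (avg fun ω => one (∀ q : Fin c,
      ((S ∩ η).filter fun i => H ω i q = true).card % 2 = 0)) ≤
      (E fun z => (E fun x => f (mix η x z)) ^ 2) + δ * E fun x => f x ^ 2 := by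
    intro f
    rw [Dnf.parseval f, mul_sum]
    refine le_trans ?_ (add_le_add_left (qps_off η f) _)
    rw [← sum_add_distrib]
    refine sum_le_sum fun S _ => ?_
    have h6 := mul_le_mul_of_nonneg_left (h4 S) (sq_nonneg (fc f S))
    refine h6.trans (le_of_eq ?_)
    split_ifs <;> ring
  refine (add_le_add (h5 fun x => (F x).re) (h5 fun x => (F x).im)).trans ?_
  have h6 : (E fun x => (F x).re ^ 2) + (E fun x => (F x).im ^ 2) ≤ 1 := by
    rw [← Dnf.E_add, ← Dnf.E_const (n := n) 1]
    refine Dnf.E_mono fun x => ?_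
    have h7 : ‖F x‖ ^ 2 ≤ 1 := pow_le_one₀ (norm_nonneg _) (hF x)
    rw [← Complex.normSq_eq_norm_sq, Complex.normSq_apply] at h7
    nlinarith
  have h7 : (E fun z => ‖av fun x : Cube n => F (mix η x z)‖ ^ 2) =
      (E fun z => (E fun x => (F (mix η x z)).re) ^ 2) +
      E fun z => (E fun x => (F (mix η x z)).im) ^ 2 := by
    rw [← Dnf.E_add]
    congr 1
    funext z
    rw [← Complex.normSq_eq_norm_sq, Complex.normSq_apply, qps_re, qps_im]
    ring
  rw [h7]
  have h8 := mul_le_mul_of_nonneg_left h6 hδ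
  linarith

end Pool.Agent.MP_ca1109_lc.Xh
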