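import Pool.Agent.MP_ca1109_lc.Xh.GD
import Pool.Agent.MP_ca1109_lc.Xh.OS
import Pool.Agent.MP_ca1109_lc.Xh.PS
import Pool.Agent.MP_ca1109_lc.Xh.BBb
import Pool.Agent.MP_ca1109_lc.Xg.CO
import Pool.Agent.MP_ca1109_lc.Xg.SM

/-!
# Case 2 with heavy monomials: assembly
-/

namespace Pool.Agent.MP_ca1109_lc.Xh

open Finset Pool.Agent.MP_ca1109_lc.Mpg Pool.Agent.MP_ca1109_lc.Agp
open Pool.Agent.MP_ca1109_lc.Xp Pool.Agent.MP_ca1109_lc.Xg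
open Pool.Agent.MP_ca1109_lc.Dnf (Cube ch one E mix one_nonneg one_le one_true one_false)

variable {n : ℕ}

theorem yco_pt_norm {ψ : Finset (Finset (Fin n)) → ℂ} {H : Finset (Finset (Fin n))}
    {ζ : Finset (Fin n) → ℂ} {M : Finset (Finset (Fin n))} (hψ : ∀ A, ‖ψ A‖ ≤ 1)
    (h : ∀ m ∈ M, ‖ζ m‖ = 1) (x : Cube n) : ‖pt ψ H ζ M x‖ ≤ 1 := by
  unfold pt
  rw [norm_mul, xco_pr_norm h, mul_one]
  exact hψ _

theorem hcore (r : ℕ) (K : ℝ) {ε : ℝ} (hε : 0 < ε) :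
    ∃ (c C n₀ : ℕ) (t : ℝ), 1 ≤ t ∧ ∀ n ≥ n₀, ∀ (W : ℕ) (M H : Finset (Finset (Fin n)))
      (ψ : Finset (Finset (Fin n)) → ℂ) (ζ : Finset (Fin n) → ℂ), Fam r W M → H ⊆ M → Xp.lam H ≤ K →
      (∀ A, ‖ψ A‖ ≤ 1) → (∀ m ∈ M, ‖ζ m‖ = 1) →
      ∀ p δ : ℝ, 0 ≤ p → p ≤ 1 / 2 → t / 2 ≤ mw p (gap ζ) M → mw p (gap ζ) M ≤ t →
      0 ≤ δ → C * δ * (n : ℝ) ^ C ≤ 1 → δ * ((M.card : ℝ) + 1) ^ 2 * ((W : ℝ) + 1) ^ 2 ≤ 1 →
      ∀ {Ω₁ Ω₂ Ω₃ : Type} [Fintype Ω₁] [Nonempty Ω₁] [Fintype Ω₂] [Nonempty Ω₂]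
        [Fintype Ω₃] [Nonempty Ω₃] (Y : Ω₁ → Cube n) (η : Ω₂ → Finset (Fin n))
        (h : Ω₃ → Fin n → Fin c → Bool) (sh : Ω₂ → Ω₃ → Cube n), Bias δ Y →
        Miss (2 * (W + r)) p δ η → Hs ((1 / 2) ^ c + δ) h →
        ‖(av fun ω₂ => av fun ω₃ => av fun ω₁ => av fun b : Fin c → Bool =>
          pt ψ H ζ M (mq (xo (Y ω₁) (sh ω₂ ω₃)) (η ω₂) (uv b (h ω₃))))‖ ≤ ε := by
  classical
  rcases Nat.eq_zero_or_pos r with hr | hr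
  · refine ⟨0, 0, 0, 1, le_rfl, ?_⟩
    intro n _ W M H ψ ζ hM _ _ _ hζ p δ hp hp2 ht1 ht2
    exfalso
    subst hr
    have hM0 : M = ∅ := by
      rw [Finset.eq_empty_iff_forall_notMem]
      intro m hm
      obtain ⟨i, hi⟩ := Finset.nonempty_iff_ne_empty.2 (hM.ne m hm)
      have h1 := hM.rd i
      have h2 : m ∈ M.filter fun m => i ∈ m := Finset.mem_filter.2 ⟨hm, hi⟩
      have h3 := Finset.card_pos.2 ⟨m, h2⟩
      omega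
    rw [hM0] at ht1
    unfold mw at ht1
    rw [Finset.sum_empty] at ht1
    norm_num at ht1
  set e : ℝ := ε ^ 2 / 8 with he
  have he0 : 0 < e := by positivity
  obtain ⟨t₁, ht₁, hpv⟩ := pv r he0
  set A : ℝ := 4 * r * (2 * r) ^ (2 * r) with hA
  have hr1 : (1 : ℝ) ≤ r := by exact_mod_cast hr
  have hA1 : 1 ≤ A := by
    have h1 : (1 : ℝ) ≤ (2 * r) ^ (2 * r) := one_le_pow₀ (by linarith)
    rw [hA]; nlinarith
  set K' : ℝ := max K 0 with hK'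
  have hK0 : 0 ≤ K' := le_max_right _ _
  set t : ℝ := 2 * A * (t₁ + r * K') with ht
  have ht1 : 1 ≤ t := by
    have h1 : 0 ≤ (r : ℝ) * K' := by positivity
    rw [ht]; nlinarith
  set V : ℝ := (t + 1) / e with hV
  have hV0 : 0 < V := by positivity
  obtain ⟨C₁, n₁, hbb⟩ := hbb_two r K V he0
  obtain ⟨c, hc⟩ := exists_pow_lt_of_lt_one he0 (show (1 / 2 : ℝ) < 1 by norm_num)
  obtain ⟨C₂, hC₂⟩ := exists_nat_ge (1 / e)
  refine ⟨c, C₁ + C₂ + 1, max n₁ 1, t, ht1, ?_⟩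
  intro n hn W M H ψ ζ hM hHM hHK hψ hζ p δ hp hp2 hmt hmt' hδ hCδ hδM Ω₁ Ω₂ Ω₃ _ _ _ _ _ _ Y η h sh hY hη hH
  have hn1 : n₁ ≤ n := (le_max_left _ _).trans hn
  have hn0 : 1 ≤ n := (le_max_right _ _).trans hn
  have hnR : (1 : ℝ) ≤ n := by exact_mod_cast hn0
  obtain ⟨w, hkil⟩ := kil_exists (r := r) (M := M) (by omega : 0 < n) hM.rd
  have hpw : (1 : ℝ) ≤ (n : ℝ) ^ (C₁ + C₂ + 1) := one_le_pow₀ hnR
  have hCR : (1 : ℝ) ≤ ((C₁ + C₂ + 1 : ℕ) : ℝ) := by push_cast; linarith [Nat.cast_nonneg (α := ℝ) C₁, Nat.cast_nonneg (α := ℝ) C₂]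
  have hδ1 : δ * (n : ℝ) ^ C₁ ≤ 1 := by
    calc δ * (n : ℝ) ^ C₁ ≤ δ * (n : ℝ) ^ (C₁ + C₂ + 1) :=
          mul_le_mul_of_nonneg_left (pow_le_pow_right₀ hnR (by omega)) hδ
      _ = 1 * (δ * (n : ℝ) ^ (C₁ + C₂ + 1)) := (one_mul _).symm
      _ ≤ ((C₁ + C₂ + 1 : ℕ) : ℝ) * (δ * (n : ℝ) ^ (C₁ + C₂ + 1)) :=
          mul_le_mul_of_nonneg_right hCR (by positivity)
      _ = ((C₁ + C₂ + 1 : ℕ) : ℝ) * δ * (n : ℝ) ^ (C₁ + C₂ + 1) := by ring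
      _ ≤ 1 := hCδ
  have hδe : δ ≤ e := by
    have h1 : (1 / e) * δ ≤ 1 := by
      calc (1 / e) * δ ≤ ((C₁ + C₂ + 1 : ℕ) : ℝ) * δ := by
            refine mul_le_mul_of_nonneg_right (hC₂.trans ?_) hδ
            push_cast
            linarith [Nat.cast_nonneg (α := ℝ) C₁]
        _ = ((C₁ + C₂ + 1 : ℕ) : ℝ) * δ * 1 := (mul_one _).symm
        _ ≤ ((C₁ + C₂ + 1 : ℕ) : ℝ) * δ * (n : ℝ) ^ (C₁ + C₂ + 1) :=
            mul_le_mul_of_nonneg_left hpw (by positivity)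
        _ ≤ 1 := hCδ
    have h2 : δ = e * ((1 / e) * δ) := by field_simp
    rw [h2]
    calc e * ((1 / e) * δ) ≤ e * 1 := mul_le_mul_of_nonneg_left h1 he0.le
      _ = e := mul_one e
  have hgc0 : ∀ m ∈ M, 0 ≤ gh r ζ M H m := fun m _ => gh_nonneg
  have hgc1 : ∀ m ∈ M, gh r ζ M H m ≤ 1 := fun m hm => gh_le (hζ m hm)
  have hgap0 : ∀ m ∈ M, 0 ≤ gap ζ m := fun m _ => by unfold gap; positivity
  have hgap1 : ∀ m ∈ M, gap ζ m ≤ 1 := fun m hm => gap_le (hζ m hm)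
  have hmgc : t₁ ≤ mw p (gh r ζ M H) M := by
    have h1 := htransfer hr hM.rd hM.ne hHM hζ hp (by linarith : p ≤ 1)
    rw [← hA] at h1
    have h2 : A * (t₁ + r * K') ≤ A * (mw p (gh r ζ M H) M + r * Xp.lam H) := by
      have : t / 2 = A * (t₁ + r * K') := by rw [ht]; ring
      linarith
    have h3 := le_of_mul_le_mul_left h2 (by linarith)
    have h4 : (r : ℝ) * Xp.lam H ≤ r * K' :=
      mul_le_mul_of_nonneg_left (hHK.trans (le_max_left _ _)) (by linarith)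
    linarith
  have hpv' := hpv n W M w (gh r ζ M H) hM hkil hgc0 hgc1 p δ hp hp2 hδ hmgc hδM η hη
  have hhit := hit_avg (c := gap ζ) hM.wd hgap0 hgap1 hδ (xco_miss_mono hη (by omega : W ≤ 2 * (W + r)))
  have hcardδ : δ * (M.card : ℝ) ≤ 1 := by
    have h1 : (M.card : ℝ) ≤ ((M.card : ℝ) + 1) ^ 2 * ((W : ℝ) + 1) ^ 2 := by
      have h2 : (0 : ℝ) ≤ M.card := Nat.cast_nonneg _
      have h3 : (0 : ℝ) ≤ W := Nat.cast_nonneg _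
      have h4 : (1 : ℝ) ≤ ((W : ℝ) + 1) ^ 2 := one_le_pow₀ (by linarith)
      have h5 : (M.card : ℝ) ≤ ((M.card : ℝ) + 1) ^ 2 := by nlinarith
      have h6 : (0:ℝ) ≤ ((M.card : ℝ) + 1) ^ 2 := by positivity
      nlinarith
    calc δ * (M.card : ℝ) ≤ δ * (((M.card : ℝ) + 1) ^ 2 * ((W : ℝ) + 1) ^ 2) :=
          mul_le_mul_of_nonneg_left h1 hδ
      _ = δ * ((M.card : ℝ) + 1) ^ 2 * ((W : ℝ) + 1) ^ 2 := by ring
      _ ≤ 1 := hδM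
  have hhw0 : ∀ ω, 0 ≤ hw (gap ζ) M (η ω) := fun ω => by
    unfold hw
    exact Finset.sum_nonneg fun m hm =>
      mul_nonneg (hgap0 m hm) (mul_nonneg (by positivity) (one_nonneg _))
  have hmark : (avg fun ω => one (V < hw (gap ζ) M (η ω))) ≤ e := by
    refine (xco_markov hV0 hhw0).trans ?_
    rw [div_le_iff₀ hV0]
    have h1 : e * V = t + 1 := by rw [hV]; field_simp
    rw [h1]
    linarith
  -- the pointwise bound
  have hpt : ∀ (ω₂ : Ω₂) (ω₃ : Ω₃) (b b' : Fin c → Bool),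
      (av fun ω₁ => pt ψ H ζ M (mq (xo (Y ω₁) (sh ω₂ ω₃)) (η ω₂) (uv b (h ω₃))) *
        (starRingEnd ℂ) (pt ψ H ζ M (mq (xo (Y ω₁) (sh ω₂ ω₃)) (η ω₂) (uv b' (h ω₃))))).re ≤
      (av fun y : Cube n => pt ψ H ζ M (mq y (η ω₂) (uv b (h ω₃))) *
        (starRingEnd ℂ) (pt ψ H ζ M (mq y (η ω₂) (uv b' (h ω₃))))).re + e +
        2 * one (V < hw (gap ζ) M (η ω₂)) := by
    intro ω₂ ω₃ b b'
    set P := av fun ω₁ => pt ψ H ζ M (mq (xo (Y ω₁) (sh ω₂ ω₃)) (η ω₂) (uv b (h ω₃))) *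
        (starRingEnd ℂ) (pt ψ H ζ M (mq (xo (Y ω₁) (sh ω₂ ω₃)) (η ω₂) (uv b' (h ω₃)))) with hP
    set R := av fun y : Cube n => pt ψ H ζ M (mq y (η ω₂) (uv b (h ω₃))) *
        (starRingEnd ℂ) (pt ψ H ζ M (mq y (η ω₂) (uv b' (h ω₃)))) with hR
    by_cases hbig : V < hw (gap ζ) M (η ω₂)
    · rw [one_true hbig]
      have h1 : ‖P‖ ≤ 1 := xco_av_norm fun ω => by
        rw [norm_mul, RCLike.norm_conj]; exact mul_le_one₀ (yco_pt_norm hψ hζ _) (norm_nonneg _) (yco_pt_norm hψ hζ _)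
      have h2 : ‖R‖ ≤ 1 := xco_av_norm fun ω => by
        rw [norm_mul, RCLike.norm_conj]; exact mul_le_one₀ (yco_pt_norm hψ hζ _) (norm_nonneg _) (yco_pt_norm hψ hζ _)
      have h3 := Complex.re_le_norm P
      have h4 := Complex.abs_re_le_norm R
      have h5 := (abs_le.1 h4).1
      linarith
    · rw [one_false hbig]
      have h1 := hbb n hn1 M H ψ ζ hM.ne hM.rd hHM hHK hψ hζ (η ω₂) (sh ω₂ ω₃) (uv b (h ω₃)) (uv b' (h ω₃))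
        (not_lt.1 hbig) Y δ hδ hδ1 hY
      rw [← hP, ← hR] at h1
      have h2 := Complex.re_le_norm (P - R)
      rw [Complex.sub_re] at h2
      linarith
  have hcs := cs_step (c := c) (fun (ω₂ : Ω₂) (ω₃ : Ω₃) (ω₁ : Ω₁) (b : Fin c → Bool) =>
    pt ψ H ζ M (mq (xo (Y ω₁) (sh ω₂ ω₃)) (η ω₂) (uv b (h ω₃))))
  have hδc : (0 : ℝ) ≤ (1 / 2) ^ c + δ := by positivity
  have hkey : ∀ ω₂ : Ω₂, (avg fun ω₃ => avg fun b : Fin c → Bool => avg fun b' : Fin c → Bool =>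
      (av fun ω₁ => pt ψ H ζ M (mq (xo (Y ω₁) (sh ω₂ ω₃)) (η ω₂) (uv b (h ω₃))) *
        (starRingEnd ℂ) (pt ψ H ζ M (mq (xo (Y ω₁) (sh ω₂ ω₃)) (η ω₂) (uv b' (h ω₃))))).re) ≤
      (E fun x => Real.exp (-(cw (gh r ζ M H) M w (η ω₂) x) / 2)) + ((1 / 2) ^ c + δ + e) +
        2 * one (V < hw (gap ζ) M (η ω₂)) := by
    intro ω₂
    have h1 := hparseval_step (η ω₂) h hδc hH (pt ψ H ζ M) (yco_pt_norm hψ hζ)
    have h2 := hrestr_le hM.rd hkil hM.ne hHM hψ hζ (η ω₂)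
    have h3 : (avg fun ω₃ => avg fun b : Fin c → Bool => avg fun b' : Fin c → Bool =>
      (av fun ω₁ => pt ψ H ζ M (mq (xo (Y ω₁) (sh ω₂ ω₃)) (η ω₂) (uv b (h ω₃))) *
        (starRingEnd ℂ) (pt ψ H ζ M (mq (xo (Y ω₁) (sh ω₂ ω₃)) (η ω₂) (uv b' (h ω₃))))).re) ≤
        (avg fun ω₃ => avg fun b : Fin c → Bool => avg fun b' : Fin c → Bool =>
          ((av fun y : Cube n => pt ψ H ζ M (mq y (η ω₂) (uv b (h ω₃))) *
            (starRingEnd ℂ) (pt ψ H ζ M (mq y (η ω₂) (uv b' (h ω₃))))).re +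
            (e + 2 * one (V < hw (gap ζ) M (η ω₂))))) := by
      refine avg_mono fun ω₃ => avg_mono fun b => avg_mono fun b' => ?_
      have := hpt ω₂ ω₃ b b'
      linarith
    refine h3.trans ?_
    simp only [avg_add, avg_const]
    linarith
  have hsq : ‖(av fun ω₂ => av fun ω₃ => av fun ω₁ => av fun b : Fin c → Bool =>
      pt ψ H ζ M (mq (xo (Y ω₁) (sh ω₂ ω₃)) (η ω₂) (uv b (h ω₃))))‖ ^ 2 ≤ ε ^ 2 := by
    refine hcs.trans ?_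
    refine (avg_mono fun ω₂ => hkey ω₂).trans ?_
    simp only [avg_add, avg_const, avg_mul_left]
    have h8 : ε ^ 2 = 8 * e := by rw [he]; ring
    rw [h8]
    linarith
  exact le_of_sq_le_sq hsq hε.le
where
  le_of_sq_le_sq {a b : ℝ} (h : a ^ 2 ≤ b ^ 2) (hb : 0 ≤ b) : a ≤ b := by
    exact le_of_not_gt fun hlt => by nlinarith



theorem yco_sq (g : Cube n → ℝ) : (E g) ^ 2 ≤ E fun x => g x ^ 2 := by
  have h1 : 0 ≤ E fun x => (g x - E g) ^ 2 := Dnf.E_nonneg fun x => sq_nonneg _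
  have h2 : (E fun x => (g x - E g) ^ 2) = (E fun x => g x ^ 2) - (E g) ^ 2 := by
    have e : (fun x => (g x - E g) ^ 2) = fun x => (g x ^ 2 + (-(2 * E g)) * g x) + (E g) ^ 2 := by
      funext x; ring
    rw [e, Dnf.E_add, Dnf.E_add, Dnf.E_smul, Dnf.E_const]
    ring
  linarith

theorem yco_av_sq (F : Cube n → ℂ) (η : Finset (Fin n)) :
    ‖av F‖ ^ 2 ≤ E fun z => ‖av fun x : Cube n => F (mix η x z)‖ ^ 2 :=
  (pow_le_pow_left₀ (norm_nonneg _) (xsm_av_le F η) 2).trans (yco_sq _)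

/-- The uniform distribution, large mass. -/
theorem hsmall_av (r : ℕ) (K : ℝ) {ε : ℝ} (hε : 0 < ε) : ∃ V₀ : ℝ, ∀ (n : ℕ)
    (M H : Finset (Finset (Fin n))) (ψ : Finset (Finset (Fin n)) → ℂ) (ζ : Finset (Fin n) → ℂ),
      Rd r M → (∀ m ∈ M, m ≠ ∅) → H ⊆ M → Xp.lam H ≤ K → (∀ A, ‖ψ A‖ ≤ 1) → (∀ m ∈ M, ‖ζ m‖ = 1) →
      V₀ ≤ ∑ m ∈ M, ‖1 - ζ m‖ ^ 2 * (1 / 2 : ℝ) ^ m.card → ‖av (pt ψ H ζ M)‖ ≤ ε := by
  classical
  obtain ⟨t, ht, hpv⟩ := pv r (show 0 < ε ^ 2 by positivity)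
  refine ⟨8 * (4 * r * (2 * r) ^ (2 * r)) * (t + r * max K 0) + 1, fun n M H ψ ζ hM h0 hHM hHK hψ hζ hV => ?_⟩
  have hK0 : (0 : ℝ) ≤ max K 0 := le_max_right _ _
  have hempty : M.Nonempty := by
    rw [Finset.nonempty_iff_ne_empty]
    rintro rfl
    rw [Finset.sum_empty] at hV
    have : (0 : ℝ) ≤ 8 * (4 * r * (2 * r) ^ (2 * r)) * (t + r * max K 0) := by positivity
    linarith
  obtain ⟨m0, hm0⟩ := hempty
  obtain ⟨v0, hv0⟩ := Finset.nonempty_iff_ne_empty.2 (h0 m0 hm0)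
  have hn : 0 < n := v0.pos
  have hr : 1 ≤ r :=
    (Finset.card_pos.2 ⟨m0, Finset.mem_filter.2 ⟨hm0, hv0⟩⟩).trans_le (hM v0)
  obtain ⟨w, hw⟩ := kil_exists hn hM
  have hgap : ∀ m ∈ M, 0 ≤ gap ζ m := fun m _ => by unfold gap; positivity
  have h1 : ∑ m ∈ M, ‖1 - ζ m‖ ^ 2 * (1 / 2 : ℝ) ^ m.card = 4 * ∑ m ∈ M, gap ζ m * (1 / 2 : ℝ) ^ m.card := by
    rw [Finset.mul_sum]
    refine Finset.sum_congr rfl fun m _ => ?_
    unfold gap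
    ring
  have h2 := sum_le_mw h0 hgap
  have h3 := htransfer hr hM h0 hHM hζ (p := 1 / 2) (by norm_num) (by norm_num)
  have hr' : (1 : ℝ) ≤ r := by exact_mod_cast hr
  have hKK : (0 : ℝ) < 4 * r * (2 * r) ^ (2 * r) := by positivity
  have h4 : t ≤ mw (1 / 2) (gh r ζ M H) M := by
    rw [h1] at hV
    have h6 : (r : ℝ) * Xp.lam H ≤ r * max K 0 :=
      mul_le_mul_of_nonneg_left (hHK.trans (le_max_left _ _)) (by linarith)
    have h5 : 8 * (4 * r * (2 * r) ^ (2 * r)) * (t + r * max K 0) ≤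
        8 * (4 * r * (2 * r) ^ (2 * r)) * (mw (1 / 2) (gh r ζ M H) M + r * Xp.lam H) := by
      nlinarith
    have := le_of_mul_le_mul_left h5 (by positivity)
    linarith
  have hFam : Fam r n M := ⟨h0, hM, fun m _ => by
    have := Finset.card_le_univ m
    rwa [Fintype.card_fin] at this⟩
  have hb := hpv n n M w (gh r ζ M H) hFam hw (fun m _ => gh_nonneg) (fun m hm => gh_le (hζ m hm)) (1 / 2) 0
    (by norm_num) le_rfl le_rfl h4 (by simp) (fun η : Finset (Fin n) => η) (xsm_miss n _)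
  have hsq : ‖av (pt ψ H ζ M)‖ ^ 2 ≤ ε ^ 2 := by
    refine le_trans ?_ hb
    have h7 : ∀ η : Finset (Fin n), ‖av (pt ψ H ζ M)‖ ^ 2 ≤
        E fun x => Real.exp (-(cw (gh r ζ M H) M w η x) / 2) := fun η =>
      (yco_av_sq _ η).trans (hrestr_le hM hw h0 hHM hψ hζ η)
    calc ‖av (pt ψ H ζ M)‖ ^ 2 = avg fun _ : Finset (Fin n) => ‖av (pt ψ H ζ M)‖ ^ 2 :=
          (avg_const _).symm
      _ ≤ _ := avg_mono h7
  exact le_of_not_gt fun hlt => by nlinarith [norm_nonneg (av (pt ψ H ζ M))]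

end Pool.Agent.MP_ca1109_lc.Xh
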