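import Pool.Agent.MP_ca1109_lc.Xg.Defs
import Pool.Agent.MP_ca1109_lc.Dnf.L.Defs

/-!
# Heavy monomials and real statistics: definitions

* `tru H x`: the true monomials in `H`; `pt ψ H ζ M x = ψ (tru H x) * pr ζ M x`.
* `gh`: the weight of the good monomials which contain no monomial in `H`.
* `trt`, `htv`: the same for families of terms.
* `rst M u x = ∑ m ∈ M, u m * x ^ m`, `vd`: its mass at scale `D`, `eu`: the phases.
-/

namespace Pool.Agent.MP_ca1109_lc.Xh

open Finset Pool.Agent.MP_ca1109_lc.Mpg Pool.Agent.MP_ca1109_lc.Agp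
open Pool.Agent.MP_ca1109_lc.Xp Pool.Agent.MP_ca1109_lc.Xg
open Pool.Agent.MP_ca1109_lc.Dnf (Cube ch one E mix)

variable {n : ℕ}

open Classical in
/-- The true monomials in `H`. -/
noncomputable def tru (H : Finset (Finset (Fin n))) (x : Cube n) : Finset (Finset (Fin n)) :=
  H.filter fun m => Tr m x

/-- A function of the true monomials in `H`, times the product of the weights of the true monomials
in `M`. -/
noncomputable def pt (ψ : Finset (Finset (Fin n)) → ℂ) (H : Finset (Finset (Fin n)))
    (ζ : Finset (Fin n) → ℂ) (M : Finset (Finset (Fin n))) (x : Cube n) : ℂ :=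
  ψ (tru H x) * pr ζ M x

open Classical in
/-- The weight of `m`, if `m` is good and contains no monomial in `H`. -/
noncomputable def gh (r : ℕ) (ζ : Finset (Fin n) → ℂ) (M H : Finset (Finset (Fin n)))
    (m : Finset (Fin n)) : ℝ := if ∃ m' ∈ H, m' ⊆ m then 0 else gc r ζ M m

open Classical in
/-- The true terms with index in `J`. -/
noncomputable def trt {N : ℕ} (T : Fin N → Dnf.Term n) (J : Finset (Fin N)) (x : Cube n) :
    Finset (Fin N) := J.filter fun j => (T j).Sat x

/-- The product of the weights of the true terms. -/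
noncomputable def htv {N : ℕ} (T : Fin N → Dnf.Term n) (z : Fin N → ℂ) (x : Cube n) : ℂ :=
  open Classical in ∏ j, if (T j).Sat x then z j else 1

/-- The real statistic. -/
noncomputable def rst (M : Finset (Finset (Fin n))) (u : Finset (Fin n) → ℝ) (x : Cube n) : ℝ :=
  ∑ m ∈ M, u m * mon m x

/-- The mass at scale `D`. -/
noncomputable def vd (M : Finset (Finset (Fin n))) (u : Finset (Fin n) → ℝ) (D : ℝ) : ℝ :=
  ∑ m ∈ M, (1 / 2 : ℝ) ^ m.card * min 1 ((u m / D) ^ 2)

/-- The phases. -/
noncomputable def eu (t : ℝ) (u : Finset (Fin n) → ℝ) (m : Finset (Fin n)) : ℂ :=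
  Complex.exp (Complex.I * (t * u m))

end Pool.Agent.MP_ca1109_lc.Xh
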