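import Pool.Agent.MP_ca1109_lc.Xh.FA
import Pool.Agent.MP_ca1109_lc.Xh.AC
import Pool.Agent.MP_ca1109_lc.Xh.SC
import Pool.Agent.MP_ca1109_lc.Xh.CN
import Pool.Agent.MP_ca1109_lc.Xh.RA

/-!
# Thresholds with real weights are approximable
-/

namespace Pool.Agent.MP_ca1109_lc.Xh

open Finset Pool.Agent.H66 Pool.Agent.MP_ca1109_lc.Mpg Pool.Agent.MP_ca1109_lc.Agp
open Pool.Agent.MP_ca1109_lc.Xp Pool.Agent.MP_ca1109_lc.Xg
open Pool.Agent.MP_ca1109_lc.Dnf (Cube ch one one_le one_nonneg one_true one_false)

variable {n : ℕ}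

theorem xfb_eu (t : ℝ) (u : Finset (Fin n) → ℝ) (m : Finset (Fin n)) : ‖eu t u m‖ = 1 := by
  unfold eu
  rw [← Complex.ofReal_mul, mul_comm]
  exact Complex.norm_exp_ofReal_mul_I _

/-- The sum over the true monomials in `H`. -/
theorem xfb_tru (H : Finset (Finset (Fin n))) (u : Finset (Fin n) → ℝ) (x : Cube n) :
    rst H u x = ∑ m ∈ tru H x, u m := by
  classical
  unfold rst tru
  rw [sum_filter]
  refine sum_congr rfl fun m _ => ?_
  unfold mon
  by_cases h : Tr m x
  · rw [one_true h, if_pos h, mul_one]
  · rw [one_false h, if_neg h, mul_zero]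

theorem xfb_exp (M : Finset (Finset (Fin n))) (t : ℝ) (u : Finset (Fin n) → ℝ) (x : Cube n) :
    Complex.exp (Complex.I * (t * rst M u x)) = pr (eu t u) M x := by
  classical
  unfold rst pr
  induction M using Finset.induction_on with
  | empty => simp
  | insert a s ha ih =>
    rw [sum_insert ha, prod_insert ha, ← ih, Complex.ofReal_add, mul_add, mul_add, Complex.exp_add]
    congr 1
    unfold mon
    by_cases h : Tr a x
    · rw [one_true h, if_pos h, mul_one]
      rfl
    · rw [one_false h, if_neg h]
      simp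

/-- From `HFools` to the phases. -/
theorem HFools.phase {r : ℕ} {K ε : ℝ} (hK : 0 ≤ K) {Ω : Type*} [Fintype Ω] {X : Ω → Cube n}
    (h : HFools r K ε X) {M : Finset (Finset (Fin n))} (hM : Rd r M) (u : Finset (Fin n) → ℝ)
    (t : ℝ) : ‖(av fun ω => pr (eu t u) M (X ω)) - av (pr (eu t u) M)‖ ≤ ε := by
  have h1 := h M ∅ (fun _ => 1) (eu t u) hM (empty_subset _) (by unfold Xp.lam; simpa using hK)
    (fun _ => by simp) fun m _ => xfb_eu t u m
  have e : ∀ x, pt (fun _ => 1) ∅ (eu t u) M x = pr (eu t u) M x := fun x => by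
    unfold pt
    rw [one_mul]
  simp only [e] at h1
  have e2 : av (pt (fun _ => 1) ∅ (eu t u) M) = av (pr (eu t u) M) := by
    congr 1
    funext x
    exact e x
  rwa [e2] at h1

theorem xfb_lam_le (M : Finset (Finset (Fin n))) (u : Finset (Fin n) → ℝ) {D : ℝ} (hD : 0 < D)
    (H : Finset (Finset (Fin n))) (hH : H ⊆ M) (h : ∀ m ∈ H, D < |u m|) : Xp.lam H ≤ vd M u D := by
  unfold Xp.lam vd
  refine le_trans ?_ (sum_le_sum_of_subset_of_nonneg hH fun m _ _ => ?_)
  · refine sum_le_sum fun m hm => ?_
    have h1 : 1 ≤ (u m / D) ^ 2 := by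
      rw [div_pow, one_le_div (by positivity), ← sq_abs (u m)]
      exact pow_le_pow_left₀ hD.le (h m hm).le 2
    rw [min_eq_left h1, mul_one]
  · positivity

theorem xfb_vd_mono {M L : Finset (Finset (Fin n))} (h : L ⊆ M) (u : Finset (Fin n) → ℝ) (D : ℝ) :
    vd L u D ≤ vd M u D := by
  unfold vd
  refine sum_le_sum_of_subset_of_nonneg h fun m _ _ => ?_
  positivity

open Classical in
theorem xfb_pr_ite {M H L : Finset (Finset (Fin n))} (hLM : L ⊆ M) (hH : ∀ m ∈ M, m ∉ L → m ∈ H)
    (hL : ∀ m ∈ L, m ∉ H) (ζ : Finset (Fin n) → ℂ) (x : Cube n) :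
    pr (fun m => if m ∈ H then 1 else ζ m) M x = pr ζ L x := by
  unfold Xp.pr
  refine (prod_subset hLM fun m hm hmL => ?_).symm.trans ?_
  · show (if Tr m x then (if m ∈ H then 1 else ζ m) else 1) = 1
    rw [if_pos (hH m hm hmL), ite_self]
  · refine prod_congr rfl fun m hm => ?_
    show (if Tr m x then (if m ∈ H then 1 else ζ m) else 1) = _
    rw [if_neg (hL m hm)]

theorem xfb_abs_le_one (Q : Prop) {h : ℝ} (h0 : 0 ≤ h) (h1 : h ≤ 1) : |one Q - h| ≤ 1 := by
  have a := one_nonneg Q
  have b := one_le Q
  rw [abs_le]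
  constructor <;> linarith

/-- The clamp. -/
noncomputable def clp (y : ℝ) : ℝ := max 0 (min 1 y)

theorem clp_nonneg (y : ℝ) : 0 ≤ clp y := le_max_left _ _
theorem clp_le (y : ℝ) : clp y ≤ 1 := max_le zero_le_one (min_le_left _ _)
theorem clp_one {y : ℝ} (h : 1 ≤ y) : clp y = 1 := by
  unfold clp
  rw [min_eq_left h]
  exact max_eq_right zero_le_one
theorem clp_zero {y : ℝ} (h : y ≤ 0) : clp y = 0 := by
  unfold clp
  rw [min_eq_right (h.trans zero_le_one)]
  exact max_eq_left h

/-- Thresholds are approximable. -/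
theorem xfb_thr (r : ℕ) {ε₁ : ℝ} (h1 : 0 < ε₁) :
    ∃ C K : ℝ, 0 ≤ C ∧ 0 ≤ K ∧ ∃ ε₀ : ℝ, 0 < ε₀ ∧ ∀ (n : ℕ) (M : Finset (Finset (Fin n))), Rd r M →
      (∀ m ∈ M, m ≠ ∅) → ∀ u : Finset (Fin n) → ℝ, (∀ m ∈ M, u m ≠ 0) → ∀ θ : ℝ,
      ∃ (H : Finset (Finset (Fin n))) (G : Cube n → ℂ), H ⊆ M ∧ Xp.lam H ≤ K ∧
        (∀ x, ‖G x‖ ≤ 2) ∧ HC M H C G ∧
        ∀ {Ω : Type} [Fintype Ω] [Nonempty Ω] (X : Ω → Cube n), HFools r K ε₀ X →
          (avg fun ω => ‖((one (θ ≤ rst M u (X ω)) : ℝ) : ℂ) - G (X ω)‖) ≤ ε₁ := by
  obtain ⟨Ka, hKa⟩ := anti r (ε := ε₁ / 16) (by positivity)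
  obtain ⟨K, hKdef⟩ : ∃ K : ℝ, K = 4 * max Ka 1 := ⟨_, rfl⟩
  have hK0 : 0 < K := by
    rw [hKdef]
    have := le_max_right Ka 1
    linarith
  obtain ⟨R, hR0, hR⟩ := conc r K (ε := ε₁ / 16) (by positivity)
  obtain ⟨εr, hεr⟩ : ∃ εr : ℝ, εr = min 1 (ε₁ / 4) := ⟨_, rfl⟩
  have hεr0 : 0 < εr := by rw [hεr]; exact lt_min one_pos (by positivity)
  have hεr1 : εr ≤ 1 := by rw [hεr]; exact min_le_left _ _
  have hεr2 : εr ≤ ε₁ / 4 := by rw [hεr]; exact min_le_right _ _
  obtain ⟨N, P, φ, b, hP, hφ1, hφ2⟩ := ramp R hR0 hεr0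
  refine ⟨(∑ j, ‖φ j‖) + 1, K, by positivity, hK0.le, ε₁ / 64, by positivity, ?_⟩
  intro n M hM hne u hu θ
  by_cases hlam : Xp.lam M ≤ K
  · -- everything is heavy
    refine ⟨M, fun x => ((one (θ ≤ rst M u x) : ℝ) : ℂ), subset_rfl, hlam, fun x => ?_, ?_, ?_⟩
    · rw [Complex.norm_real, Real.norm_of_nonneg (one_nonneg _)]
      linarith [one_le (θ ≤ rst M u x)]
    · have h2 : HC M M 1 (pt (fun A => ((one (θ ≤ ∑ m ∈ A, u m) : ℝ) : ℂ)) M (fun _ => 1) M) := by
        refine HC.pt (fun A => ?_) fun m _ => norm_one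
        rw [Complex.norm_real, Real.norm_of_nonneg (one_nonneg _)]
        exact one_le _
      refine (h2.of_eq fun x => ?_).mono ?_
      · unfold pt
        rw [Xg.xth_pr_one, mul_one, xfb_tru]
      · have : 0 ≤ ∑ j, ‖φ j‖ := sum_nonneg fun _ _ => norm_nonneg _
        linarith
    · intro Ω _ _ X _
      have e : (fun ω => ‖((one (θ ≤ rst M u (X ω)) : ℝ) : ℂ) -
          ((one (θ ≤ rst M u (X ω)) : ℝ) : ℂ)‖) = fun _ => 0 := by
        funext ω
        rw [sub_self, norm_zero]
      rw [e, avg_const]
      exact h1.le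
  · obtain ⟨D, hD, hvK, hKv⟩ := scale M u hK0 hu (not_le.1 hlam)
    have hKaD : Ka ≤ vd M u D := by
      have := le_max_left Ka 1
      linarith
    set H : Finset (Finset (Fin n)) := M.filter fun m => D < |u m| with hH
    set L : Finset (Finset (Fin n)) := M.filter fun m => ¬ D < |u m| with hL
    have hHM : H ⊆ M := filter_subset _ _
    have hLM : L ⊆ M := filter_subset _ _
    have hlamH : Xp.lam H ≤ K :=
      (xfb_lam_le M u hD H hHM fun m hm => (mem_filter.1 hm).2).trans hvK
    have hRdL : Rd r L := fun i => (card_le_card (filter_subset_filter _ hLM)).trans (hM i)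
    have hsplit : ∀ x, rst M u x = rst H u x + rst L u x := by
      intro x
      unfold rst
      exact (sum_filter_add_sum_filter_not M (fun m => D < |u m|) _).symm
    set a : ℝ := avg (rst L u) with ha
    set cA : Finset (Finset (Fin n)) → ℝ := fun A => ((∑ m ∈ A, u m) + a - θ) / D + 1 with hcA
    set c : Cube n → ℝ := fun x => cA (tru H x) with hc
    set v : Cube n → ℝ := fun x => (rst L u x - a) / D with hv
    have hcv : ∀ x, c x + v x = (rst M u x - θ) / D + 1 := by
      intro x
      simp only [hc, hcA, hv]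
      rw [← xfb_tru, hsplit]
      ring
    set G : Cube n → ℂ := fun x => (if |c x| ≤ R + 1 then
      ∑ j, φ j * Complex.exp (Complex.I * (2 * Real.pi * b j * (c x + v x) / P)) else 0) +
      (if R + 1 < c x then 1 else 0) with hG
    have hGn : ∀ x, ‖G x‖ ≤ 2 := by
      intro x
      simp only [hG]
      by_cases h2 : |c x| ≤ R + 1
      · rw [if_pos h2, if_neg (not_lt.2 (le_of_abs_le h2)), add_zero]
        exact (hφ1 _ _ h2).trans (by linarith)
      · rw [if_neg h2, zero_add]
        split_ifs
        · rw [norm_one]; norm_num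
        · rw [norm_zero]; norm_num
    refine ⟨H, G, hHM, hlamH, hGn, ?_, ?_⟩
    · -- the combination
      set t : Fin N → ℝ := fun j => 2 * Real.pi * b j / (P * D) with ht
      have h2 : ∀ j : Fin N, HC M H ‖φ j‖ (fun x => if |c x| ≤ R + 1 then
          φ j * Complex.exp (Complex.I * (2 * Real.pi * b j * (c x + v x) / P)) else 0) := by
        intro j
        have h3 : HC M H 1 (pt (fun A => if |cA A| ≤ R + 1 then
            Complex.exp (Complex.I * (2 * Real.pi * b j * (cA A) / P)) else 0) H
            (fun m => if m ∈ H then 1 else eu (t j) u m) M) := by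
          refine HC.pt (fun A => ?_) fun m _ => ?_
          · split_ifs
            · rw [show Complex.I * (2 * Real.pi * b j * (cA A) / P) =
                ((2 * Real.pi * b j * (cA A) / P : ℝ) : ℂ) * Complex.I by push_cast; ring]
              exact (Complex.norm_exp_ofReal_mul_I _).le
            · rw [norm_zero]
              exact zero_le_one
          · split_ifs
            · exact norm_one
            · exact xfb_eu _ _ _
        have h4 := h3.smul (φ j * Complex.exp (Complex.I * (-(t j * a) : ℝ)))
        refine (h4.of_eq fun x => ?_).mono (le_of_eq ?_)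
        · have e1 : pr (fun m => if m ∈ H then 1 else eu (t j) u m) M x = pr (eu (t j) u) L x :=
            xfb_pr_ite hLM (fun m hm hmL => by
              by_contra hcon
              exact hmL (mem_filter.2 ⟨hm, fun h' => hcon (mem_filter.2 ⟨hm, h'⟩)⟩))
              (fun m hm h' => (mem_filter.1 hm).2 (mem_filter.1 h').2) _ x
          unfold pt
          rw [e1, ← xfb_exp]
          beta_reduce
          by_cases h5 : |c x| ≤ R + 1
          · rw [if_pos h5, if_pos (show |cA (tru H x)| ≤ R + 1 from h5)]
            have e2 : Complex.exp (Complex.I * (2 * Real.pi * b j * (c x + v x) / P)) =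
                Complex.exp (Complex.I * (-(t j * a) : ℝ)) *
                (Complex.exp (Complex.I * (2 * Real.pi * b j * (cA (tru H x)) / P)) *
                Complex.exp (Complex.I * (t j * rst L u x))) := by
              rw [← Complex.exp_add, ← Complex.exp_add]
              congr 1
              simp only [hc, hv, ht]
              have hD' : (D : ℂ) ≠ 0 := by exact_mod_cast hD.ne'
              have hP' : (P : ℂ) ≠ 0 := by exact_mod_cast hP.ne'
              push_cast
              field_simp
              ring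
            rw [e2]
            ring
          · rw [if_neg h5, if_neg (show ¬ |cA (tru H x)| ≤ R + 1 from h5)]
            ring
        · rw [norm_mul, mul_comm Complex.I, Complex.norm_exp_ofReal_mul_I, mul_one, mul_one]
      have h3 := HC.sum (univ : Finset (Fin N)) (fun j => ‖φ j‖) _ fun j _ => h2 j
      have h4 : HC M H 1 (pt (fun A => if R + 1 < cA A then 1 else 0) H (fun _ => 1) M) := by
        refine HC.pt (fun A => ?_) fun m _ => norm_one
        split_ifs
        · exact norm_one.le
        · rw [norm_zero]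
          exact zero_le_one
      refine (h3.add h4).of_eq fun x => ?_
      simp only [hG]
      congr 1
      · by_cases h5 : |c x| ≤ R + 1
        · simp only [if_pos h5]
        · simp only [if_neg h5, sum_const_zero]
      · unfold pt
        rw [Xg.xth_pr_one, mul_one]
    · intro Ω _ _ X hX
      have hph := fun (M' : Finset (Finset (Fin n))) (hM' : Rd r M') (t : ℝ) =>
        hX.phase hK0.le hM' u t
      have hanti := hKa n M u D hM hne hD hKaD X (ε₁ / 64) (hph M hM) θ
      have hconc := hR n L u D hRdL (fun m hm => hne m (hLM hm)) hD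
        ((xfb_vd_mono hLM u D).trans hvK) (fun m hm => not_lt.1 (mem_filter.1 hm).2) X (ε₁ / 64)
        (hph L hRdL)
      have hpt : ∀ x : Cube n, ‖((one (θ ≤ rst M u x) : ℝ) : ℂ) - G x‖ ≤
          one (|rst M u x - θ| ≤ D) + εr + 3 * one (R * D ≤ |rst L u x - a|) := by
        intro x
        have n1 := one_nonneg (|rst M u x - θ| ≤ D)
        have n2 := one_nonneg (R * D ≤ |rst L u x - a|)
        have hA : ‖((one (θ ≤ rst M u x) : ℝ) : ℂ) - ((clp (c x + v x) : ℝ) : ℂ)‖ ≤
            one (|rst M u x - θ| ≤ D) := by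
          rw [← Complex.ofReal_sub, Complex.norm_real, Real.norm_eq_abs]
          have c0 := clp_nonneg (c x + v x)
          have c1 := clp_le (c x + v x)
          by_cases h2 : |rst M u x - θ| ≤ D
          · rw [one_true h2]
            exact xfb_abs_le_one _ c0 c1
          · rw [one_false h2]
            rw [not_le, lt_abs] at h2
            rcases h2 with h2 | h2
            · have h3 : 1 ≤ c x + v x := by
                rw [hcv]
                have : 0 ≤ (rst M u x - θ) / D := div_nonneg (by linarith) hD.le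
                linarith
              rw [clp_one h3, one_true (by linarith : θ ≤ rst M u x), sub_self, abs_zero]
            · have h3 : c x + v x ≤ 0 := by
                rw [hcv]
                have : (rst M u x - θ) / D ≤ -1 := by
                  rw [div_le_iff₀ hD]
                  linarith
                linarith
              rw [clp_zero h3, one_false (by linarith : ¬ θ ≤ rst M u x), sub_self, abs_zero]
        have hB : ‖((clp (c x + v x) : ℝ) : ℂ) - G x‖ ≤ εr + 3 * one (R * D ≤ |rst L u x - a|) := by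
          by_cases h2 : R * D ≤ |rst L u x - a|
          · rw [one_true h2]
            refine (norm_sub_le _ _).trans ?_
            rw [Complex.norm_real, Real.norm_of_nonneg (clp_nonneg _)]
            linarith [clp_le (c x + v x), hGn x]
          · rw [one_false h2, mul_zero, add_zero]
            have hvR : |v x| ≤ R := by
              simp only [hv]
              rw [abs_div, abs_of_pos hD, div_le_iff₀ hD]
              exact (not_le.1 h2).le
            simp only [hG]
            by_cases h3 : |c x| ≤ R + 1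
            · rw [if_pos h3, if_neg (not_lt.2 (le_of_abs_le h3)), add_zero, norm_sub_rev]
              exact hφ2 _ _ hvR h3
            · rw [if_neg h3, zero_add]
              rw [not_le, lt_abs] at h3
              have hv1 := neg_le_of_abs_le hvR
              have hv2 := le_of_abs_le hvR
              rcases h3 with h3 | h3
              · rw [if_pos h3, clp_one (by linarith), Complex.ofReal_one, sub_self, norm_zero]
                exact hεr0.le
              · rw [if_neg (by linarith), clp_zero (by linarith), Complex.ofReal_zero, sub_self,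
                  norm_zero]
                exact hεr0.le
        have e : ((one (θ ≤ rst M u x) : ℝ) : ℂ) - G x =
            (((one (θ ≤ rst M u x) : ℝ) : ℂ) - ((clp (c x + v x) : ℝ) : ℂ)) +
            (((clp (c x + v x) : ℝ) : ℂ) - G x) := by ring
        rw [e]
        refine (norm_add_le _ _).trans ?_
        linarith
      refine (avg_mono fun ω => hpt (X ω)).trans ?_
      rw [avg_add, avg_add, avg_const, avg_mul_left]
      linarith

end Pool.Agent.MP_ca1109_lc.Xh
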