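import Pool.Agent.MP_ca1109_lc.Xg.MA
import Pool.Agent.MP_ca1109_lc.Xh.CO
import Pool.Agent.MP_ca1109_lc.Xh.BBb

/-!
# Row HMA: the generator fools the products with a function of the heavy monomials
-/

namespace Pool.Agent.MP_ca1109_lc.Xh

open Finset Pool.Agent.H66 Pool.Agent.MP_ca1109_lc.Mpg Pool.Agent.MP_ca1109_lc.Agp
open Pool.Agent.MP_ca1109_lc.Xp Pool.Agent.MP_ca1109_lc.Xg
open Pool.Agent.MP_ca1109_lc.Dnf (Cube ch one E mix)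

variable {n : ℕ}

theorem hma_lam {A B : Finset (Finset (Fin n))} (h : A ⊆ B) : Xp.lam A ≤ Xp.lam B := by
  unfold Xp.lam
  exact Finset.sum_le_sum_of_subset_of_nonneg h fun _ _ _ => by positivity

theorem hma_norm {ψ : Finset (Finset (Fin n)) → ℂ} (hψ : ∀ A, ‖ψ A‖ ≤ 1)
    (H : Finset (Finset (Fin n))) {ζ : Finset (Fin n) → ℂ} {M : Finset (Finset (Fin n))}
    (h : ∀ m ∈ M, ‖ζ m‖ = 1) (x : Cube n) : ‖pt ψ H ζ M x‖ ≤ 1 := by
  unfold pt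
  rw [norm_mul, yma_norm_pr h, mul_one]
  exact hψ _

theorem hma_split (ψ : Finset (Finset (Fin n)) → ℂ) (H : Finset (Finset (Fin n)))
    (ζ : Finset (Fin n) → ℂ) (M : Finset (Finset (Fin n))) (x : Cube n) :
    pt ψ H ζ M x = pr ζ (M.filter fun m => ¬ m ≠ ∅) (fun _ => false) *
      pt (fun A => ψ ((H.filter fun m => ¬ m ≠ ∅) ∪ A)) (H.filter fun m => m ≠ ∅) ζ
        (M.filter fun m => m ≠ ∅) x := by
  have h1 : tru H x = (H.filter fun m => ¬ m ≠ ∅) ∪ tru (H.filter fun m => m ≠ ∅) x := by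
    ext m
    unfold tru
    simp only [Finset.mem_union, Finset.mem_filter]
    constructor
    · rintro ⟨hm, hT⟩
      by_cases h : m ≠ ∅
      · exact Or.inr ⟨⟨hm, h⟩, hT⟩
      · exact Or.inl ⟨hm, h⟩
    · rintro (⟨hm, h⟩ | ⟨⟨hm, h⟩, hT⟩)
      · refine ⟨hm, ?_⟩
        have h3 : m = ∅ := not_not.1 h
        subst h3
        exact fun i hi => absurd hi (Finset.notMem_empty i)
      · exact ⟨hm, hT⟩
  unfold pt
  beta_reduce
  rw [← h1, yma_split ζ M x]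
  ring

theorem hma_point {W : ℕ} {M H : Finset (Finset (Fin n))} {ψ : Finset (Finset (Fin n)) → ℂ}
    (hψ : ∀ A, ‖ψ A‖ ≤ 1) (hH : H ⊆ M) {ζ : Finset (Fin n) → ℂ}
    (hζ : ∀ m ∈ M, ‖ζ m‖ = 1) (x : Cube n) :
    ‖pt ψ H ζ M x - pt ψ (H.filter fun m => m.card ≤ W) ζ (M.filter fun m => m.card ≤ W) x‖ ≤
      2 * ∑ m ∈ M.filter (fun m => ¬ m.card ≤ W), mon m x := by
  classical
  have hnn : ∀ m : Finset (Fin n), 0 ≤ mon m x := by
    intro m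
    unfold mon one
    split_ifs <;> norm_num
  by_cases h : ∃ m ∈ M.filter (fun m => ¬ m.card ≤ W), Tr m x
  · obtain ⟨m, hm, hT⟩ := h
    have h1 : (1 : ℝ) ≤ ∑ m ∈ M.filter (fun m => ¬ m.card ≤ W), mon m x := by
      have h2 : mon m x = 1 := by
        unfold mon one
        rw [if_pos hT]
      rw [← h2]
      exact single_le_sum (f := fun m => mon m x) (fun i _ => hnn i) hm
    have h3 : ‖pt ψ H ζ M x‖ ≤ 1 := hma_norm hψ H hζ x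
    have h4 : ‖pt ψ (H.filter fun m => m.card ≤ W) ζ (M.filter fun m => m.card ≤ W) x‖ ≤ 1 :=
      hma_norm hψ _ (fun m hm => hζ m (mem_filter.1 hm).1) x
    calc ‖pt ψ H ζ M x - pt ψ (H.filter fun m => m.card ≤ W) ζ (M.filter fun m => m.card ≤ W) x‖
        ≤ ‖pt ψ H ζ M x‖ +
          ‖pt ψ (H.filter fun m => m.card ≤ W) ζ (M.filter fun m => m.card ≤ W) x‖ :=
          norm_sub_le _ _
      _ ≤ 2 * 1 := by linarith
      _ ≤ _ := by linarith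
  · have h : ∀ m ∈ M.filter (fun m => ¬ m.card ≤ W), ¬ Tr m x := fun m hm hT => h ⟨m, hm, hT⟩
    have h1 : pr ζ M x = pr ζ (M.filter fun m => m.card ≤ W) x := by
      unfold pr
      rw [← prod_filter_mul_prod_filter_not M (fun m => m.card ≤ W)]
      have h2 : ∏ m ∈ M.filter (fun m => ¬ m.card ≤ W), (if Tr m x then ζ m else 1) = 1 := by
        refine prod_eq_one fun m hm => ?_
        rw [if_neg (h m hm)]
      rw [h2, mul_one]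
    have h2 : tru H x = tru (H.filter fun m => m.card ≤ W) x := by
      ext m
      unfold tru
      simp only [Finset.mem_filter]
      constructor
      · rintro ⟨hm, hT⟩
        refine ⟨⟨hm, ?_⟩, hT⟩
        by_contra hc
        exact h m (Finset.mem_filter.2 ⟨hH hm, hc⟩) hT
      · rintro ⟨⟨hm, _⟩, hT⟩
        exact ⟨hm, hT⟩
    unfold pt
    rw [h1, h2, sub_self, norm_zero]
    exact mul_nonneg zero_le_two (sum_nonneg fun m _ => hnn m)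

theorem hma_cut {W : ℕ} {M H : Finset (Finset (Fin n))} {ψ : Finset (Finset (Fin n)) → ℂ}
    (hψ : ∀ A, ‖ψ A‖ ≤ 1) (hH : H ⊆ M) {ζ : Finset (Fin n) → ℂ}
    (hζ : ∀ m ∈ M, ‖ζ m‖ = 1) {Ω : Type} [Fintype Ω] [Nonempty Ω] (Y : Ω → Cube n) {δ : ℝ}
    (hδ : 0 ≤ δ) (hY : Bias δ Y) :
    ‖(av fun ω => pt ψ H ζ M (Y ω)) - av fun ω =>
        pt ψ (H.filter fun m => m.card ≤ W) ζ (M.filter fun m => m.card ≤ W) (Y ω)‖ ≤
      2 * M.card * ((1 / 2) ^ W + δ) := by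
  classical
  set N := M.filter (fun m => ¬ m.card ≤ W) with hN
  have hc : (0 : ℝ) < Fintype.card Ω := by exact_mod_cast Fintype.card_pos
  have h1 : ‖(av fun ω => pt ψ H ζ M (Y ω)) - av fun ω =>
        pt ψ (H.filter fun m => m.card ≤ W) ζ (M.filter fun m => m.card ≤ W) (Y ω)‖ ≤
      avg fun ω => 2 * ∑ m ∈ N, mon m (Y ω) := by
    unfold av avg
    rw [← sub_div, ← sum_sub_distrib, norm_div, Complex.norm_natCast]
    refine div_le_div_of_nonneg_right ?_ hc.le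
    refine (norm_sum_le _ _).trans (sum_le_sum fun ω _ => ?_)
    exact hma_point hψ hH hζ (Y ω)
  have h2 : (avg fun ω => 2 * ∑ m ∈ N, mon m (Y ω)) = 2 * ∑ m ∈ N, avg fun ω => mon m (Y ω) := by
    unfold avg
    rw [← mul_sum, sum_comm, mul_div_assoc, sum_div]
  have h3 : ∑ m ∈ N, (avg fun ω => mon m (Y ω)) ≤ N.card * ((1 / 2) ^ W + δ) := by
    rw [← nsmul_eq_mul]
    refine sum_le_card_nsmul _ _ _ fun m hm => ?_
    have h4 := (abs_le.1 (avg_mon_bias hδ hY m)).2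
    have h5 : (1 / 2 : ℝ) ^ m.card ≤ (1 / 2) ^ W :=
      pow_le_pow_of_le_one (by norm_num) (by norm_num)
        (le_of_lt (not_le.1 (mem_filter.1 hm).2))
    linarith
  have h6 : (N.card : ℝ) ≤ M.card := by
    exact_mod_cast card_le_card (filter_subset _ _)
  have h7 : (0 : ℝ) ≤ (1 / 2) ^ W + δ := by positivity
  calc _ ≤ _ := h1
    _ = _ := h2
    _ ≤ 2 * (N.card * ((1 / 2) ^ W + δ)) := by linarith
    _ ≤ 2 * (M.card * ((1 / 2) ^ W + δ)) := by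
        have := mul_le_mul_of_nonneg_right h6 h7
        linarith
    _ = _ := by ring

theorem gx_heavy (r : ℕ) (K : ℝ) {ε : ℝ} (hε : 0 < ε) : ∃ E G, NG E G ∧ ∃ n₀ : ℕ, ∀ n ≥ n₀,
    ∀ (M H : Finset (Finset (Fin n))) (ψ : Finset (Finset (Fin n)) → ℂ) (ζ : Finset (Fin n) → ℂ),
      Rd r M → H ⊆ M → Xp.lam H ≤ K → (∀ A, ‖ψ A‖ ≤ 1) → (∀ m ∈ M, ‖ζ m‖ = 1) →
      ‖na (2 ^ E n) (fun p => pt ψ H ζ M (out G n p)) - av (pt ψ H ζ M)‖ ≤ ε := by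
  classical
  obtain ⟨c, C₁, n₁, t, ht, hcor⟩ := hcore r K (show 0 < ε / 8 by positivity)
  obtain ⟨C₂, n₂, hone⟩ := hbb_one r K (2 * t) (show 0 < ε / 4 by positivity)
  obtain ⟨k₀, hk₀⟩ : ∃ k₀ : ℕ, k₀ = C₁ + C₂ + 14 := ⟨_, rfl⟩
  obtain ⟨E, G, hG, hgen⟩ := qgen r c k₀
  obtain ⟨a, ha⟩ : ∃ a : ℝ, a = 16 * 4 ^ r := ⟨_, rfl⟩
  have ha0 : 0 ≤ a := by rw [ha]; positivity
  obtain ⟨n₀, hn₀⟩ := exists_nat_gt (a + a * C₁ + a * (4 * ((r : ℝ) + 1) ^ 2) +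
    (8 * r * (1 + a)) / ε)
  refine ⟨E, G, hG, max (max n₁ n₂) (max n₀ 1), fun n hn M H₀ ψ₀ ζ hM hHM hHK hψ₀ hζ => ?_⟩
  have hn1 : n₁ ≤ n := (le_max_left _ _).trans ((le_max_left _ _).trans hn)
  have hn2 : n₂ ≤ n := (le_max_right _ _).trans ((le_max_left _ _).trans hn)
  have hn0 : n₀ ≤ n := (le_max_left _ _).trans ((le_max_right _ _).trans hn)
  have hn3 : 1 ≤ n := (le_max_right _ _).trans ((le_max_right _ _).trans hn)
  have hnn : (n₀ : ℝ) ≤ n := by exact_mod_cast hn0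
  have hnr : (1 : ℝ) ≤ n := by exact_mod_cast hn3
  have hC₁0 : (0 : ℝ) ≤ C₁ := Nat.cast_nonneg _
  have hr0 : (0 : ℝ) ≤ r := Nat.cast_nonneg _
  have hbig := hn₀.le.trans hnn
  have g1 : (0 : ℝ) ≤ a * C₁ := by positivity
  have g2 : (0 : ℝ) ≤ a * (4 * ((r : ℝ) + 1) ^ 2) := by positivity
  have g3 : (0 : ℝ) ≤ (8 * r * (1 + a)) / ε := by positivity
  -- the widths and the errors
  obtain ⟨W, hW⟩ : ∃ W : ℕ, W = 2 * Nat.clog 2 n := ⟨_, rfl⟩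
  obtain ⟨δ, hδ⟩ : ∃ δ : ℝ, δ = 2 ^ (2 * (W + r)) / ((n : ℝ) + 1) ^ k₀ := ⟨_, rfl⟩
  have hδ0 : 0 ≤ δ := by rw [hδ]; positivity
  have hδ' : 1 / ((n : ℝ) + 1) ^ k₀ ≤ δ := by
    rw [hδ]
    exact div_le_div_of_nonneg_right (one_le_pow₀ (by norm_num)) (by positivity)
  have hδ2 : δ = 2 ^ (2 * (2 * Nat.clog 2 n + r)) / ((n : ℝ) + 1) ^ k₀ := by rw [hδ, hW]
  have e1 : δ * (n : ℝ) ^ C₂ ≤ 1 := by
    have h1 := yma_err n r C₂ k₀ (by omega) zero_le_one (X := (n : ℝ) ^ C₂) (by positivity)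
      (by rw [one_mul]; exact pow_le_pow_left₀ (by linarith) (by linarith) _)
    rw [← hδ2, ← ha, mul_one] at h1
    refine h1.trans ?_
    rw [div_le_one (by linarith)]
    linarith
  have e2 : C₁ * δ * (n : ℝ) ^ C₁ ≤ 1 := by
    have h1 := yma_err n r C₁ k₀ (by omega) hC₁0 (X := C₁ * (n : ℝ) ^ C₁) (by positivity)
      (mul_le_mul_of_nonneg_left (pow_le_pow_left₀ (by linarith) (by linarith) _) hC₁0)
    rw [← hδ2, ← ha] at h1
    calc C₁ * δ * (n : ℝ) ^ C₁ = δ * (C₁ * (n : ℝ) ^ C₁) := by ring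
      _ ≤ a * C₁ / ((n : ℝ) + 1) := h1
      _ ≤ 1 := by
        rw [div_le_one (by linarith)]
        linarith
  have e3 : ∀ N : ℕ, N ≤ r * n → δ * ((N : ℝ) + 1) ^ 2 * ((W : ℝ) + 1) ^ 2 ≤ 1 := by
    intro N hN
    have hN' : (N : ℝ) ≤ r * n := by exact_mod_cast hN
    have hN0 : (0 : ℝ) ≤ N := Nat.cast_nonneg _
    have hW0 : (0 : ℝ) ≤ W := Nat.cast_nonneg _
    have hW' : (W : ℝ) ≤ 2 * n := by
      rw [hW]
      exact_mod_cast Nat.mul_le_mul_left 2 (yma_clog_le n)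
    have h2 : ((N : ℝ) + 1) ^ 2 ≤ (((r : ℝ) + 1) * ((n : ℝ) + 1)) ^ 2 :=
      pow_le_pow_left₀ (by linarith) (by nlinarith) 2
    have h3 : ((W : ℝ) + 1) ^ 2 ≤ (2 * ((n : ℝ) + 1)) ^ 2 :=
      pow_le_pow_left₀ (by linarith) (by linarith) 2
    have h1 := yma_err n r 4 k₀ (by omega) (show (0 : ℝ) ≤ 4 * ((r : ℝ) + 1) ^ 2 by positivity)
      (X := ((N : ℝ) + 1) ^ 2 * ((W : ℝ) + 1) ^ 2) (by positivity) (by
        calc ((N : ℝ) + 1) ^ 2 * ((W : ℝ) + 1) ^ 2 ≤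
              (((r : ℝ) + 1) * ((n : ℝ) + 1)) ^ 2 * (2 * ((n : ℝ) + 1)) ^ 2 :=
              mul_le_mul h2 h3 (by positivity) (by positivity)
          _ = 4 * ((r : ℝ) + 1) ^ 2 * ((n : ℝ) + 1) ^ 4 := by ring)
    rw [← hδ2, ← ha] at h1
    calc δ * ((N : ℝ) + 1) ^ 2 * ((W : ℝ) + 1) ^ 2 =
          δ * (((N : ℝ) + 1) ^ 2 * ((W : ℝ) + 1) ^ 2) := by ring
      _ ≤ a * (4 * ((r : ℝ) + 1) ^ 2) / ((n : ℝ) + 1) := h1
      _ ≤ 1 := by
        rw [div_le_one (by linarith)]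
        linarith
  have e4 : ∀ N : ℕ, N ≤ r * n → 2 * (N : ℝ) * ((1 / 2) ^ W + δ) ≤ ε / 4 := by
    intro N hN
    have hN' : (N : ℝ) ≤ r * n := by exact_mod_cast hN
    have h1 : ((1 : ℝ) / 2) ^ W ≤ 1 / n ^ 2 := by
      have h2 : ((1 : ℝ) / 2) ^ W = 1 / ((2 : ℝ) ^ Nat.clog 2 n) ^ 2 := by
        rw [hW, one_div_pow, mul_comm 2 (Nat.clog 2 n), pow_mul]
      rw [h2]
      apply one_div_le_one_div_of_le (by positivity)
      exact pow_le_pow_left₀ (by linarith) (yma_clog' n) 2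
    have h3 : δ ≤ a / n ^ 2 := by
      have h4 := yma_err n r 1 k₀ (by omega) zero_le_one (X := (n : ℝ)) (by linarith)
        (by rw [one_mul, pow_one]; linarith)
      rw [← hδ2, ← ha, mul_one] at h4
      rw [le_div_iff₀ (by positivity)]
      have h5 : δ * n * (n : ℝ) ≤ a / ((n : ℝ) + 1) * n :=
        mul_le_mul_of_nonneg_right h4 (by linarith)
      have h6 : a / ((n : ℝ) + 1) * n ≤ a := by
        rw [div_mul_eq_mul_div, div_le_iff₀ (by linarith)]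
        nlinarith
      calc δ * (n : ℝ) ^ 2 = δ * n * n := by ring
        _ ≤ a := h5.trans h6
    have h7 : (8 * r * (1 + a)) ≤ ε * n := by
      have h8 : (8 * r * (1 + a)) / ε ≤ n := by linarith
      rw [div_le_iff₀ hε] at h8
      linarith
    calc 2 * (N : ℝ) * ((1 / 2) ^ W + δ) ≤ 2 * (r * n) * (1 / n ^ 2 + a / n ^ 2) := by
          refine mul_le_mul (by linarith) (add_le_add h1 h3) (by positivity) (by positivity)
      _ = 2 * r * (1 + a) / n := by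
          field_simp
      _ ≤ ε / 4 := by
          rw [div_le_div_iff₀ (by linarith) (by norm_num)]
          linarith
  -- the generator
  obtain ⟨M₁, M₂, M₃, hM₁, hM₂, hM₃, Y, η, H, hY, hη, hH, hf⟩ := hgen n
  have : Nonempty (Fin M₁) := ⟨⟨0, hM₁⟩⟩
  have : Nonempty (Fin M₂) := ⟨⟨0, hM₂⟩⟩
  have : Nonempty (Fin M₃) := ⟨⟨0, hM₃⟩⟩
  have hY' : Bias δ Y := Bias.mono hY hδ'
  have hU : Bias δ (fun x : Cube n => x) := Bias.mono Bias.unif hδ0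
  have hH' : Hs ((1 / 2) ^ c + δ) H := fun Q hQ => (hH Q hQ).trans (by linarith)
  have hf' : na (2 ^ E n) (fun p => pt ψ₀ H₀ ζ M (out G n p)) = Pq Y η H (pt ψ₀ H₀ ζ M) := hf _
  rw [hf']
  -- the empty monomial
  obtain ⟨P, hP⟩ : ∃ P, P = M.filter fun m => m ≠ ∅ := ⟨_, rfl⟩
  obtain ⟨κ, hκ⟩ : ∃ κ, κ = pr ζ (M.filter fun m => ¬ m ≠ ∅) (fun _ => false) := ⟨_, rfl⟩
  have hκ1 : ‖κ‖ = 1 := by
    rw [hκ]
    exact yma_norm_pr (fun m hm => hζ m (Finset.mem_filter.1 hm).1) _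
  obtain ⟨H₁, hH₁⟩ : ∃ H₁, H₁ = H₀.filter fun m => m ≠ ∅ := ⟨_, rfl⟩
  obtain ⟨ψ, hψd⟩ : ∃ ψ : Finset (Finset (Fin n)) → ℂ,
    ψ = fun A => ψ₀ ((H₀.filter fun m => ¬ m ≠ ∅) ∪ A) := ⟨_, rfl⟩
  have hψ : ∀ A, ‖ψ A‖ ≤ 1 := fun A => by
    rw [hψd]
    exact hψ₀ _
  have hpr : pt ψ₀ H₀ ζ M = fun x => κ * pt ψ H₁ ζ P x := by
    funext x
    rw [hκ, hP, hH₁, hψd]
    exact hma_split ψ₀ H₀ ζ M x
  have hH₁P : H₁ ⊆ P := by
    rw [hH₁, hP]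
    exact Finset.filter_subset_filter _ hHM
  have hH₁K : Xp.lam H₁ ≤ K := by
    rw [hH₁]
    exact (hma_lam (Finset.filter_subset _ _)).trans hHK
  have hPs : P ⊆ M := by rw [hP]; exact Finset.filter_subset _ _
  have hPζ : ∀ m ∈ P, ‖ζ m‖ = 1 := fun m hm => hζ m (hPs hm)
  have hPr : Rd r P := yma_rd hM hPs
  have hP0 : ∀ m ∈ P, m ≠ ∅ := fun m hm => by
    rw [hP] at hm
    exact (Finset.mem_filter.1 hm).2
  have hPc := yma_card hP0 hPr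
  rw [hpr, pq_mul, yma_av_mul_left, ← mul_sub, norm_mul, hκ1, one_mul]
  -- the wide monomials
  obtain ⟨N, hN⟩ : ∃ N, N = P.filter fun m => m.card ≤ W := ⟨_, rfl⟩
  have hNs : N ⊆ P := by rw [hN]; exact Finset.filter_subset _ _
  have hNζ : ∀ m ∈ N, ‖ζ m‖ = 1 := fun m hm => hPζ m (hNs hm)
  have hNr : Rd r N := yma_rd hPr hNs
  have hN0 : ∀ m ∈ N, m ≠ ∅ := fun m hm => hP0 m (hNs hm)
  have hNw : ∀ m ∈ N, m.card ≤ W := fun m hm => by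
    rw [hN] at hm
    exact (Finset.mem_filter.1 hm).2
  have hNc := yma_card hN0 hNr
  obtain ⟨H₂, hH₂⟩ : ∃ H₂, H₂ = H₁.filter fun m => m.card ≤ W := ⟨_, rfl⟩
  have hH₂N : H₂ ⊆ N := by
    rw [hH₂, hN]
    exact Finset.filter_subset_filter _ hH₁P
  have hH₂K : Xp.lam H₂ ≤ K := by
    rw [hH₂]
    exact (hma_lam (Finset.filter_subset _ _)).trans hH₁K
  have d1 : ‖Pq Y η H (pt ψ H₁ ζ P) - Pq Y η H (pt ψ H₂ ζ N)‖ ≤ ε / 4 := by
    refine (pq_close Y η H fun s => ?_).trans (e4 _ hPc)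
    rw [hN, hH₂]
    exact hma_cut hψ hH₁P hPζ (fun ω => xo (Y ω) s) hδ0 (hY'.xo s)
  have d2 : ‖av (pt ψ H₁ ζ P) - av (pt ψ H₂ ζ N)‖ ≤ ε / 4 := by
    refine le_trans ?_ (e4 _ hPc)
    rw [hN, hH₂]
    exact hma_cut hψ hH₁P hPζ (fun x : Cube n => x) hδ0 hU
  -- the narrow monomials
  have hgap0 : ∀ m ∈ N, 0 ≤ gap ζ m := fun m _ => by unfold gap; positivity
  have hgap1 : ∀ m ∈ N, gap ζ m ≤ 1 := by
    intro m hm
    have h1 : ‖1 - ζ m‖ ≤ 2 := by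
      calc ‖1 - ζ m‖ ≤ ‖(1 : ℂ)‖ + ‖ζ m‖ := norm_sub_le _ _
        _ = 2 := by rw [hNζ m hm, norm_one]; norm_num
    unfold gap
    have h2 := norm_nonneg (1 - ζ m)
    nlinarith
  have d3 : ‖Pq Y η H (pt ψ H₂ ζ N) - av (pt ψ H₂ ζ N)‖ ≤ ε / 4 := by
    rcases le_or_gt (mw (1 / 2) (gap ζ) N) t with hm | hm
    · refine pq_const Y η H fun s => ?_
      refine hone n hn2 N H₂ ψ ζ hN0 hNr hH₂N hH₂K hψ hNζ ?_ (fun ω => xo (Y ω) s) δ hδ0 e1 (hY'.xo s)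
      exact (sum_le_mw hN0 hgap0).trans (by linarith)
    · have hL : N.card ≤ 2 ^ (Nat.clog 2 n + r + 1) := by
        have h1 : n ≤ 2 ^ Nat.clog 2 n := Nat.le_pow_clog one_lt_two n
        have h2 : r ≤ 2 ^ r := Nat.lt_two_pow_self.le
        calc N.card ≤ r * n := hNc
          _ ≤ 2 ^ r * 2 ^ Nat.clog 2 n := Nat.mul_le_mul h2 h1
          _ = 2 ^ (Nat.clog 2 n + r) := by rw [pow_add, mul_comm]
          _ ≤ 2 ^ (Nat.clog 2 n + r + 1) := Nat.pow_le_pow_right (by norm_num) (by omega)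
      obtain ⟨l, hl, hl1, hl2⟩ := level ht hgap0 hgap1 hL hm
      have hp0 : (0 : ℝ) ≤ (1 / 2) ^ (l + 1) := by positivity
      have hp1 : (1 / 2 : ℝ) ^ (l + 1) ≤ 1 / 2 := by
        calc (1 / 2 : ℝ) ^ (l + 1) ≤ (1 / 2) ^ 1 :=
              pow_le_pow_of_le_one (by norm_num) (by norm_num) (by omega)
          _ = 1 / 2 := pow_one _
      have hmiss : Miss (2 * (W + r)) ((1 / 2 : ℝ) ^ (l + 1)) δ (η ⟨l, hl⟩) := by
        rw [hδ]
        exact hη ⟨l, hl⟩ (2 * (W + r))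
      have hfam : Fam r W N := ⟨hN0, hNr, hNw⟩
      have k1 : ‖Pq Y η H (pt ψ H₂ ζ N)‖ ≤ ε / 8 :=
        pq_level Y η H ⟨l, hl⟩ fun sh => hcor n hn1 W N H₂ ψ ζ hfam hH₂N hH₂K hψ hNζ _ δ hp0 hp1 hl1 hl2 hδ0 e2
          (e3 _ hNc) Y (η ⟨l, hl⟩) H sh hY' hmiss hH'
      have k2 : ‖av (pt ψ H₂ ζ N)‖ ≤ ε / 8 := by
        have h1 := hcor n hn1 W N H₂ ψ ζ hfam hH₂N hH₂K hψ hNζ _ δ hp0 hp1 hl1 hl2 hδ0 e2
          (e3 _ hNc) (fun x : Cube n => x) (η ⟨l, hl⟩) H (fun _ _ _ => false) hU hmiss hH'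
        have h2 : (av fun ω₂ : Fin M₂ => av fun ω₃ : Fin M₃ => av fun x : Cube n =>
            av fun b : Fin c → Bool =>
            pt ψ H₂ ζ N (mq (xo x fun _ => false) (η ⟨l, hl⟩ ω₂) (uv b (H ω₃)))) = av (pt ψ H₂ ζ N) := by
          have h3 : ∀ (ω₂ : Fin M₂) (ω₃ : Fin M₃), (av fun x : Cube n => av fun b : Fin c → Bool =>
              pt ψ H₂ ζ N (mq (xo x fun _ => false) (η ⟨l, hl⟩ ω₂) (uv b (H ω₃)))) = av (pt ψ H₂ ζ N) := by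
            intro ω₂ ω₃
            rw [av_comm]
            simp only [yma_unif]
            exact yma_av_const _
          simp only [h3]
          rw [yma_av_const, yma_av_const]
        rw [h2] at h1
        exact h1
      calc ‖Pq Y η H (pt ψ H₂ ζ N) - av (pt ψ H₂ ζ N)‖ ≤ ‖Pq Y η H (pt ψ H₂ ζ N)‖ + ‖av (pt ψ H₂ ζ N)‖ :=
            norm_sub_le _ _
        _ ≤ ε / 4 := by linarith
  calc ‖Pq Y η H (pt ψ H₁ ζ P) - av (pt ψ H₁ ζ P)‖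
      = ‖(Pq Y η H (pt ψ H₁ ζ P) - Pq Y η H (pt ψ H₂ ζ N)) + (Pq Y η H (pt ψ H₂ ζ N) - av (pt ψ H₂ ζ N)) -
          (av (pt ψ H₁ ζ P) - av (pt ψ H₂ ζ N))‖ := by
        congr 1
        ring
    _ ≤ ‖(Pq Y η H (pt ψ H₁ ζ P) - Pq Y η H (pt ψ H₂ ζ N)) + (Pq Y η H (pt ψ H₂ ζ N) - av (pt ψ H₂ ζ N))‖ +
          ‖av (pt ψ H₁ ζ P) - av (pt ψ H₂ ζ N)‖ := norm_sub_le _ _
    _ ≤ (‖Pq Y η H (pt ψ H₁ ζ P) - Pq Y η H (pt ψ H₂ ζ N)‖ + ‖Pq Y η H (pt ψ H₂ ζ N) - av (pt ψ H₂ ζ N)‖) +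
          ‖av (pt ψ H₁ ζ P) - av (pt ψ H₂ ζ N)‖ := add_le_add (norm_add_le _ _) le_rfl
    _ ≤ ε := by linarith

end Pool.Agent.MP_ca1109_lc.Xh
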