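import Pool.Agent.MP_ca1109_lc.Xh.Test
import Pool.Agent.MP_ca1109_lc.Xh.FB
import Pool.Agent.MP_ca1109_lc.Xh.MA
import Pool.Agent.MP_ca1109_lc.Agp.G3
import Pool.Agent.MP_ca1109_lc.Mpg.G0

/-!
# Boolean functions of modular gates and threshold gates with real weights: the theorem
-/

namespace Pool.Agent.MP_ca1109_lc.Xh

open Finset Pool.Agent.H66 Pool.Agent.MP_ca1109_lc.Mpg Pool.Agent.MP_ca1109_lc.Agp
open Pool.Agent.MP_ca1109_lc.Xp Pool.Agent.MP_ca1109_lc.Xg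
open Pool.Agent.MP_ca1109_lc.Dnf (Cube ch one one_le one_nonneg one_true one_false)

variable {n : ℕ}

theorem HFools.mono {r r' : ℕ} {K K' ε ε' : ℝ} (hr : r ≤ r') (hK : K ≤ K') (hε : ε' ≤ ε)
    {Ω : Type*} [Fintype Ω] {X : Ω → Cube n} (h : HFools r' K' ε' X) : HFools r K ε X :=
  fun M H ψ ζ hM hH hl hψ hζ =>
    (h M H ψ ζ (fun i => (hM i).trans hr) hH (hl.trans hK) hψ hζ).trans hε

theorem hfools_id (r : ℕ) (K : ℝ) {ε : ℝ} (hε : 0 ≤ ε) : HFools r K ε (fun x : Cube n => x) := by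
  intro M H ψ ζ _ _ _ _ _
  rw [show (av fun ω : Cube n => pt ψ H ζ M ω) = av (pt ψ H ζ M) from rfl, sub_self, norm_zero]
  exact hε

open Classical in
theorem xfi_rd {G : Type} [AddCommGroup G] {r : ℕ} {c : Finset (Fin n) → G}
    (h : ∀ i, {m | i ∈ m ∧ c m ≠ 0}.ncard ≤ r) (M : Finset (Finset (Fin n)))
    (hM : ∀ m ∈ M, c m ≠ 0) : Rd (r + 1) M := by
  intro i
  refine le_trans ?_ ((h i).trans (Nat.le_succ r))
  rw [← Set.ncard_coe_finset]
  refine Set.ncard_le_ncard (fun m hm => ?_) (Set.toFinite _)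
  rw [Finset.mem_coe, mem_filter] at hm
  exact ⟨hm.2, hM m hm.1⟩

theorem xfi_ind (P : Prop) (b : Bool) (hb : b = true ↔ P) : ind b = one P := by
  by_cases h : P
  · rw [one_true h, hb.2 h]
    rfl
  · rw [one_false h]
    have : b = false := by
      cases b
      · rfl
      · exact absurd (hb.1 rfl) h
    rw [this]
    rfl

/-- Gates are approximable. -/
theorem xfi_gate (r B : ℕ) {ε₁ : ℝ} (h1 : 0 < ε₁) :
    ∃ C K : ℝ, 0 ≤ C ∧ 0 ≤ K ∧ ∃ ε₀ : ℝ, 0 < ε₀ ∧ ∀ (n : ℕ) (g : Cube n → Bool), Gate r B g →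
      ∃ (M H : Finset (Finset (Fin n))) (G : Cube n → ℂ), Rd (r + 1) M ∧ H ⊆ M ∧ Xp.lam H ≤ K ∧
        (∀ x, ‖G x‖ ≤ 2) ∧ HC M H C G ∧
        ∀ {Ω : Type} [Fintype Ω] [Nonempty Ω] (X : Ω → Cube n), HFools (r + 1) K ε₀ X →
          (avg fun ω => ‖((ind (g (X ω)) : ℝ) : ℂ) - G (X ω)‖) ≤ ε₁ := by
  classical
  obtain ⟨C, K, hC, hK, ε₀, hε₀, hthr⟩ := xfb_thr (r + 1) h1
  refine ⟨max C B, K, le_max_of_le_left hC, hK, ε₀, hε₀, ?_⟩
  intro n g hg
  rcases hg with ⟨G, i1, i2, c, A, hA, hr, hgx⟩ | ⟨w, θ, hr, hgx⟩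
  · have : Fintype G := Fintype.ofFinite G
    set M : Finset (Finset (Fin n)) := univ.filter fun m => c m ≠ 0 with hM
    have hv : ∀ x : Cube n, vl c M x =
        ∑ m : Finset (Fin n), if ∀ i ∈ m, x i = true then c m else 0 := by
      intro x
      unfold vl
      rw [hM, sum_filter]
      refine sum_congr rfl fun m _ => ?_
      by_cases h : c m = 0
      · rw [if_neg (not_not.2 h), h, ite_self]
      · rw [if_pos h]
        by_cases h' : Tr m x
        · rw [if_pos h', if_pos (show ∀ i ∈ m, x i = true from h')]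
        · rw [if_neg h', if_neg (show ¬ ∀ i ∈ m, x i = true from h')]
    refine ⟨M, ∅, fun x => ((one (vl c M x ∈ A) : ℝ) : ℂ), xfi_rd hr M fun m hm => (mem_filter.1 hm).2,
      empty_subset _, by unfold Xp.lam; simpa using hK, fun x => ?_, ?_, ?_⟩
    · rw [Complex.norm_real, Real.norm_of_nonneg (one_nonneg _)]
      linarith [one_le (vl c M x ∈ A)]
    · exact (HC.of_cmb (cmb_abl c M A)).mono ((Nat.cast_le.2 hA).trans (le_max_right _ _))
    · intro Ω _ _ X _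
      have e : (fun ω => ‖((ind (g (X ω)) : ℝ) : ℂ) - ((one (vl c M (X ω) ∈ A) : ℝ) : ℂ)‖) =
          fun _ => 0 := by
        funext ω
        rw [xfi_ind (vl c M (X ω) ∈ A) (g (X ω)) (by rw [hv]; exact hgx _), sub_self, norm_zero]
      rw [e, avg_const]
      exact h1.le
  · set M : Finset (Finset (Fin n)) := univ.filter fun m => w m ≠ 0 ∧ m ≠ ∅ with hM
    have hRd : Rd (r + 1) M := xfi_rd hr M fun m hm => (mem_filter.1 hm).2.1
    have hv : ∀ x : Cube n, (∑ m : Finset (Fin n), if ∀ i ∈ m, x i = true then w m else 0) =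
        rst M w x + w ∅ := by
      intro x
      unfold rst
      rw [hM, sum_filter, ← Finset.add_sum_erase univ _ (mem_univ (∅ : Finset (Fin n))), add_comm]
      congr 1
      · rw [← Finset.add_sum_erase univ _ (mem_univ (∅ : Finset (Fin n)))]
        rw [if_neg (fun h => h.2 rfl), zero_add]
        refine sum_congr rfl fun m hm => ?_
        have hm0 : m ≠ ∅ := (mem_erase.1 hm).1
        by_cases h : w m = 0
        · simp [h]
        · have hc : w m ≠ 0 ∧ m ≠ ∅ := ⟨h, hm0⟩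
          rw [if_pos hc]
          unfold mon
          by_cases h' : ∀ i ∈ m, x i = true
          · rw [if_pos h', one_true (show Tr m x from h'), mul_one]
          · rw [if_neg h', one_false (show ¬ Tr m x from h'), mul_zero]
      · rw [if_pos fun i hi => absurd hi (notMem_empty i)]
    obtain ⟨H, G, hHM, hlam, h01, hH, happ⟩ := hthr n M hRd (fun m hm => (mem_filter.1 hm).2.2) w
      (fun m hm => (mem_filter.1 hm).2.1) (θ - w ∅)
    refine ⟨M, H, G, hRd, hHM, hlam, h01, hH.mono (le_max_left _ _), ?_⟩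
    intro Ω _ _ X hX
    have e : (fun ω => ‖((ind (g (X ω)) : ℝ) : ℂ) - G (X ω)‖) =
        fun ω => ‖((one (θ - w ∅ ≤ rst M w (X ω)) : ℝ) : ℂ) - G (X ω)‖ := by
      funext ω
      rw [xfi_ind (θ - w ∅ ≤ rst M w (X ω)) (g (X ω))
        (by rw [hgx, hv]; constructor <;> intro h <;> linarith)]
    rw [e]
    exact happ X hX

theorem xfi_lam_union (A B : Finset (Finset (Fin n))) : Xp.lam (A ∪ B) ≤ Xp.lam A + Xp.lam B := by
  unfold Xp.lam
  rw [← sum_union_inter]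
  have : 0 ≤ ∑ m ∈ A ∩ B, (1 / 2 : ℝ) ^ m.card := sum_nonneg fun _ _ => by positivity
  linarith

theorem xfi_lam_biUnion {ι : Type*} (s : Finset ι) (H : ι → Finset (Finset (Fin n))) :
    Xp.lam (s.biUnion H) ≤ ∑ j ∈ s, Xp.lam (H j) := by
  classical
  induction s using Finset.induction_on with
  | empty => simp [Xp.lam]
  | insert a s ha ih =>
    rw [biUnion_insert, sum_insert ha]
    exact (xfi_lam_union _ _).trans (by linarith)

/-- Larger classes for small `n` do not matter. -/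
theorem xfi_eventually {𝒯 𝒯' : ∀ n : ℕ, ((Fin n → Bool) → Bool) → Prop} {ε : ℝ}
    (h : LogGen 𝒯 ε) (n₀ : ℕ) (h' : ∀ n ≥ n₀, ∀ T, 𝒯' n T → 𝒯 n T) : LogGen 𝒯' ε := by
  obtain ⟨D, G, hD, hG, hl, c, hc⟩ := h
  refine ⟨D, G, hD, hG, hl, c, ?_⟩
  filter_upwards [hc, Filter.eventually_ge_atTop n₀] with n hn hn'
  exact ⟨hn.1, hn.2.1, fun T hT => hn.2.2 T (h' n hn' T hT)⟩

theorem xfi_avg_fin (M : ℕ) (F : ℕ → ℝ) : avg (fun a : Fin M => F a) = nr M F := by
  unfold avg nr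
  rw [Fintype.card_fin, Fin.sum_univ_eq_sum_range F M]

/-- The theorem. -/
theorem hfinal (r B k : ℕ) {ε : ℝ} (hε : 0 < ε) : LogGen (D2Test r B k) ε := by
  classical
  obtain ⟨C, K, hC, hK, ε₀, hε₀, hg⟩ := xfi_gate r B
    (ε₁ := ε / (4 * (2 ^ k * (3 ^ k * ((k : ℝ) + 1))))) (by positivity)
  obtain ⟨ε₂, hε₂⟩ : ∃ ε₂ : ℝ, ε₂ = min ε₀ (ε / (2 * (2 ^ k * (1 + C) ^ k))) := ⟨_, rfl⟩
  have hε₂0 : 0 < ε₂ := by rw [hε₂]; exact lt_min hε₀ (by positivity)
  have hε₂1 : ε₂ ≤ ε₀ := by rw [hε₂]; exact min_le_left _ _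
  have hε₂2 : ε₂ ≤ ε / (2 * (2 ^ k * (1 + C) ^ k)) := by rw [hε₂]; exact min_le_right _ _
  obtain ⟨E, G, hNG, n₀, HG⟩ := gx_heavy (k * (r + 1) + (r + 1)) (k * K + K) hε₂0
  refine xfi_eventually (𝒯 := fun n T => n₀ ≤ n ∧ D2Test r B k n T)
    (logGen_of hNG fun n T hT => ?_) n₀ fun n hn T hT => ⟨hn, hT⟩
  obtain ⟨hn, g, F, hgate, hT⟩ := hT
  have hne : Nonempty (Fin (2 ^ E n)) := ⟨⟨0, by positivity⟩⟩
  have hX : HFools (k * (r + 1) + (r + 1)) (k * K + K) ε₂
      (fun p : Fin (2 ^ E n) => out G n p) := by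
    intro M H ψ ζ hM hH hl hψ hζ
    have := HG n hn M H ψ ζ hM hH hl hψ hζ
    rwa [← av_fin (2 ^ E n) (fun p => pt ψ H ζ M (out G n p))] at this
  choose M H Gj hRd hHM hlam h01 hHC happ using fun j => hg n (g j) (hgate j)
  set U : Finset (Finset (Fin n)) := univ.biUnion M with hU
  set V : Finset (Finset (Fin n)) := univ.biUnion H with hV
  have hMU : ∀ j, M j ⊆ U := fun j => subset_biUnion_of_mem M (mem_univ j)
  have hHV : ∀ j, H j ⊆ V := fun j => subset_biUnion_of_mem H (mem_univ j)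
  have hVU : V ⊆ U := by
    rw [hV, biUnion_subset]
    exact fun j _ => (hHM j).trans (hMU j)
  have hlamV : Xp.lam V ≤ k * K + K := by
    refine (xfi_lam_biUnion _ _).trans ((sum_le_sum fun j _ => hlam j).trans ?_)
    rw [sum_const, card_univ, Fintype.card_fin, nsmul_eq_mul]
    linarith
  have hRdU : Rd (k * (r + 1) + (r + 1)) U := by
    intro i
    have h2 : (U.filter fun m => i ∈ m) ⊆ univ.biUnion fun j => (M j).filter fun m => i ∈ m := by
      intro m hm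
      rw [mem_filter, hU, mem_biUnion] at hm
      obtain ⟨⟨j, hj, hmj⟩, hi⟩ := hm
      rw [mem_biUnion]
      exact ⟨j, hj, mem_filter.2 ⟨hmj, hi⟩⟩
    refine (card_le_card h2).trans (card_biUnion_le.trans ?_)
    refine (sum_le_sum fun j _ => hRd j i).trans ?_
    rw [sum_const, card_univ, Fintype.card_fin, smul_eq_mul]
    omega
  have hkK : K ≤ k * K + K := by
    have : 0 ≤ (k : ℝ) * K := by positivity
    linarith
  have key := xfi_bool (ε₁ := ε / (4 * (2 ^ k * (3 ^ k * ((k : ℝ) + 1))))) hε₂0.le hC hRdU hVU hlamV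
    F g Gj h01 (fun j => (hHC j).sup (hMU j) (hHV j)) hX
    (fun j => happ j (fun x : Cube n => x) (hfools_id _ _ hε₀.le))
    (fun j => happ j _ (hX.mono (by omega) hkK hε₂1))
  have e1 : nr (2 ^ E n) (fun p => ind (T (out G n p))) =
      avg fun p : Fin (2 ^ E n) => ind (F fun j => g j (out G n p)) := by
    rw [← xfi_avg_fin]
    congr 1
    funext p
    rw [hT]
  have e2 : prob T = avg fun x : Cube n => ind (F fun j => g j x) := by
    rw [prob_eq_avg]
    congr 1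
    funext x
    rw [hT]
  rw [e1, e2]
  refine key.trans ?_
  have e3 : 2 * (2 ^ k * (3 ^ k * ((k : ℝ) * (ε / (4 * (2 ^ k * (3 ^ k * ((k : ℝ) + 1)))))))) ≤
      ε / 2 := by
    rw [show 2 * (2 ^ k * (3 ^ k * ((k : ℝ) * (ε / (4 * (2 ^ k * (3 ^ k * ((k : ℝ) + 1)))))))) =
      ε / 2 * ((k : ℝ) / ((k : ℝ) + 1)) by field_simp; ring]
    have : (k : ℝ) / ((k : ℝ) + 1) ≤ 1 := by
      rw [div_le_one (by positivity)]
      linarith
    nlinarith
  have e4 : 2 ^ k * (1 + C) ^ k * ε₂ ≤ ε / 2 := by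
    calc 2 ^ k * (1 + C) ^ k * ε₂ ≤ 2 ^ k * (1 + C) ^ k * (ε / (2 * (2 ^ k * (1 + C) ^ k))) :=
          mul_le_mul_of_nonneg_left hε₂2 (by positivity)
      _ = ε / 2 := by field_simp
  linarith

end Pool.Agent.MP_ca1109_lc.Xh
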