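import Pool.Agent.MP_ca1109_lc.Xh.Defs
import Pool.Agent.MP_ca1109_lc.Xg.GD

/-!
# The heavy monomials take little from the good ones
-/

namespace Pool.Agent.MP_ca1109_lc.Xh

open Finset Pool.Agent.H66 Pool.Agent.MP_ca1109_lc.Mpg Pool.Agent.MP_ca1109_lc.Agp
open Pool.Agent.MP_ca1109_lc.Xp Pool.Agent.MP_ca1109_lc.Xg
open Pool.Agent.MP_ca1109_lc.Dnf (Cube ch one E mix)

variable {n : ℕ}

/-! ## HGD: `H` takes little from the good monomials -/

theorem gh_le {r : ℕ} {M H : Finset (Finset (Fin n))} {ζ : Finset (Fin n) → ℂ} {m : Finset (Fin n)}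
    (h : ‖ζ m‖ = 1) : gh r ζ M H m ≤ 1 := by
  unfold gh
  split_ifs
  · exact zero_le_one
  · exact gc_le h

theorem gh_nonneg {r : ℕ} {M H : Finset (Finset (Fin n))} {ζ : Finset (Fin n) → ℂ}
    {m : Finset (Fin n)} : 0 ≤ gh r ζ M H m := by
  unfold gh
  split_ifs
  · exact le_rfl
  · exact gc_nonneg

theorem hgd_union {α β : Type*} [DecidableEq β] (s : Finset α) (t : α → Finset β) (f : β → ℝ)
    (hf : ∀ b, 0 ≤ f b) : ∑ b ∈ s.biUnion t, f b ≤ ∑ a ∈ s, ∑ b ∈ t a, f b := by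
  classical
  induction s using Finset.induction_on with
  | empty => simp
  | insert a s ha ih =>
    rw [Finset.biUnion_insert, Finset.sum_insert ha]
    have h1 := Finset.sum_union_inter (s₁ := t a) (s₂ := s.biUnion t) (f := f)
    have h2 : 0 ≤ ∑ b ∈ t a ∩ s.biUnion t, f b := Finset.sum_nonneg fun b _ => hf b
    linarith

theorem htransfer {r : ℕ} (hr : 1 ≤ r) {M H : Finset (Finset (Fin n))} {ζ : Finset (Fin n) → ℂ}
    (hM : Rd r M) (h0 : ∀ m ∈ M, m ≠ ∅) (hH : H ⊆ M) (hζ : ∀ m ∈ M, ‖ζ m‖ = 1) {p : ℝ} (hp : 0 ≤ p)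
    (hp1 : p ≤ 1) :
    mw p (gap ζ) M ≤ 4 * r * (2 * r) ^ (2 * r) * (mw p (gh r ζ M H) M + r * Xp.lam H) := by
  classical
  refine (transfer hr hM h0 hp hp1).trans ?_
  refine mul_le_mul_of_nonneg_left ?_ (by positivity)
  -- the monomials above `H`
  set B : Finset (Finset (Fin n)) := M.filter fun m => ∃ m' ∈ H, m' ⊆ m with hB
  have hq0 : 0 ≤ 1 - p := by linarith
  have hq1 : 1 - p ≤ 1 := by linarith
  have h1 : mw p (gc r ζ M) M ≤ mw p (gh r ζ M H) M + ∑ m ∈ B, (1 / 2 : ℝ) ^ m.card := by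
    unfold mw
    rw [hB, Finset.sum_filter, ← Finset.sum_add_distrib]
    refine Finset.sum_le_sum fun m hm => ?_
    have e1 : (0 : ℝ) ≤ (1 / 2 : ℝ) ^ m.card := by positivity
    have e2 : (0 : ℝ) ≤ 1 - (1 - p) ^ m.card := sub_nonneg.2 (pow_le_one₀ hq0 hq1)
    have e3 : 1 - (1 - p) ^ m.card ≤ 1 := by
      have : (0 : ℝ) ≤ (1 - p) ^ m.card := by positivity
      linarith
    have e4 : (1 / 2 : ℝ) ^ m.card * (1 - (1 - p) ^ m.card) ≤ (1 / 2 : ℝ) ^ m.card :=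
      mul_le_of_le_one_right e1 e3
    have e5 : (0 : ℝ) ≤ (1 / 2 : ℝ) ^ m.card * (1 - (1 - p) ^ m.card) := mul_nonneg e1 e2
    by_cases hb : ∃ m' ∈ H, m' ⊆ m
    · rw [if_pos hb]
      have e6 : gh r ζ M H m = 0 := by
        unfold gh
        rw [if_pos hb]
      rw [e6, zero_mul, zero_add]
      calc gc r ζ M m * ((1 / 2 : ℝ) ^ m.card * (1 - (1 - p) ^ m.card)) ≤
            1 * ((1 / 2 : ℝ) ^ m.card * (1 - (1 - p) ^ m.card)) :=
            mul_le_mul_of_nonneg_right (gc_le (hζ m hm)) e5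
        _ ≤ (1 / 2 : ℝ) ^ m.card := by rw [one_mul]; exact e4
    · rw [if_neg hb, add_zero]
      have e6 : gh r ζ M H m = gc r ζ M m := by
        unfold gh
        rw [if_neg hb]
      rw [e6]
  refine h1.trans (add_le_add le_rfl ?_)
  -- at most `r` monomials above each member of `H`
  have h2 : B ⊆ H.biUnion fun m' => M.filter fun m => m' ⊆ m := by
    intro m hm
    obtain ⟨hmM, m', hm', hs⟩ := Finset.mem_filter.1 hm
    exact Finset.mem_biUnion.2 ⟨m', hm', Finset.mem_filter.2 ⟨hmM, hs⟩⟩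
  calc ∑ m ∈ B, (1 / 2 : ℝ) ^ m.card ≤
        ∑ m ∈ H.biUnion fun m' => M.filter fun m => m' ⊆ m, (1 / 2 : ℝ) ^ m.card :=
        Finset.sum_le_sum_of_subset_of_nonneg h2 fun m _ _ => by positivity
    _ ≤ ∑ m' ∈ H, ∑ m ∈ M.filter fun m => m' ⊆ m, (1 / 2 : ℝ) ^ m.card :=
        hgd_union _ _ _ fun m => by positivity
    _ ≤ ∑ m' ∈ H, r * (1 / 2 : ℝ) ^ m'.card := by
        refine Finset.sum_le_sum fun m' hm' => ?_
        have h3 : ((M.filter fun m => m' ⊆ m).card : ℝ) ≤ r := by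
          exact_mod_cast xgd_up_le hM (h0 m' (hH hm'))
        calc ∑ m ∈ M.filter fun m => m' ⊆ m, (1 / 2 : ℝ) ^ m.card ≤
              ∑ _m ∈ M.filter fun m => m' ⊆ m, (1 / 2 : ℝ) ^ m'.card :=
              Finset.sum_le_sum fun m hm => pow_le_pow_of_le_one (by norm_num) (by norm_num)
                (Finset.card_le_card (Finset.mem_filter.1 hm).2)
          _ = ((M.filter fun m => m' ⊆ m).card : ℝ) * (1 / 2 : ℝ) ^ m'.card := by
              rw [Finset.sum_const, nsmul_eq_mul]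
          _ ≤ r * (1 / 2 : ℝ) ^ m'.card := mul_le_mul_of_nonneg_right h3 (by positivity)
    _ = r * Xp.lam H := by
        unfold Xp.lam
        rw [Finset.mul_sum]

end Pool.Agent.MP_ca1109_lc.Xh
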