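import Pool.Agent.MP_ca1109_lc.Xh.AC
import Pool.Agent.MP_ca1109_lc.Xh.SC
import Pool.Agent.MP_ca1109_lc.Xh.RA
import Pool.Agent.MP_ca1109_lc.Xh.CN

/-!
# Threshold gates with real weights are close to combinations of few products
-/

namespace Pool.Agent.MP_ca1109_lc.Xh

open Finset Pool.Agent.MP_ca1109_lc.Mpg Pool.Agent.MP_ca1109_lc.Agp
open Pool.Agent.MP_ca1109_lc.Xp Pool.Agent.MP_ca1109_lc.Xg
open Pool.Agent.MP_ca1109_lc.Dnf (Cube ch one E mix)

variable {n : ℕ}

/-- `f` is a combination of products with coefficients of total size at most `B`. -/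
def HC (r : ℕ) (K B : ℝ) (f : Cube n → ℂ) : Prop :=
  ∃ (N : ℕ) (c : Fin N → ℂ) (M H : Fin N → Finset (Finset (Fin n)))
    (ψ : Fin N → Finset (Finset (Fin n)) → ℂ) (ζ : Fin N → Finset (Fin n) → ℂ),
    (∀ j, Rd r (M j) ∧ H j ⊆ M j ∧ Xp.lam (H j) ≤ K ∧ (∀ A, ‖ψ j A‖ ≤ 1) ∧
      ∀ m ∈ M j, ‖ζ j m‖ = 1) ∧
    ∑ j, ‖c j‖ ≤ B ∧ ∀ x, f x = ∑ j, c j * pt (ψ j) (H j) (ζ j) (M j) x

theorem HC.mono {r r' : ℕ} {K K' B B' : ℝ} {f : Cube n → ℂ} (h : HC r K B f) (hr : r ≤ r')
    (hK : K ≤ K') (hB : B ≤ B') : HC r' K' B' f := by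
  obtain ⟨N, c, M, H, ψ, ζ, h1, h2, h3⟩ := h
  exact ⟨N, c, M, H, ψ, ζ, fun j => ⟨fun i => ((h1 j).1 i).trans hr, (h1 j).2.1,
    (h1 j).2.2.1.trans hK, (h1 j).2.2.2⟩, h2.trans hB, h3⟩

/-! ## The statistic -/

theorem rst_union {M : Finset (Finset (Fin n))} (p : Finset (Fin n) → Prop) [DecidablePred p]
    (u : Finset (Fin n) → ℝ) (x : Cube n) :
    rst M u x = rst (M.filter p) u x + rst (M.filter fun m => ¬ p m) u x := by
  unfold rst
  rw [sum_filter_add_sum_filter_not]

/-- The value of the statistic is the sum of the weights of the true monomials. -/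
theorem rst_tru (H : Finset (Finset (Fin n))) (u : Finset (Fin n) → ℝ) (x : Cube n) :
    rst H u x = ∑ m ∈ tru H x, u m := by
  classical
  unfold rst tru
  rw [sum_filter]
  refine sum_congr rfl fun m _ => ?_
  unfold mon
  split_ifs with h
  · rw [Dnf.one_true h, mul_one]
  · rw [Dnf.one_false h, mul_zero]

/-- The empty monomial and the weights `0`. -/
theorem rst_core (M : Finset (Finset (Fin n))) (u : Finset (Fin n) → ℝ) :
    ∃ a : ℝ, ∀ x, rst M u x = rst (M.filter fun m => m ≠ ∅ ∧ u m ≠ 0) u x + a := by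
  classical
  refine ⟨∑ m ∈ M.filter (fun m => ¬ (m ≠ ∅ ∧ u m ≠ 0)), u m, fun x => ?_⟩
  rw [rst_union (fun m => m ≠ ∅ ∧ u m ≠ 0)]
  congr 1
  unfold rst
  refine sum_congr rfl fun m hm => ?_
  have h1 := (mem_filter.1 hm).2
  by_cases hm0 : m = ∅
  · have h2 : Tr m x := by
      rw [hm0]
      exact fun i hi => absurd hi (notMem_empty i)
    unfold mon
    rw [Dnf.one_true h2, mul_one]
  · have h2 : u m = 0 := by
      by_contra h3
      exact h1 ⟨hm0, h3⟩
    rw [h2, zero_mul]

/-! ## The threshold -/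

theorem thr (r : ℕ) {ε : ℝ} (hε : 0 < ε) : ∃ K B : ℝ, 0 ≤ K ∧ 0 ≤ B ∧ ∀ (n : ℕ)
    (M : Finset (Finset (Fin n))) (u : Finset (Fin n) → ℝ) (θ : ℝ), Rd r M →
      ∃ f : Cube n → ℂ, HC r K B f ∧ (∀ x, ‖f x‖ ≤ 1 + ε) ∧
        ∀ {Ω : Type} [Fintype Ω] [Nonempty Ω] (Y : Ω → Cube n) (ε₀ : ℝ),
          (∀ M' ⊆ M, ∀ t : ℝ,
            ‖(av fun ω => pr (eu t u) M' (Y ω)) - av (pr (eu t u) M')‖ ≤ ε₀) →
          (avg fun ω => ‖((one (θ ≤ rst M u (Y ω)) : ℝ) : ℂ) - f (Y ω)‖) ≤ ε + 16 * ε₀ := by
  classical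
  -- the constants
  obtain ⟨K₀, hanti⟩ := anti r (show 0 < ε / 4 by positivity)
  set K₁ : ℝ := max 1 K₀ with hK₁
  have hK1 : 1 ≤ K₁ := le_max_left _ _
  obtain ⟨R, hR0, hconc⟩ := conc r (4 * K₁) (show 0 < min (ε / 16) 1 by positivity)
  set ε₂ : ℝ := min (ε / 4) 1 with hε₂
  have hε₂0 : 0 < ε₂ := by positivity
  have hε₂1 : ε₂ ≤ 1 := min_le_right _ _
  have hε₂2 : ε₂ ≤ ε / 4 := min_le_left _ _
  obtain ⟨N, P, φ, b, hP, hb1, hb2⟩ := ramp R hR0 hε₂0
  refine ⟨4 * K₁, 1 + ∑ j, ‖φ j‖, by positivity, by positivity, fun n M u θ hM => ?_⟩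
  -- the reduced family
  obtain ⟨a₀, ha₀⟩ := rst_core M u
  set M₀ := M.filter fun m => m ≠ ∅ ∧ u m ≠ 0 with hM₀
  have hM₀M : M₀ ⊆ M := filter_subset _ _
  have hM₀r : Rd r M₀ := fun i => (card_le_card (filter_subset_filter _ hM₀M)).trans (hM i)
  have hne : ∀ m ∈ M₀, m ≠ ∅ := fun m hm => (mem_filter.1 hm).2.1
  have hu0 : ∀ m ∈ M₀, u m ≠ 0 := fun m hm => (mem_filter.1 hm).2.2
  set θ' := θ - a₀ with hθ'
  have hI : ∀ x : Cube n, (θ ≤ rst M u x) ↔ θ' ≤ rst M₀ u x := by
    intro x
    rw [ha₀ x, hθ', sub_le_iff_le_add]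
  rcases le_or_gt (Xp.lam M₀) (4 * K₁) with hlam | hlam
  · -- small mass: the test is a function of the true monomials
    refine ⟨fun x => pt (fun A => ((one (θ' ≤ ∑ m ∈ A, u m) : ℝ) : ℂ)) M₀ (fun _ => 1) M₀ x,
      ⟨1, fun _ => 1, fun _ => M₀, fun _ => M₀,
        fun _ A => ((one (θ' ≤ ∑ m ∈ A, u m) : ℝ) : ℂ), fun _ _ => 1,
        fun _ => ⟨hM₀r, Subset.refl _, hlam, fun A => ?_, fun m _ => norm_one⟩, ?_, fun x => ?_⟩,
      fun x => ?_, fun Y ε₀ hc => ?_⟩
    · rw [Complex.norm_real, Real.norm_eq_abs, abs_of_nonneg (Dnf.one_nonneg _)]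
      exact Dnf.one_le _
    · simp only [Finset.univ_unique, Finset.sum_singleton, norm_one]
      have : (0 : ℝ) ≤ ∑ j, ‖φ j‖ := sum_nonneg fun _ _ => norm_nonneg _
      linarith
    · simp
    · have h1 : pr (fun _ => (1 : ℂ)) M₀ x = 1 := by
        unfold pr
        simp
      simp only [pt]
      rw [h1, mul_one, Complex.norm_real, Real.norm_eq_abs, abs_of_nonneg (Dnf.one_nonneg _)]
      linarith [Dnf.one_le (θ' ≤ ∑ m ∈ tru M₀ x, u m)]
    · have hε₀ : 0 ≤ ε₀ := (norm_nonneg _).trans (hc ∅ (empty_subset _) 0)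
      have h1 : (fun ω => ‖((one (θ ≤ rst M u (Y ω)) : ℝ) : ℂ) -
          pt (fun A => ((one (θ' ≤ ∑ m ∈ A, u m) : ℝ) : ℂ)) M₀ (fun _ => 1) M₀ (Y ω)‖) =
          fun _ => (0 : ℝ) := by
        funext ω
        have h2 : pr (fun _ => (1 : ℂ)) M₀ (Y ω) = 1 := by
          unfold pr
          simp
        simp only [pt]
        rw [h2, mul_one, ← rst_tru]
        have h3 : one (θ ≤ rst M u (Y ω)) = one (θ' ≤ rst M₀ u (Y ω)) := by
          rw [propext (hI (Y ω))]
        rw [h3, sub_self, norm_zero]
      rw [h1, avg_const]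
      positivity
  · -- the scale
    obtain ⟨D, hD, hD1, hD2⟩ := scale M₀ u (show 0 < 4 * K₁ by positivity) hu0 hlam
    have hD3 : K₁ ≤ vd M₀ u D := by linarith
    set H := M₀.filter fun m => D < |u m| with hH
    set T := M₀.filter fun m => ¬ D < |u m| with hT
    have hHM : H ⊆ M₀ := filter_subset _ _
    have hTM : T ⊆ M₀ := filter_subset _ _
    have hTr : Rd r T := fun i => (card_le_card (filter_subset_filter _ hTM)).trans (hM₀r i)
    have hHK : Xp.lam H ≤ 4 * K₁ := by
      refine le_trans ?_ hD1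
      unfold Xp.lam vd
      refine le_trans (le_of_eq (sum_congr rfl fun m hm => ?_))
        (sum_le_sum_of_subset_of_nonneg hHM fun m _ _ => by positivity)
      have h1 := (mem_filter.1 hm).2
      have h2 : 1 ≤ (u m / D) ^ 2 := by
        rw [← sq_abs, abs_div, abs_of_pos hD]
        have h4 : 1 ≤ |u m| / D := by
          rw [le_div_iff₀ hD, one_mul]
          exact h1.le
        nlinarith
      rw [min_eq_left h2, mul_one]
    have hTK : vd T u D ≤ 4 * K₁ := by
      refine le_trans ?_ hD1
      unfold vd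
      exact sum_le_sum_of_subset_of_nonneg hTM fun m _ _ => by positivity
    have hTD : ∀ m ∈ T, |u m| ≤ D := fun m hm => not_lt.1 (mem_filter.1 hm).2
    set a : ℝ := avg (rst T u) with ha
    -- the shift
    set cs : Finset (Finset (Fin n)) → ℝ := fun A => (∑ m ∈ A, u m + a - θ') / D + 1 with hcs
    set ψ : Fin N → Finset (Finset (Fin n)) → ℂ := fun j A =>
      if |cs A| ≤ R + 1 then Complex.exp ((2 * Real.pi * b j * cs A / P : ℝ) * Complex.I) else 0
      with hψ
    set ψ' : Finset (Finset (Fin n)) → ℂ := fun A => if R + 1 < cs A then 1 else 0 with hψ'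
    set ζ : Fin N → Finset (Fin n) → ℂ := fun j m =>
      if m ∈ T then Complex.exp ((2 * Real.pi * b j * (u m / D) / P : ℝ) * Complex.I) else 1 with hζ
    set κ : Fin N → ℂ := fun j => φ j * Complex.exp ((-(2 * Real.pi * b j * (a / D) / P) : ℝ) *
      Complex.I) with hκ
    have hψ1 : ∀ j A, ‖ψ j A‖ ≤ 1 := by
      intro j A
      simp only [hψ]
      split_ifs
      · rw [Complex.norm_exp_ofReal_mul_I]
      · rw [norm_zero]; exact zero_le_one
    have hψ'1 : ∀ A, ‖ψ' A‖ ≤ 1 := by
      intro A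
      simp only [hψ']
      split_ifs
      · rw [norm_one]
      · rw [norm_zero]; exact zero_le_one
    have hζ1 : ∀ j m, ‖ζ j m‖ = 1 := by
      intro j m
      simp only [hζ]
      split_ifs
      · rw [Complex.norm_exp_ofReal_mul_I]
      · rw [norm_one]
    have hκ1 : ∀ j, ‖κ j‖ = ‖φ j‖ := by
      intro j
      simp only [hκ]
      rw [norm_mul, Complex.norm_exp_ofReal_mul_I, mul_one]
    -- the product of the weights
    have hpr : ∀ j x, pr (ζ j) M₀ x =
        Complex.exp ((2 * Real.pi * b j * (rst T u x / D) / P : ℝ) * Complex.I) := by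
      intro j x
      unfold pr rst
      have h1 : ((2 * Real.pi * b j * ((∑ m ∈ T, u m * mon m x) / D) / P : ℝ) : ℂ) * Complex.I =
          ∑ m ∈ T, ((2 * Real.pi * b j * (u m / D) / P * mon m x : ℝ) : ℂ) * Complex.I := by
        rw [← sum_mul, ← Complex.ofReal_sum]
        congr 2
        rw [sum_div, mul_sum, sum_div]
        refine sum_congr rfl fun m _ => ?_
        ring
      have h0 : ∀ G : Finset (Fin n) → ℂ, ∏ m ∈ T, G m =
          ∏ m ∈ M₀, if ¬ D < |u m| then G m else 1 := by
        intro G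
        rw [hT]
        exact prod_filter _ _
      rw [h1, Complex.exp_sum, h0]
      refine prod_congr rfl fun m hm => ?_
      have h2 : (m ∈ T) ↔ ¬ D < |u m| := by
        rw [hT, mem_filter]
        exact ⟨fun h => h.2, fun h => ⟨hm, h⟩⟩
      unfold mon
      by_cases h3 : Tr m x
      · rw [if_pos h3, Dnf.one_true h3, mul_one]
        simp only [hζ]
        by_cases h4 : m ∈ T
        · rw [if_pos h4, if_pos (h2.1 h4)]
        · rw [if_neg h4, if_neg fun h5 => h4 (h2.2 h5)]
      · rw [if_neg h3, Dnf.one_false h3, mul_zero, Complex.ofReal_zero, zero_mul, Complex.exp_zero]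
        simp
    have hpr1 : ∀ x : Cube n, pr (fun _ => (1 : ℂ)) M₀ x = 1 := by
      intro x
      unfold pr
      simp
    -- the function
    set f : Cube n → ℂ := fun x => ∑ j, κ j * pt (ψ j) H (ζ j) M₀ x + pt ψ' H (fun _ => 1) M₀ x
      with hf
    have hfin : ∀ x, |cs (tru H x)| ≤ R + 1 → f x = ∑ j, φ j *
        Complex.exp (Complex.I * (2 * Real.pi * b j * (cs (tru H x) + (rst T u x - a) / D : ℝ) / P)) := by
      intro x hx
      simp only [hf, pt, hpr1, mul_one]
      have h1 : ψ' (tru H x) = 0 := by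
        simp only [hψ']
        rw [if_neg]
        intro h2
        have := (abs_le.1 hx).2
        linarith
      rw [h1, add_zero]
      refine sum_congr rfl fun j _ => ?_
      rw [hpr j x]
      simp only [hκ, hψ]
      rw [if_pos hx, mul_assoc, ← Complex.exp_add, ← Complex.exp_add]
      congr 2
      push_cast
      ring
    have hfout : ∀ x, ¬ |cs (tru H x)| ≤ R + 1 → f x = ψ' (tru H x) := by
      intro x hx
      simp only [hf, pt, hpr1, mul_one]
      have h1 : ∀ j, ψ j (tru H x) = 0 := by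
        intro j
        simp only [hψ]
        rw [if_neg hx]
      simp [h1]
    refine ⟨f, ?_, ?_, ?_⟩
    · -- the combination
      refine ⟨N + 1, Fin.snoc κ 1, fun _ => M₀, fun _ => H, Fin.snoc ψ ψ',
        Fin.snoc ζ (fun _ => 1), fun j => ⟨hM₀r, hHM, hHK, ?_, ?_⟩, ?_, ?_⟩
      · refine Fin.lastCases ?_ (fun i => ?_) j
        · simpa using hψ'1
        · simpa using hψ1 i
      · refine Fin.lastCases ?_ (fun i => ?_) j
        · simp
        · simpa using fun m _ => hζ1 i m
      · rw [Fin.sum_univ_castSucc]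
        simp [hκ1, add_comm]
      · intro x
        rw [Fin.sum_univ_castSucc]
        simp [hf]
    · -- the bound
      intro x
      by_cases hx : |cs (tru H x)| ≤ R + 1
      · rw [hfin x hx]
        have h1 := hb1 ((rst T u x - a) / D) (cs (tru H x)) hx
        push_cast at h1 ⊢
        linarith
      · rw [hfout x hx]
        linarith [hψ'1 (tru H x)]
    · -- the error
      intro Ω _ _ Y ε₀ hc
      have hε₀ : 0 ≤ ε₀ := (norm_nonneg _).trans (hc ∅ (empty_subset _) 0)
      have e1 := hanti n M₀ u D hM₀r hne hD ((le_max_right _ _).trans hD3) Y ε₀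
        (fun t => hc M₀ hM₀M t) θ'
      have e2 := hconc n T u D hTr (fun m hm => hne m (hTM hm)) hD hTK hTD Y ε₀
        (fun t => hc T (hTM.trans hM₀M) t)
      have hpt : ∀ x : Cube n, ‖((one (θ ≤ rst M u x) : ℝ) : ℂ) - f x‖ ≤
          one (|rst M₀ u x - θ'| ≤ D) + 3 * one (R * D ≤ |rst T u x - a|) + ε₂ := by
        intro x
        have hS : rst M₀ u x = ∑ m ∈ tru H x, u m + rst T u x := by
          rw [rst_union (fun m => D < |u m|), rst_tru]
        set c : ℝ := cs (tru H x) with hc'
        set v : ℝ := (rst T u x - a) / D with hv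
        have hcv : c + v = (rst M₀ u x - θ') / D + 1 := by
          rw [hc', hv, hS]
          simp only [hcs]
          field_simp
          ring
        set g : ℝ := max 0 (min 1 (c + v)) with hg
        have hg0 : 0 ≤ g := le_max_left _ _
        have hg1 : g ≤ 1 := max_le zero_le_one (min_le_left _ _)
        have hI1 : |one (θ ≤ rst M u x) - g| ≤ one (|rst M₀ u x - θ'| ≤ D) := by
          rw [propext (hI x)]
          by_cases h1 : |rst M₀ u x - θ'| ≤ D
          · rw [Dnf.one_true h1, abs_le]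
            have h2 := Dnf.one_nonneg (θ' ≤ rst M₀ u x)
            have h3 := Dnf.one_le (θ' ≤ rst M₀ u x)
            constructor <;> linarith
          · rw [Dnf.one_false h1]
            by_cases h2 : θ' ≤ rst M₀ u x
            · have h3 : 1 ≤ c + v := by
                rw [hcv]
                have : 0 ≤ (rst M₀ u x - θ') / D := div_nonneg (by linarith) hD.le
                linarith
              rw [Dnf.one_true h2, hg, min_eq_left h3, max_eq_right zero_le_one, sub_self, abs_zero]
            · have h3 : c + v ≤ 0 := by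
                rw [hcv]
                rw [abs_of_neg (by linarith [not_le.1 h2])] at h1
                have : (rst M₀ u x - θ') / D ≤ -1 := by
                  rw [div_le_iff₀ hD]
                  linarith [not_le.1 h1]
                linarith
              rw [Dnf.one_false h2, hg, min_eq_right (h3.trans zero_le_one), max_eq_left h3,
                sub_self, abs_zero]
        have hfx : ‖f x‖ ≤ 1 + ε₂ := by
          by_cases hx : |cs (tru H x)| ≤ R + 1
          · rw [hfin x hx]
            have h1 := hb1 ((rst T u x - a) / D) (cs (tru H x)) hx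
            push_cast at h1 ⊢
            exact h1
          · rw [hfout x hx]
            linarith [hψ'1 (tru H x)]
        have hf1 : ‖((g : ℝ) : ℂ) - f x‖ ≤ 3 * one (R * D ≤ |rst T u x - a|) + ε₂ := by
          by_cases h1 : R * D ≤ |rst T u x - a|
          · rw [Dnf.one_true h1]
            have h2 := norm_sub_le ((g : ℝ) : ℂ) (f x)
            rw [Complex.norm_real, Real.norm_eq_abs, abs_of_nonneg hg0] at h2
            linarith
          · rw [Dnf.one_false h1, mul_zero, zero_add]
            have hvR : |v| ≤ R := by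
              rw [hv, abs_div, abs_of_pos hD, div_le_iff₀ hD]
              exact (not_le.1 h1).le
            by_cases hx : |cs (tru H x)| ≤ R + 1
            · rw [hfin x hx, norm_sub_rev]
              have h2 := hb2 ((rst T u x - a) / D) (cs (tru H x)) hvR hx
              push_cast at h2 ⊢
              exact h2
            · rw [hfout x hx]
              have hvR' := abs_le.1 hvR
              simp only [hψ']
              split_ifs with h3
              · have h4 : 1 ≤ c + v := by
                  rw [hc']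
                  linarith
                rw [hg, min_eq_left h4, max_eq_right zero_le_one, Complex.ofReal_one, sub_self,
                  norm_zero]
                exact hε₂0.le
              · have h4 : c + v ≤ 0 := by
                  rw [hc']
                  rw [abs_le, not_and_or] at hx
                  rcases hx with hx | hx
                  · linarith [not_le.1 hx]
                  · exact absurd (not_le.1 hx) h3
                rw [hg, min_eq_right (h4.trans zero_le_one), max_eq_left h4, Complex.ofReal_zero,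
                  sub_self, norm_zero]
                exact hε₂0.le
        have h5 : ((one (θ ≤ rst M u x) : ℝ) : ℂ) - f x =
            ((one (θ ≤ rst M u x) - g : ℝ) : ℂ) + (((g : ℝ) : ℂ) - f x) := by
          push_cast
          ring
        rw [h5]
        refine (norm_add_le _ _).trans ?_
        rw [Complex.norm_real, Real.norm_eq_abs]
        linarith
      have h6 := avg_mono (f := fun ω => ‖((one (θ ≤ rst M u (Y ω)) : ℝ) : ℂ) - f (Y ω)‖)
        (g := fun ω => one (|rst M₀ u (Y ω) - θ'| ≤ D) +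
          3 * one (R * D ≤ |rst T u (Y ω) - a|) + ε₂) fun ω => hpt (Y ω)
      rw [avg_add, avg_add, avg_mul_left, avg_const] at h6
      have h7 : min (ε / 16) 1 ≤ ε / 16 := min_le_left _ _
      linarith

end Pool.Agent.MP_ca1109_lc.Xh
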