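import Mathlib

/-!
# Boolean functions of modular gates and threshold gates over monomials of bounded read: the class
-/

namespace Pool.Agent.MP_ca1109_lc.Xh

/-- A gate over monomials. A monomial is a set `m` of variables; it is true at `x` if `x i` is true
for all `i ∈ m`. Any number of monomials of any width may be used, but every variable occurs in at
most `r` of the monomials with a nonzero coefficient. The gate tests either whether the sum of the
coefficients of the true monomials, in an arbitrary finite abelian group, lies in a set of at most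
`B` elements, or whether the sum of the real weights of the true monomials is at least `θ`. -/
def Gate (r B : ℕ) {n : ℕ} (g : (Fin n → Bool) → Bool) : Prop :=
  (∃ (G : Type) (_ : AddCommGroup G) (_ : Finite G) (c : Finset (Fin n) → G) (A : Finset G),
    A.card ≤ B ∧ (∀ i, {m | i ∈ m ∧ c m ≠ 0}.ncard ≤ r) ∧
    ∀ x, g x = true ↔ (∑ m : Finset (Fin n), if ∀ i ∈ m, x i = true then c m else 0) ∈ A) ∨
  ∃ (w : Finset (Fin n) → ℝ) (θ : ℝ), (∀ i, {m | i ∈ m ∧ w m ≠ 0}.ncard ≤ r) ∧
    ∀ x, g x = true ↔ θ ≤ ∑ m : Finset (Fin n), if ∀ i ∈ m, x i = true then w m else 0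

/-- `T` is a Boolean function of `k` gates. -/
def D2Test (r B k n : ℕ) (T : (Fin n → Bool) → Bool) : Prop :=
  ∃ (g : Fin k → (Fin n → Bool) → Bool) (F : (Fin k → Bool) → Bool),
    (∀ j, Gate r B (g j)) ∧ ∀ x, T x = F fun j => g j x

end Pool.Agent.MP_ca1109_lc.Xh
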